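import Pool.Agent.Lib.MP_a01f70_lc.GA.Defs

/-! Consequences of minimality, first part. -/

set_option autoImplicit false
set_option linter.unusedSectionVars false

noncomputable section

namespace Pool.Agent.Lib.MP_a01f70_lc.GA

open Finset ZMod BA
open scoped ComplexConjugate

variable {N n : ℕ} [NeZero N] [NeZero n]

variable {m c u θ θ₁ B M : ℕ} {G : Ideal (ZMod N)} {d : ZMod N}

theorem ArA_le (h : Ar n m c G d u θ θ₁ B M) : 700 * B * 2 * θ ≤ u :=
  le_trans (Nat.mul_le_mul_right _ (Nat.mul_le_mul_left _ (Nat.le_add_left _ _))) h.big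

theorem ArA_mul {z : ℤ} (h0 : z ≠ 0) (hz : |z| < (B : ℤ) ^ 350) :
    ∃ v : ℤ, z * v ≠ 0 ∧ |z * v| < 2 ^ (350 * B) ∧ Wt 700 ((z * v : ℤ) : ZMod N) ∧
      Wt (350 * B) (v : ZMod N) := by
  obtain ⟨v, h1, h2, h3⟩ := exists_mul h0 hz
  refine ⟨v, h1, h2, h3 _, wt_int (lt_of_le_of_lt ?_ h2)⟩
  rw [abs_mul]
  exact le_mul_of_one_le_left (abs_nonneg _) (Int.one_le_abs h0)

/-- `big`, `hB`. -/
theorem Ar.le4 (h : Ar n m c G d u θ θ₁ B M) : 4 * θ ≤ u := by
  have h1 := ArA_le h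
  have h2 := Nat.mul_le_mul_right θ h.hB
  nlinarith

/-- `big`. -/
theorem Ar.le2 (h : Ar n m c G d u θ θ₁ B M) : 350 * B * (2 * θ) ≤ u := by
  have h1 := ArA_le h
  nlinarith [Nat.zero_le (B * θ)]

/-- As `BA.sep`: if `z ≠ 0` take `v` from `exists_mul` (`r = 350`); `z v` has weight `700`,
`Wt (350 B) v` (`wt_int`), `z v d` has weight `350 B T ≤ u`; so `z v ∈ G` (`min`), `cy.int`. -/
theorem Ar.a0 (h : Ar n m c G d u θ θ₁ B M) {z : ℤ} {T : ℕ} (hz : |z| < (B : ℤ) ^ 350)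
    (hT : 350 * B * T ≤ u) (hw : Wt T ((z : ZMod N) * d)) : z = 0 := by
  by_contra h0
  obtain ⟨v, h1, h2, h3, h4⟩ := ArA_mul (N := N) h0 hz
  refine h1 (h.cy.int _ h2 (h.min _ (h3.mono (by norm_num)) ?_))
  have h6 : ((z * v : ℤ) : ZMod N) * d = (v : ZMod N) * (z * d) := by
    rw [Int.cast_mul]
    ring
  rw [h6]
  exact (h4.mul hw).mono hT

/-- The same: `z v (sp s - sp s')` has weight `700 * 2`, `min`, `cy.pair`. -/
theorem Ar.a1 (h : Ar n m c G d u θ θ₁ B M) {z : ℤ} (h0 : z ≠ 0) (hz : |z| < (B : ℤ) ^ 350)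
    {s s' : Bool × ZMod n} (hw : Wt (2 * θ) ((z : ZMod N) * (sp N s - sp N s') * d)) :
    s.1 = s'.1 ∧ (m : ZMod n) ∣ s.2 - s'.2 := by
  obtain ⟨v, h1, h2, h3, h4⟩ := ArA_mul (N := N) h0 hz
  refine h.cy.pair _ s s' h1 h2 (h.min _ (h3.mul ((wt_sp s).sub (wt_sp s'))) ?_)
  have h6 : ((z * v : ℤ) : ZMod N) * (sp N s - sp N s') * d =
      (v : ZMod N) * (z * (sp N s - sp N s') * d) := by
    rw [Int.cast_mul]
    ring
  rw [h6]
  exact (h4.mul hw).mono h.le2

open Classical in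
/-- The set is contained in the image of `range c` under `t ↦ x + m t`: a multiple `m * w` equals
`m * (w.val % c)` since `m * c = 0`. -/
theorem card_dvd (hn : n = c * m) (x : ZMod n) :
    (univ.filter fun j : ZMod n => (m : ZMod n) ∣ j - x).card ≤ c := by
  have hc : 0 < c := Nat.pos_of_ne_zero fun e => NeZero.ne n (by rw [hn, e, zero_mul])
  have h0 : (m : ZMod n) * c = 0 := by
    rw [← Nat.cast_mul, mul_comm, ← hn, natCast_self]
  refine le_trans (card_le_card (t := (range c).image fun t : ℕ => x + m * t) ?_)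
    (card_image_le.trans (card_range c).le)
  intro j hj
  obtain ⟨w, hw⟩ := (mem_filter.1 hj).2
  refine mem_image.2 ⟨w.val % c, mem_range.2 (Nat.mod_lt _ hc), ?_⟩
  have h1 : w = c * (w.val / c : ℕ) + (w.val % c : ℕ) := by
    rw [← Nat.cast_mul, ← Nat.cast_add, Nat.div_add_mod, natCast_zmod_val]
  rw [h1, mul_add, ← mul_assoc, h0, zero_mul, zero_add] at hw
  rw [← hw, add_sub_cancel]

open Classical in
/-- Union over `z ∈ Ioo (-L) L` of the sets of `card_dvd`. -/
theorem card_Nr (hn : n = c * m) (L : ℕ) (x : ZMod n) :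
    (univ.filter fun j : ZMod n => Nr m L (j - x)).card ≤ 2 * L * c := by
  refine le_trans (card_le_card (t := (Ioo (-L : ℤ) L).biUnion fun z =>
    univ.filter fun j : ZMod n => (m : ZMod n) ∣ j - (x + z)) ?_) ?_
  · intro j hj
    obtain ⟨z, t, h1, h2⟩ := (mem_filter.1 hj).2
    refine mem_biUnion.2 ⟨z, mem_Ioo.2 (abs_lt.1 h1), mem_filter.2 ⟨mem_univ _, t, ?_⟩⟩
    rw [← sub_sub, h2, add_sub_cancel_left]
  · refine (card_biUnion_le_card_mul _ _ c fun z _ => card_dvd hn _).trans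
      (Nat.mul_le_mul_right _ ?_)
    rw [Int.card_Ioo]
    omega

/-- The colour of `j` is `8 * (j.val / m) + 2 * (j.val % m % 4) + if m ≤ j.val % m + 4 then 1 else 0`
(less than `8 c`). Same colour and `i - j = z + m t`, `|z| < 4`: `n ∣ i.val - j.val - z - m t`, so
`m` divides `i.val % m - j.val % m - z`, which is `0` or `± m`; `omega`. -/
theorem exists_col (hn : n = c * m) (hm : 16 ≤ m) {C : ℕ} (hC : 8 * c ≤ C) :
    ∃ κ : ZMod n → Fin C, ∀ i j, κ i = κ j → Nr m 4 (i - j) → i = j := by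
  have hq : ∀ j : ZMod n, j.val / m < c := fun j =>
    Nat.div_lt_of_lt_mul (by rw [mul_comm, ← hn]; exact val_lt j)
  refine ⟨fun j => ⟨8 * (j.val / m) + 2 * (j.val % m % 4) + if m ≤ j.val % m + 4 then 1 else 0,
    ?_⟩, fun i j e ⟨z, t, h1, h2⟩ => ?_⟩
  · have := hq j
    split_ifs <;> omega
  have e' := congrArg Fin.val e
  dsimp only at e'
  have h3 : (((i.val : ℤ) - j.val - z - m * t : ℤ) : ZMod n) = 0 := by
    push_cast
    rw [natCast_zmod_val, natCast_zmod_val, h2]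
    ring
  have h4 : (m : ℤ) ∣ (i.val : ℤ) - j.val - z - m * t :=
    Dvd.dvd.trans ⟨c, by rw [hn]; push_cast; ring⟩ ((intCast_zmod_eq_zero_iff_dvd _ n).1 h3)
  have hi := Nat.div_add_mod i.val m
  have hj := Nat.div_add_mod j.val m
  have ri := Nat.mod_lt i.val (show 0 < m by omega)
  have rj := Nat.mod_lt j.val (show 0 < m by omega)
  have hd : i.val / m = j.val / m := by
    split_ifs at e' <;> omega
  rw [hd] at hi e'
  obtain ⟨w, hw⟩ := h4
  have h5 : ((i.val % m : ℕ) : ℤ) - (j.val % m : ℕ) - z = m * (w + t) := by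
    have h6 : (m : ℤ) * (j.val / m : ℕ) + (i.val % m : ℕ) = i.val := by exact_mod_cast hi
    have h7 : (m : ℤ) * (j.val / m : ℕ) + (j.val % m : ℕ) = j.val := by exact_mod_cast hj
    linarith
  have hz := abs_lt.1 h1
  generalize w + t = y at h5
  have h8 : y = -1 ∨ y = 0 ∨ y = 1 := by
    have h9 : (16 : ℤ) ≤ m := by exact_mod_cast hm
    have h10 : y < 2 := by
      by_contra h11
      have := mul_le_mul_of_nonneg_left (not_lt.1 h11) (Int.natCast_nonneg m)
      omega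
    have h12 : -2 < y := by
      by_contra h11
      have := mul_le_mul_of_nonneg_left (not_lt.1 h11) (Int.natCast_nonneg m)
      omega
    omega
  refine val_injective n ?_
  generalize m * (j.val / m) = a at hi hj
  rcases h8 with rfl | rfl | rfl <;> split_ifs at e' <;> omega

end Pool.Agent.Lib.MP_a01f70_lc.GA
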