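import Pool.Agent.Lib.MP_a01f70_lc.GA.ArA

/-! Consequences of minimality, second part. -/

set_option autoImplicit false
set_option linter.unusedSectionVars false

noncomputable section

namespace Pool.Agent.Lib.MP_a01f70_lc.GA

open Finset ZMod BA
open scoped ComplexConjugate

variable {N n : ℕ} [NeZero N] [NeZero n]

variable {m c u θ θ₁ B M : ℕ} {G : Ideal (ZMod N)} {d : ZMod N}

/-- `sp s - sp s₀` has weight two and lies in `II d (2 θ)`: `a1` with `z = 1` (`1 < B ^ 350` by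
`hX`). With `δ = s.2 - s₀.2`, `sp s - sp s₀ = sp s₀ * (pw δ - 1)` (`sp_mul`); multiply by the
inverse `sp (s₀.1, -s₀.2)` (`wt_sp_mul`), `win`. -/
theorem Ar.fib (h : Ar n m c G d u θ θ₁ B M) {x : ZMod N} {s s₀ : Bool × ZMod n}
    (h1 : x + sp N s ∈ II d θ) (h2 : x + sp N s₀ ∈ II d θ) :
    s.1 = s₀.1 ∧ s.2 - s₀.2 ∈ K1 n m d θ₁ := by
  classical
  have hw : Wt (2 * θ) ((sp N s - sp N s₀) * d) := by
    have := Wt.sub h1 h2
    rwa [← two_mul, ← sub_mul, add_sub_add_left_eq_sub] at this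
  have b : |(1 : ℤ)| < (B : ℤ) ^ 350 := by
    have := h.hX
    have : 0 < 4 ^ ((22 + c) * c) := by positivity
    exact_mod_cast (by omega : 1 < B ^ 350)
  obtain ⟨k1, k2⟩ := h.a1 one_ne_zero b (s := s) (s' := s₀) (by simpa using hw)
  refine ⟨k1, mem_filter.2 ⟨mem_univ _, k2, h.win _ k2 ?_⟩⟩
  have e : sp N s = sp N s₀ * pw N (s.2 - s₀.2) := by
    rw [← sp_mul h.hN s₀.1 s₀.2, add_sub_cancel, ← k1]
  have e' : sp N (s₀.1, -s₀.2) * sp N s₀ = 1 := by
    unfold sp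
    split_ifs <;> simp [pw_neg_mul h.hN]
  have := wt_sp_mul hw (s₀.1, -s₀.2)
  rwa [e, ← mul_assoc, ← mul_sub_one, ← mul_assoc, e', one_mul] at this

/-- Weight `41`, `min`, `cy.two`. -/
theorem Ar.small (h : Ar n m c G d u θ θ₁ B M) {a : ℤ} {s : Bool × ZMod n}
    (h1 : (a : ZMod N) + sp N s ∈ II d θ) (ha : |a| < 2 ^ 40) : ∃ v : ℕ, |a| = 2 ^ v := by
  have := h.le4
  have := h.hB
  exact h.cy.two a s (ha.trans_le (pow_le_pow_right₀ one_le_two (by omega)))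
    (h.min _ (((wt_int ha).add (wt_sp s)).mono (by omega)) (Wt.mono h1 (by omega)))

/-- The alternating sum is `± (pw j₁ + pw j₂ - (pw j₃ + pw j₄))`, in `II d (4 θ)`; `min`,
`cy.four`. -/
theorem Ar.sid (h : Ar n m c G d u θ θ₁ B M) {a₁ a₂ a₃ a₄ : ℤ} {σ : Bool} {j₁ j₂ j₃ j₄ : ZMod n}
    (h1 : (a₁ : ZMod N) + sp N (σ, j₁) ∈ II d θ) (h2 : (a₂ : ZMod N) + sp N (σ, j₂) ∈ II d θ)
    (h3 : (a₃ : ZMod N) + sp N (σ, j₃) ∈ II d θ) (h4 : (a₄ : ZMod N) + sp N (σ, j₄) ∈ II d θ)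
    (e : a₁ + a₂ = a₃ + a₄) : (m : ZMod n) ∣ j₁ - j₃ ∨ (m : ZMod n) ∣ j₁ - j₄ := by
  have k := ((Wt.add h1 h2).sub (Wt.add h3 h4)).mono (T := u) (by have := h.le4; omega)
  have e' : (a₁ : ZMod N) + a₂ = a₃ + a₄ := by exact_mod_cast congrArg (Int.cast (R := ZMod N)) e
  refine h.cy.four _ _ _ _ (h.min _ ((((wt_pw j₁).add (wt_pw j₂)).sub
    ((wt_pw j₃).add (wt_pw j₄))).mono (by omega)) ?_)
  cases σ
  · refine Eq.mp (congrArg _ ?_) k.neg
    simp only [sp, Bool.false_eq_true, if_false]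
    linear_combination (-d) * e'
  · refine Eq.mp (congrArg _ ?_) k
    simp only [sp, if_true]
    linear_combination d * e'

theorem arB_sum {T : ℕ} (s : Finset ℕ) {f : ℕ → ZMod N} (h : ∀ i ∈ s, Wt T (f i)) :
    Wt (s.card * T) (∑ i ∈ s, f i) := by
  induction s using Finset.induction_on with
  | empty => simpa using wt_zero 0
  | insert i s hi ih =>
    rw [sum_insert hi, card_insert_of_notMem hi, add_mul, one_mul, add_comm _ T]
    exact (h i (mem_insert_self ..)).add (ih fun j hj => h j (mem_insert_of_mem hj))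

/-- `δ = j - j'`, `y = pw δ * a'`: `a - y ∈ II d (2 θ)` (`sp_mul`), `pw δ ^ c = 1` (`c δ = 0`), so
`a ^ c - a' ^ c = (∑ i ∈ range c, a ^ i * y ^ (c - 1 - i)) * (a - y)` (`geom_sum₂_mul`). Each term of
the sum is a power of two times an integer below `2 ^ (c * (2 * (22 + c)))` (`wt_int`). `a0` with
`big`, `hX`; `Odd.pow_injective` (or `Odd.strictMono_pow`). -/
theorem Ar.eq_of (h : Ar n m c G d u θ θ₁ B M) {a a' : ℤ} {σ : Bool} {j j' : ZMod n}
    (h1 : (a : ZMod N) + sp N (σ, j) ∈ II d θ) (h2 : (a' : ZMod N) + sp N (σ, j') ∈ II d θ)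
    (hj : (m : ZMod n) ∣ j - j') (ha : |a| < 4 ^ (22 + c)) (ha' : |a'| < 4 ^ (22 + c)) :
    a = a' := by
  have c0 := h.odd.pos
  have e : sp N (σ, j) = sp N (σ, j') * pw N (j - j') := by rw [← sp_mul h.hN, add_sub_cancel]
  have hw : Wt (2 * θ) ((a - pw N (j - j') * a') * d) := by
    refine Eq.mp (congrArg₂ _ (two_mul θ).symm ?_) (Wt.sub h1 (wt_pw_mul h2 (j - j')))
    rw [e]
    ring
  have e1 : pw N (j - j') ^ c = 1 := by
    obtain ⟨w, hw⟩ := hj
    have : (c : ZMod n) * m = 0 := by rw [← Nat.cast_mul, ← h.hn, natCast_self]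
    rw [pw, ← pow_mul, ← pw_nat h.hN, Nat.cast_mul, natCast_zmod_val, hw, mul_comm, ← mul_assoc,
      this, zero_mul, pw_zero]
  have hs : Wt (c * (c * (2 * (22 + c))))
      (∑ i ∈ range c, (a : ZMod N) ^ i * (pw N (j - j') * a') ^ (c - 1 - i)) := by
    refine Eq.mp (by rw [card_range]) (arB_sum (range c) fun i hi => ?_)
    have := mem_range.1 hi
    have b : |a ^ i * a' ^ (c - 1 - i)| < 2 ^ (c * (2 * (22 + c))) :=
      calc _ ≤ ((4 : ℤ) ^ (22 + c)) ^ i * (4 ^ (22 + c)) ^ (c - 1 - i) := by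
            rw [abs_mul, abs_pow, abs_pow]
            gcongr
        _ < (4 ^ (22 + c)) ^ c := by
            rw [← pow_add]
            exact pow_lt_pow_right₀ (one_lt_pow₀ (by norm_num) (by omega)) (by omega)
        _ = _ := by rw [mul_comm c, pow_mul, pow_mul]; norm_num
    refine Eq.mp (congrArg _ ?_) (wt_shift ((j - j').val * (c - 1 - i)) (wt_int b))
    rw [pw]
    push_cast
    ring
  have k := hs.mul hw
  rw [← mul_assoc _ _ d, geom_sum₂_mul, mul_pow, e1, one_mul] at k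
  refine h.odd.pow_injective (sub_eq_zero.1 (h.a0 ?_ (le_trans ?_ h.big) (by exact_mod_cast k)))
  · have b1 := pow_le_pow_left₀ (abs_nonneg _) ha.le c
    have b2 := pow_le_pow_left₀ (abs_nonneg _) ha'.le c
    have b3 : 2 * (4 : ℤ) ^ ((22 + c) * c) < B ^ 350 := by exact_mod_cast h.hX
    rw [← abs_pow, ← pow_mul] at b1 b2
    exact ((abs_sub _ _).trans (by linarith)).trans_lt b3
  · generalize c * (c * (2 * (22 + c))) = X
    exact Nat.le.intro (k := 1400 * B * θ) (by ring)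

/-- `a0` for `a - a'` (`hM`, `le2`). -/
theorem Ar.det (h : Ar n m c G d u θ θ₁ B M) {a a' : ℤ} {x : ZMod N}
    (h1 : (a : ZMod N) + x ∈ II d θ) (h2 : (a' : ZMod N) + x ∈ II d θ) (ha : |a| ≤ M)
    (ha' : |a'| ≤ M) : a = a' := by
  have k := Wt.sub h1 h2
  rw [← two_mul, ← sub_mul, add_sub_add_right_eq_sub] at k
  have b : 2 * (M : ℤ) < B ^ 350 := by exact_mod_cast h.hM
  exact sub_eq_zero.1 (h.a0 (((abs_sub _ _).trans (by linarith)).trans_lt b) h.le2
    (by exact_mod_cast k))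

end Pool.Agent.Lib.MP_a01f70_lc.GA
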