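import Pool.Agent.Lib.MP_a01f70_lc.GA.ArB

/-! The number of exceptional terms of second order. -/

set_option autoImplicit false
set_option linter.unusedSectionVars false

noncomputable section

namespace Pool.Agent.Lib.MP_a01f70_lc.GA

open Finset ZMod BA
open scoped ComplexConjugate

variable {N n : ℕ} [NeZero N] [NeZero n]

variable {m c u θ θ₁ B M : ℕ} {G : Ideal (ZMod N)} {d : ZMod N}

theorem ArC_card {α : Type} {S : Finset α} {k : ℕ} (h : ∀ t ∈ S, S.card ≤ k) : S.card ≤ k := by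
  rcases S.eq_empty_or_nonempty with rfl | ⟨t, ht⟩
  · exact Nat.zero_le k
  · exact h t ht

theorem ArC_not (σ : Bool) (i : ZMod n) : sp N (!σ, i) = -sp N (σ, i) := by
  cases σ <;> simp [sp]

theorem ArC_lt (h : Ar n m c G d u θ θ₁ B M) {a : ℤ} (ha : |a| ≤ M) : |a| < (B : ℤ) ^ 350 := by
  have h1 : ((2 * M : ℕ) : ℤ) < ((B ^ 350 : ℕ) : ℤ) := Int.ofNat_lt.2 h.hM
  push_cast at h1
  have h2 : (0 : ℤ) ≤ M := Int.natCast_nonneg M
  linarith

theorem ArC_pair (h : Ar n m c G d u θ θ₁ B M) {s t : Bool × ZMod n} (e : sp N s + sp N t ∈ G) :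
    t.1 = !s.1 ∧ (m : ZMod n) ∣ s.2 - t.2 := by
  have hB := h.hB
  have h1 := h.cy.pair 1 s (!t.1, t.2) one_ne_zero
    (by rw [abs_one]; exact one_lt_pow₀ one_lt_two (by omega))
    (by rwa [ArC_not, Int.cast_one, one_mul, sub_neg_eq_add])
  exact ⟨by rw [h1.1, Bool.not_not], h1.2⟩

open Classical in
/-- If `sp t.1 + sp t.2 ∈ G` then `cy.pair` (`z = 1`, `sp t.2 = -sp (!t.2.1, t.2.2)`) gives opposite
signs and `m ∣ δ = t.2.2 - t.1.2`, `sp t.2 = -sp t.1 * pw δ`. Fibre over `δ` (`card_dvd`,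
`card_le_mul_card_image_of_maps_to` or `card_eq_sum_card_fiberwise`): for two solutions `t, t'` with
the same `δ`, `sp t'.1 * (a + ..) - sp t.1 * (a + ..) = a (sp t'.1 - sp t.1) ∈ II d (2 θ)`
(`wt_sp_mul`), so `a1` puts `t'.1` in a set of `c` elements; `t'.1` and `δ` determine `t'`. -/
theorem Ar.cnt_in (h : Ar n m c G d u θ θ₁ B M) {a : ℤ} (h0 : a ≠ 0) (ha : |a| ≤ M) :
    (univ.filter fun t : (Bool × ZMod n) × (Bool × ZMod n) =>
      (a : ZMod N) + (sp N t.1 + sp N t.2) ∈ II d θ ∧ sp N t.1 + sp N t.2 ∈ G).card ≤ c * c := by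
  refine (card_le_mul_card_image_of_maps_to (f := fun t => t.1.2 - t.2.2)
    (t := univ.filter fun j : ZMod n => (m : ZMod n) ∣ j - 0) (fun t ht => ?_) c
    fun δ _ => ArC_card fun t₀ h₀ => ?_).trans (Nat.mul_le_mul_left c (card_dvd h.hn 0))
  · rw [mem_filter, sub_zero]
    exact ⟨mem_univ _, (ArC_pair h (mem_filter.1 ht).2.2).2⟩
  have k1 : ∀ t : (Bool × ZMod n) × (Bool × ZMod n), sp N t.1 + sp N t.2 ∈ G →
      t.1.2 - t.2.2 = δ → t.2 = (!t.1.1, t.1.2 + -δ) := fun t e1 e2 =>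
    Prod.ext (ArC_pair h e1).1 (by rw [← e2]; ring)
  have k2 : ∀ t : (Bool × ZMod n) × (Bool × ZMod n), sp N t.1 + sp N t.2 ∈ G →
      t.1.2 - t.2.2 = δ → sp N t.2 = -sp N t.1 * pw N (-δ) := fun t e1 e2 => by
    rw [k1 t e1 e2, sp_mul h.hN, ArC_not]
  simp only [mem_filter, mem_univ, true_and] at h₀
  have k3 : ∀ t : (Bool × ZMod n) × (Bool × ZMod n),
      ((a : ZMod N) + (sp N t.1 + sp N t.2) ∈ II d θ ∧ sp N t.1 + sp N t.2 ∈ G) ∧
        t.1.2 - t.2.2 = δ → t.1.1 = t₀.1.1 ∧ (m : ZMod n) ∣ t.1.2 - t₀.1.2 := fun t ht => by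
    refine h.a1 h0 (ArC_lt h ha) ?_
    have h1 := (wt_sp_mul h₀.1.1 t.1).sub (wt_sp_mul ht.1.1 t₀.1)
    rw [k2 t ht.1.2 ht.2, k2 t₀ h₀.1.2 h₀.2, ← two_mul] at h1
    have e : (a : ZMod N) * (sp N t.1 - sp N t₀.1) * d =
        sp N t.1 * ((a + (sp N t₀.1 + -sp N t₀.1 * pw N (-δ))) * d) -
          sp N t₀.1 * ((a + (sp N t.1 + -sp N t.1 * pw N (-δ))) * d) := by ring
    rw [e]
    exact h1
  refine (card_le_card_of_injOn (fun t => t.1.2) (fun t ht => ?_) fun t ht t' ht' e => ?_).trans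
    (card_dvd h.hn t₀.1.2)
  · simp only [coe_filter, mem_filter, mem_univ, true_and, Set.mem_ofPred_eq] at ht ⊢
    exact (k3 t ht).2
  · simp only [coe_filter, mem_filter, mem_univ, true_and, Set.mem_ofPred_eq] at ht ht'
    have e1 : t.1 = t'.1 := Prod.ext ((k3 t ht).1.trans (k3 t' ht').1.symm) e
    exact Prod.ext e1 (by rw [k1 t ht.1.2 ht.2, k1 t' ht'.1.2 ht'.2, e1])

open Classical in
/-- Fix a solution `t₀`. For any other solution the difference has weight four and lies in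
`II d (2 θ)`, hence in `G`; `cy.near` (twice, `add_comm`) puts `t.1.2` and `t.2.2` in a set `X` of
at most `32 c` elements (`card_Nr`); `t ∈ (univ ×ˢ X) ×ˢ (univ ×ˢ X)`. -/
theorem Ar.cnt_out (h : Ar n m c G d u θ θ₁ B M) (x : ZMod N) :
    (univ.filter fun t : (Bool × ZMod n) × (Bool × ZMod n) =>
      x + (sp N t.1 + sp N t.2) ∈ II d θ ∧ sp N t.1 + sp N t.2 ∉ G).card ≤ 4096 * (c * c) := by
  refine ArC_card fun t₀ h₀ => ?_
  have h₀ := (mem_filter.1 h₀).2
  obtain ⟨X, hX, k⟩ : ∃ X : Finset (ZMod n), X.card ≤ 32 * c ∧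
      ∀ j, Nr m 8 (j - t₀.1.2) ∨ Nr m 8 (j - t₀.2.2) → j ∈ X := by
    refine ⟨(univ.filter fun j => Nr m 8 (j - t₀.1.2)) ∪ univ.filter fun j => Nr m 8 (j - t₀.2.2),
      (card_union_le _ _).trans ?_, fun j hj => by simpa using hj⟩
    have h1 := card_Nr h.hn 8 t₀.1.2
    have h2 := card_Nr h.hn 8 t₀.2.2
    omega
  refine (card_le_card (t := ((univ : Finset Bool) ×ˢ X) ×ˢ ((univ : Finset Bool) ×ˢ X))
    fun t ht => ?_).trans ?_
  · have ht := (mem_filter.1 ht).2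
    have h1 : sp N t₀.1 + sp N t₀.2 - (sp N t.1 + sp N t.2) ∈ G := by
      refine h.min _ ((((wt_sp _).add (wt_sp _)).sub ((wt_sp _).add (wt_sp _))).mono (by norm_num))
        ?_
      have h2 := (Wt.sub h₀.1 ht.1).mono (show θ + θ ≤ u by have := h.le4; omega)
      have e : (sp N t₀.1 + sp N t₀.2 - (sp N t.1 + sp N t.2)) * d =
          (x + (sp N t₀.1 + sp N t₀.2)) * d - (x + (sp N t.1 + sp N t.2)) * d := by ring
      rw [e]
      exact h2
    simp only [mem_product, mem_univ, true_and]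
    refine ⟨k _ (h.cy.near _ _ _ _ h1 ht.2), k _ (h.cy.near _ _ t.2 t.1 ?_ ?_)⟩
    · rwa [add_comm (sp N t.2)]
    · rw [add_comm]
      exact ht.2
  · simp only [card_product, card_univ, Fintype.card_bool]
    calc 2 * X.card * (2 * X.card) ≤ 2 * (32 * c) * (2 * (32 * c)) := by gcongr
      _ = 4096 * (c * c) := by ring

/-- `int`: `a0`. `cnt1`: `fib` and `card_dvd` (`K1` consists of multiples of `m`). `cnt2`: `cnt_in`,
`cnt_out`. `col`: `exists_col`, `min` (weight six), `cy.six`. `1 ≤ c` since `c` is odd. -/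
theorem Ar.sep2 (h : Ar n m c G d u θ θ₁ B M) : Sep2 n (II d θ) M (4097 * (c * c)) := by
  classical
  have hc : c ≤ c * c := Nat.le_mul_self c
  have h4 := h.le4
  refine ⟨fun z h0 hz e => h0 (h.a0 (ArC_lt h hz) ?_ e), fun a _ _ => ArC_card fun s₀ h₀ => ?_,
    fun a h0 ha => ?_, ?_⟩
  · exact (Nat.mul_le_mul_left _ (by omega)).trans h.le2
  · have h₀ := (mem_filter.1 h₀).2
    refine ((card_le_card_of_injOn (fun s => s.2) (fun s hs => ?_) fun s hs s' hs' e => ?_).trans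
      (card_dvd h.hn s₀.2)).trans (by omega)
    · simp only [coe_filter, mem_univ, true_and, Set.mem_ofPred_eq] at hs ⊢
      exact (mem_filter.1 (h.fib hs h₀).2).2.1
    · simp only [coe_filter, mem_univ, true_and, Set.mem_ofPred_eq] at hs hs'
      exact Prod.ext (h.fib hs hs').1 e
  · have h1 := h.cnt_in h0 ha
    have h2 := h.cnt_out (a : ZMod N)
    rw [← filter_filter] at h1 h2
    rw [← card_filter_add_card_filter_not fun t => sp N t.1 + sp N t.2 ∈ G]
    omega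
  · obtain ⟨κ, hκ⟩ := exists_col h.hn h.hm (C := 4097 * (c * c)) (by omega)
    refine ⟨κ, fun e he hI => h.cy.six e (fun i j => hκ _ _ (he i j)) (h.min _ ?_ ?_)⟩
    · exact ((((wt_pw _).add (wt_pw _)).add (wt_pw _)).sub
        (((wt_pw _).add (wt_pw _)).add (wt_pw _))).mono (by norm_num)
    · exact Wt.mono hI (by omega)

end Pool.Agent.Lib.MP_a01f70_lc.GA
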