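import Pool.Agent.Lib.MP_a01f70_lc.GA.Defs

/-! Sets with few representations of sums. -/

set_option autoImplicit false
set_option linter.unusedSectionVars false

noncomputable section

namespace Pool.Agent.Lib.MP_a01f70_lc.GA

open Finset ZMod BA
open scoped ComplexConjugate

/-- `B' = B ∩ [-m ^ 2, m ^ 2]`; the map `(a, b) ↦ a + b` from `B' ×ˢ B'` to
`Icc (-2 m ^ 2) (2 m ^ 2)` has fibres of size at most `g` (`card_le_mul_card_image_of_maps_to`), so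
`k ^ 2 ≤ g (4 m ^ 2 + 1) ≤ (3 g m) ^ 2`. -/
theorem sidg_card {B : Finset ℤ} {g : ℕ} (h : ∀ x, (B.filter fun a => x - a ∈ B).card ≤ g) {m : ℕ}
    (hm : 1 ≤ m) : (B.filter fun a => |a| ≤ (m : ℤ) ^ 2).card ≤ 3 * g * m := by
  set B' := B.filter fun a => |a| ≤ (m : ℤ) ^ 2 with hB'
  have h1 : (B' ×ˢ B').card ≤ g * (Icc (-(2 * (m : ℤ) ^ 2)) (2 * (m : ℤ) ^ 2)).card := by
    refine card_le_mul_card_image_of_maps_to (f := fun p => p.1 + p.2) (fun p hp => ?_) g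
      fun x _ => le_trans (card_le_card_of_injOn Prod.fst (fun p hp => ?_) fun p hp q hq e => ?_) (h x)
    · obtain ⟨h2, h3⟩ := mem_product.1 hp
      have h4 := abs_le.1 (mem_filter.1 h2).2
      have h5 := abs_le.1 (mem_filter.1 h3).2
      exact mem_Icc.2 ⟨by linarith, by linarith⟩
    · obtain ⟨h2, h3⟩ := mem_filter.1 (mem_coe.1 hp)
      obtain ⟨h4, h5⟩ := mem_product.1 h2
      refine mem_coe.2 (mem_filter.2 ⟨(mem_filter.1 h4).1, ?_⟩)
      rw [← h3, add_sub_cancel_left]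
      exact (mem_filter.1 h5).1
    · have h2 := (mem_filter.1 (mem_coe.1 hp)).2
      have h3 := (mem_filter.1 (mem_coe.1 hq)).2
      exact Prod.ext e (by linarith)
  have h2 : ((Icc (-(2 * (m : ℤ) ^ 2)) (2 * (m : ℤ) ^ 2)).card : ℤ) = 4 * (m : ℤ) ^ 2 + 1 := by
    rw [Int.card_Icc_of_le _ _ (by nlinarith)]
    ring
  have h3 : (Icc (-(2 * (m : ℤ) ^ 2)) (2 * (m : ℤ) ^ 2)).card = 4 * m ^ 2 + 1 := by exact_mod_cast h2
  rw [card_product, h3] at h1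
  refine Nat.mul_self_le_mul_self_iff.1 (h1.trans ?_)
  have h4 : g ≤ g * g := Nat.le_mul_self g
  have h5 : 1 ≤ m ^ 2 := Nat.one_le_pow _ _ hm
  calc g * (4 * m ^ 2 + 1) ≤ g * g * (9 * m ^ 2) := Nat.mul_le_mul h4 (by omega)
    _ = _ := by ring

theorem SidG_shell {B : Finset ℤ} {g : ℕ} (h : ∀ x, (B.filter fun a => x - a ∈ B).card ≤ g)
    (r : ℕ) : ∑ a ∈ B.filter (fun a => (4 : ℤ) ^ r ≤ |a| ∧ |a| < 4 ^ (r + 1)), 1 / |(a : ℝ)| ≤
      6 * g / 2 ^ r := by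
  have h1 : (B.filter fun a => (4 : ℤ) ^ r ≤ |a| ∧ |a| < 4 ^ (r + 1)).card ≤
      3 * g * 2 ^ (r + 1) := by
    refine le_trans (card_le_card fun a ha => ?_) (sidg_card h (m := 2 ^ (r + 1)) Nat.one_le_two_pow)
    obtain ⟨h2, -, h3⟩ := mem_filter.1 ha
    refine mem_filter.2 ⟨h2, h3.le.trans_eq ?_⟩
    push_cast
    rw [← pow_mul, mul_comm, pow_mul]
    norm_num
  have h2 : ((B.filter fun a => (4 : ℤ) ^ r ≤ |a| ∧ |a| < 4 ^ (r + 1)).card : ℝ) ≤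
      3 * g * 2 ^ (r + 1) := by exact_mod_cast h1
  refine (sum_le_card_nsmul _ _ (1 / 4 ^ r) fun a ha => ?_).trans ?_
  · have h3 : (4 : ℝ) ^ r ≤ |(a : ℝ)| := by exact_mod_cast (mem_filter.1 ha).2.1
    exact one_div_le_one_div_of_le (by positivity) h3
  · rw [nsmul_eq_mul]
    refine (mul_le_mul_of_nonneg_right h2 (by positivity)).trans_eq ?_
    rw [show (4 : ℝ) = 2 * 2 by norm_num, mul_pow, pow_succ]
    field_simp
    ring

theorem SidG_part {B : Finset ℤ} {g : ℕ} (h : ∀ x, (B.filter fun a => x - a ∈ B).card ≤ g)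
    (r k : ℕ) : ∑ a ∈ B.filter (fun a => (4 : ℤ) ^ r ≤ |a| ∧ |a| < 4 ^ (r + k)), 1 / |(a : ℝ)| ≤
      12 * g / 2 ^ r - 12 * g / 2 ^ (r + k) := by
  induction k with
  | zero =>
    rw [filter_false_of_mem fun a _ ha => absurd ha.2 (not_lt.2 ha.1)]
    simp
  | succ k ih =>
    have h1 := SidG_shell h (r + k)
    have h2 : B.filter (fun a => (4 : ℤ) ^ r ≤ |a| ∧ |a| < 4 ^ (r + (k + 1))) ⊆
        B.filter (fun a => (4 : ℤ) ^ r ≤ |a| ∧ |a| < 4 ^ (r + k)) ∪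
          B.filter fun a => (4 : ℤ) ^ (r + k) ≤ |a| ∧ |a| < 4 ^ (r + k + 1) := fun a ha => by
      obtain ⟨h3, h4, h5⟩ := mem_filter.1 ha
      rcases lt_or_ge |a| (4 ^ (r + k)) with h6 | h6
      · exact mem_union_left _ (mem_filter.2 ⟨h3, h4, h6⟩)
      · exact mem_union_right _ (mem_filter.2 ⟨h3, h6, h5⟩)
    refine (sum_le_sum_of_subset_of_nonneg h2 fun a _ _ => by positivity).trans ?_
    rw [sum_union (disjoint_filter.2 fun a _ h3 h4 => absurd h3.2 (not_lt.2 h4.1))]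
    have h3 : (12 : ℝ) * g / 2 ^ (r + (k + 1)) = 6 * g / 2 ^ (r + k) := by
      rw [← add_assoc, pow_succ]
      field_simp
      ring
    have h4 : (12 : ℝ) * g / 2 ^ (r + k) = 2 * (6 * g / 2 ^ (r + k)) := by ring
    linarith

/-- As `BA.sidon_sum` (file `BA/SidA.lean`): the shell `4 ^ r ≤ |a| < 4 ^ (r + 1)` contributes at
most `6 g / 2 ^ r`. -/
theorem sidg_sum {B : Finset ℤ} {g : ℕ} (h : ∀ x, (B.filter fun a => x - a ∈ B).card ≤ g) (r : ℕ) :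
    ∑ a ∈ B.filter (fun a => (4 : ℤ) ^ r ≤ |a|), 1 / |(a : ℝ)| ≤ 12 * g / 2 ^ r := by
  obtain ⟨k, hk⟩ := pow_unbounded_of_one_lt (∑ a ∈ B, |a|) (by norm_num : (1 : ℤ) < 4)
  have h1 := SidG_part h r k
  rw [filter_congr (q := fun a => (4 : ℤ) ^ r ≤ |a|) fun a ha => and_iff_left (by
    exact ((single_le_sum (f := fun a : ℤ => |a|) (fun a _ => abs_nonneg a) ha).trans_lt
      hk).trans_le (pow_le_pow_right₀ (by norm_num) (by omega)))] at h1
  have h2 : (0 : ℝ) ≤ 12 * g / 2 ^ (r + k) := by positivity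
  linarith

end Pool.Agent.Lib.MP_a01f70_lc.GA
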