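import Pool.Agent.Lib.MP_a01f70_lc.GA.ArB
import Pool.Agent.Lib.MP_a01f70_lc.GA.SidG

/-! The exceptional terms of first order. -/

set_option autoImplicit false
set_option linter.unusedSectionVars false

noncomputable section

namespace Pool.Agent.Lib.MP_a01f70_lc.GA

open Finset ZMod BA
open scoped ComplexConjugate

variable {N n : ℕ} [NeZero N] [NeZero n]

variable {m c u θ θ₁ B M : ℕ} {G : Ideal (ZMod N)} {d : ZMod N}

/-- Choose `j a` for `a ∈ A`. Split at `4 ^ (22 + c)`. Below: a Sidon set (`sid`, `eq_of`),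
`sidon_sum`. Above: `sidg_sum` with `g = 2 c`, `r = 22 + c` (`2 c ≤ 2 ^ (c + 2)`): if
`a₁ ∈ A`, `x - a₁ ∈ A` then for every `a₃` in the filter `sid` (for `a₃, x - a₃, a₁, x - a₁`) puts
`j a₃` in a union of two sets of `c` elements (`card_dvd`), and `a₃ ↦ j a₃` is injective (`det`). -/
theorem Ar.sum_big (h : Ar n m c G d u θ θ₁ B M) (σ : Bool) (A : Finset ℤ)
    (hA : ∀ a ∈ A, 2 ^ 40 ≤ |a| ∧ |a| ≤ M ∧ ∃ j : ZMod n, (a : ZMod N) + sp N (σ, j) ∈ II d θ) :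
    ∑ a ∈ A, 1 / |(a : ℝ)| ≤ 24 / 2 ^ 20 := by
  classical
  choose! j hj using fun a ha => (hA a ha).2.2
  rw [← sum_filter_add_sum_filter_not A fun a => |a| < 4 ^ (22 + c)]
  have h1 := sidon_sum (B := A.filter fun a => |a| < 4 ^ (22 + c)) fun a ha b hb a' ha' b' hb' e => by
    rw [mem_filter] at ha hb ha' hb'
    exact (h.sid (hj a ha.1) (hj b hb.1) (hj a' ha'.1) (hj b' hb'.1) e).imp
      (fun t => h.eq_of (hj a ha.1) (hj a' ha'.1) t ha.2 ha'.2)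
      fun t => h.eq_of (hj a ha.1) (hj b' hb'.1) t ha.2 hb'.2
  rw [filter_true_of_mem fun a ha => (hA a (mem_filter.1 ha).1).1] at h1
  have h2 := sidg_sum (B := A) (g := 2 * c) (fun x => by
    rcases (A.filter fun a => x - a ∈ A).eq_empty_or_nonempty with e | ⟨a, ha⟩
    · simp [e]
    rw [mem_filter] at ha
    refine (card_le_card_of_injOn (t := (univ.filter fun i : ZMod n => (m : ZMod n) ∣ i - j a) ∪
      univ.filter fun i : ZMod n => (m : ZMod n) ∣ i - j (x - a)) j (fun b hb => ?_)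
      fun b hb b' hb' e => ?_).trans ((card_union_le _ _).trans ?_)
    · rw [mem_coe, mem_filter] at hb
      simpa using h.sid (hj b hb.1) (hj _ hb.2) (hj a ha.1) (hj _ ha.2) (by ring)
    · rw [mem_coe, mem_filter] at hb hb'
      exact h.det (hj b hb.1) (e ▸ hj b' hb'.1) (hA b hb.1).2.1 (hA b' hb'.1).2.1
    · have := card_dvd h.hn (j a)
      have := card_dvd h.hn (j (x - a))
      omega) (22 + c)
  simp only [not_lt]
  have h3 : (12 : ℝ) * (2 * c : ℕ) / 2 ^ (22 + c) ≤ 12 / 2 ^ 20 := by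
    have h4 : (c : ℝ) ≤ 2 ^ c := by exact_mod_cast (Nat.lt_two_pow_self (n := c)).le
    rw [div_le_div_iff₀ (by positivity) (by positivity), pow_add]
    push_cast
    nlinarith
  linarith

theorem ArD_mem {I : Set (ZMod N)} {K : Finset (ZMod n)} {t : ℤ × (Bool × ZMod n)}
    (h : t ∈ Bad2 I M K) : |t.1| ≤ M ∧ t.1 ≠ 0 ∧ (t.1 : ZMod N) + sp N t.2 ∈ I ∧
      ¬(t.1 = 1 ∧ t.2.1 = false ∧ t.2.2 ∈ K) ∧ ¬(t.1 = -1 ∧ t.2.1 = true ∧ t.2.2 ∈ K) := by
  classical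
  obtain ⟨h1, h2⟩ := mem_filter.1 h
  exact ⟨abs_le.2 (mem_Icc.1 (mem_product.1 h1).1), h2⟩

theorem ArD_even (h : Ar n m c G d u θ θ₁ B M) {t : ℤ × (Bool × ZMod n)}
    (ht : t ∈ Bad2 (II d θ) M (K1 n m d θ₁)) (h1 : |t.1| < 2 ^ 40) : Even t.1 := by
  obtain ⟨-, -, h2, h3, h4⟩ := ArD_mem ht
  obtain ⟨v, hv⟩ := h.small h2 h1
  have z : (0 : ZMod N) ∈ II d θ := by
    show Wt θ (0 * d)
    rw [zero_mul]
    exact wt_zero θ
  rcases Nat.eq_zero_or_pos v with rfl | v0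
  · rw [pow_zero] at hv
    rcases (abs_eq zero_le_one).1 hv with e | e
    · have := h.fib (s₀ := (false, 0)) h2 (by simpa [e, sp, pw_zero] using z)
      exact absurd ⟨e, this.1, by simpa using this.2⟩ h3
    · have := h.fib (s₀ := (true, 0)) h2 (by simpa [e, sp, pw_zero] using z)
      exact absurd ⟨e, this.1, by simpa using this.2⟩ h4
  · exact even_abs.1 (hv ▸ even_two.pow_of_ne_zero v0.ne')

/-- Let `A` be the image of `Bad2` under `Prod.fst`; each fibre has at most `card K1` elements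
(`fib`, the map `t ↦ t.2.2 - t₀.2.2`), so the sum is at most `card K1 * ∑ a ∈ A, ‖c a‖`
(`sum_fiberwise_of_maps_to`). If `|a| < 2 ^ 40` then `|a| = 2 ^ v` (`small`) and `v ≠ 0`: for
`a = 1` apply `fib` with `s₀ = (false, 0)` (`1 + sp s₀ = 0 ∈ II`), for `a = -1` with `(true, 0)`.
So `a` is even, `Mino.even`, at most `2 ^ 41` values. The rest: `sum_big` for both signs, `dec`. -/
theorem Ar.sum_bad (h : Ar n m c G d u θ θ₁ B M) {c' : ℤ → ℂ} {μ : ℝ} (hc : Mino c' M μ) :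
    ∑ t ∈ Bad2 (II d θ) M (K1 n m d θ₁), ‖c' t.1‖ ≤
      (K1 n m d θ₁).card * (2 ^ 41 * μ + 48 / 2 ^ 20) := by
  classical
  have hμ : 0 ≤ μ := (norm_nonneg _).trans (hc.even 0 Even.zero)
  rw [sum_comp (fun a => ‖c' a‖) Prod.fst]
  set A := (Bad2 (II d θ) M (K1 n m d θ₁)).image Prod.fst with hA
  have h0 : ∀ a ∈ A, (((Bad2 (II d θ) M (K1 n m d θ₁)).filter fun t => t.1 = a).card) • ‖c' a‖ ≤
      (K1 n m d θ₁).card * ‖c' a‖ := fun a ha => by
    obtain ⟨t₀, h₀, e₀⟩ := mem_image.1 ha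
    rw [nsmul_eq_mul]
    refine mul_le_mul_of_nonneg_right (Nat.cast_le.2 ?_) (norm_nonneg _)
    have key : ∀ t ∈ (Bad2 (II d θ) M (K1 n m d θ₁)).filter fun t => t.1 = a,
        t.1 = a ∧ t.2.1 = t₀.2.1 ∧ t.2.2 - t₀.2.2 ∈ K1 n m d θ₁ := fun t ht => by
      obtain ⟨t1, t2⟩ := mem_filter.1 ht
      exact ⟨t2, h.fib (t2 ▸ (ArD_mem t1).2.2.1) (e₀ ▸ (ArD_mem h₀).2.2.1)⟩
    refine card_le_card_of_injOn (fun t => t.2.2 - t₀.2.2) (fun t ht => (key t ht).2.2)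
      fun t ht t' ht' e => ?_
    exact Prod.ext ((key t ht).1.trans (key t' ht').1.symm)
      (Prod.ext ((key t ht).2.1.trans (key t' ht').2.1.symm) (sub_left_injective e))
  refine (sum_le_sum h0).trans ?_
  rw [← mul_sum]
  refine mul_le_mul_of_nonneg_left ?_ (Nat.cast_nonneg _)
  rw [← sum_filter_add_sum_filter_not A fun a => |a| < 2 ^ 40,
    ← sum_filter_add_sum_filter_not (A.filter fun a => ¬ |a| < 2 ^ 40)
      fun a => ∃ j : ZMod n, (a : ZMod N) + sp N (true, j) ∈ II d θ]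
  have big : ∀ (σ : Bool) (S : Finset ℤ), (∀ a ∈ S, a ∈ A ∧ ¬ |a| < 2 ^ 40 ∧
      ∃ j : ZMod n, (a : ZMod N) + sp N (σ, j) ∈ II d θ) → ∑ a ∈ S, ‖c' a‖ ≤ 24 / 2 ^ 20 := by
    intro σ S hS
    refine le_trans (sum_le_sum fun a ha => hc.dec a ?_) (h.sum_big σ S fun a ha => ?_)
    · obtain ⟨t, ht, rfl⟩ := mem_image.1 (hS a ha).1
      exact (ArD_mem ht).2.1
    · obtain ⟨t, ht, e⟩ := mem_image.1 (hS a ha).1
      exact ⟨not_lt.1 (hS a ha).2.1, e ▸ (ArD_mem ht).1, (hS a ha).2.2⟩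
  have h1 := big true ((A.filter fun a => ¬ |a| < 2 ^ 40).filter
      fun a => ∃ j : ZMod n, (a : ZMod N) + sp N (true, j) ∈ II d θ) fun a ha => by
    simp only [mem_filter] at ha
    exact ⟨ha.1.1, ha.1.2, ha.2⟩
  have h2 := big false ((A.filter fun a => ¬ |a| < 2 ^ 40).filter
      fun a => ¬ ∃ j : ZMod n, (a : ZMod N) + sp N (true, j) ∈ II d θ) fun a ha => by
    simp only [mem_filter] at ha
    refine ⟨ha.1.1, ha.1.2, ?_⟩
    obtain ⟨⟨a, σ, j⟩, ht, rfl⟩ := mem_image.1 ha.1.1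
    cases σ
    · exact ⟨j, (ArD_mem ht).2.2.1⟩
    · exact absurd ⟨j, (ArD_mem ht).2.2.1⟩ ha.2
  have h3 : (A.filter fun a => |a| < 2 ^ 40).card ≤ 2 ^ 41 := by
    refine (card_le_card (t := Ioo (-2 ^ 40) (2 ^ 40)) fun a ha =>
      mem_Ioo.2 (abs_lt.1 (mem_filter.1 ha).2)).trans ?_
    rw [Int.card_Ioo]
    norm_num
  have h4 := sum_le_card_nsmul (A.filter fun a => |a| < 2 ^ 40) (fun a => ‖c' a‖) μ fun a ha => by
    obtain ⟨a1, a2⟩ := mem_filter.1 ha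
    obtain ⟨t, ht, rfl⟩ := mem_image.1 a1
    exact hc.even _ (ArD_even h ht a2)
  have h5 : ((A.filter fun a => |a| < 2 ^ 40).card : ℝ) ≤ 2 ^ 41 := by exact_mod_cast h3
  rw [nsmul_eq_mul] at h4
  have h6 := h4.trans (mul_le_mul_of_nonneg_right h5 hμ)
  refine (add_le_add h6 (add_le_add h1 h2)).trans ?_
  linarith

end Pool.Agent.Lib.MP_a01f70_lc.GA
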