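import Pool.Agent.Lib.MP_a01f70_lc.GA.Defs

/-! The expected gain with a bound of first order that depends on the candidates. -/

set_option autoImplicit false
set_option linter.unusedSectionVars false

noncomputable section

namespace Pool.Agent.Lib.MP_a01f70_lc.GA

open Finset ZMod BA
open scoped ComplexConjugate

variable {N n : ℕ} [NeZero N] [NeZero n]

/-- Copy `BA.core` (file `BA/Core.lean`). In `key` the term of first order is
`∑ i ∈ R, ((if {i} ⊆ σ then 1 else 0) * m i - ∑ j ∈ univ.erase i, (if {i, j} ⊆ σ then 1 else 0) * v i j)`;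
`sum_bw_ind` for `{i, j}`, `i ≠ j`, gives `q ^ 2`. -/
theorem core' {ι Ω G : Type} [Fintype ι] [DecidableEq ι] [Fintype Ω] [AddCommGroup G]
    (w : Ω → ℝ) (hw : ∀ ω, 0 ≤ w ω) (hw1 : ∑ ω, w ω = 1) (Y : Finset ι → Ω → G) (b : ι → G)
    (φ : G → ℝ) (hφ : ∀ y, |φ y| ≤ 2) (p : Finset ι → Ω → ι → ℝ) (h0 : ∀ σ ω i, 0 ≤ p σ ω i)
    (h1 : ∀ σ ω i, p σ ω i ≤ 1) (R : Finset ι) {q α₀ α₂ β : ℝ} (m : ι → ℝ) (v : ι → ι → ℝ)
    (hv : ∀ i j, 0 ≤ v i j) (hq0 : 0 ≤ q) (hq1 : q ≤ 1) (hα : 0 ≤ α₂)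
    (hβ : ∀ y (W : Finset ι), |φ (y + ∑ i ∈ W, b i) - φ (y + ∑ i ∈ W ∩ R, b i)| ≤ β)
    (g0 : ∀ σ, -α₀ ≤ ∑ ω, w ω * φ (Y σ ω))
    (g1 : ∀ σ, ∀ i ∈ R, i ∈ σ → m i - ∑ j ∈ σ.erase i, v i j ≤
      ∑ ω, w ω * (p σ ω i * (φ (Y σ ω + b i) - φ (Y σ ω))))
    (g2 : ∀ σ i j, -α₂ ≤ ∑ ω, w ω * (p σ ω i * p σ ω j *
      (φ (Y σ ω + b i + b j) - φ (Y σ ω + b i) - φ (Y σ ω + b j) + φ (Y σ ω)))) :
    -α₀ - β + (q * ∑ i ∈ R, m i - q ^ 2 * ∑ i ∈ R, ∑ j, v i j) - (q * R.card) ^ 2 * α₂ -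
        7 * (q * R.card) ^ 3 ≤
      ∑ σ, bw (fun _ : ι => q) σ * ∑ ω, w ω *
        ∑ W, bw (fun i => if i ∈ σ then p σ ω i else 0) W * φ (Y σ ω + ∑ i ∈ W, b i) := by
  have key : ∀ σ : Finset ι, -α₀ - β + ∑ i ∈ R, ((if {i} ⊆ σ then 1 else 0) * m i -
      ∑ j ∈ univ.erase i, (if {i, j} ⊆ σ then 1 else 0) * v i j) -
      ∑ t ∈ R.offDiag, (if {t.1, t.2} ⊆ σ then 1 else 0) * α₂ / 2 -
      7 * (((σ ∩ R).card : ℝ) * ((σ ∩ R).card - 1) * ((σ ∩ R).card - 2)) ≤ ∑ ω, w ω *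
        ∑ W, bw (fun i => if i ∈ σ then p σ ω i else 0) W * φ (Y σ ω + ∑ i ∈ W, b i) := by
    intro σ
    refine le_trans ?_ (sum_le_sum fun ω _ => mul_le_mul_of_nonneg_left
      (inner φ hφ b (Y σ ω) R σ (p σ ω) (h0 σ ω) (h1 σ ω) (hβ _)) (hw ω))
    have e1 : ∑ i ∈ R, ((if {i} ⊆ σ then 1 else 0) * m i -
        ∑ j ∈ univ.erase i, (if {i, j} ⊆ σ then 1 else 0) * v i j) ≤ ∑ ω, w ω * ∑ i ∈ R,
        (if {i} ⊆ σ then 1 else 0) * (p σ ω i * (φ (Y σ ω + b i) - φ (Y σ ω))) := by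
      simp only [mul_sum]
      rw [sum_comm]
      refine sum_le_sum fun i hi => ?_
      by_cases h : i ∈ σ
      · have e : ∑ j ∈ univ.erase i, (if {i, j} ⊆ σ then 1 else 0) * v i j =
            ∑ j ∈ σ.erase i, v i j := by
          simp only [ite_mul, one_mul, zero_mul, ← sum_filter]
          refine sum_congr (Finset.ext fun j => ?_) fun _ _ => rfl
          simp [insert_subset_iff, h]
        simpa only [e, if_pos (singleton_subset_iff.2 h), one_mul] using g1 σ i hi h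
      · simp [h, insert_subset_iff]
    have e2 : -∑ t ∈ R.offDiag, (if {t.1, t.2} ⊆ σ then 1 else 0) * α₂ / 2 ≤
        ∑ ω, w ω * ∑ t ∈ R.offDiag, (if {t.1, t.2} ⊆ σ then 1 else 0) *
          (p σ ω t.1 * p σ ω t.2 * (φ (Y σ ω + b t.1 + b t.2) - φ (Y σ ω + b t.1) -
            φ (Y σ ω + b t.2) + φ (Y σ ω))) / 2 := by
      simp only [mul_sum]
      rw [sum_comm, ← sum_neg_distrib]
      refine sum_le_sum fun t _ => ?_
      split_ifs
      · simp only [one_mul, ← mul_div_assoc]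
        rw [← sum_div]
        linarith [g2 σ t.1 t.2]
      · simp
    have e3 : ∀ c : ℝ, ∑ ω, w ω * c = c := fun c => by rw [← sum_mul, hw1, one_mul]
    simp only [mul_sub (w _) (_ + _ + _), mul_add (w _) (_ + _), mul_add (w _) (_ - β),
      mul_sub (w _) _ β, sum_sub_distrib (s := univ), sum_add_distrib, e3]
    linarith [g0 σ]
  refine le_trans ?_ (sum_le_sum fun σ _ => mul_le_mul_of_nonneg_left (key σ)
    (bw_nonneg (fun _ => hq0) (fun _ => hq1) σ))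
  have f1 : q * ∑ i ∈ R, m i - q ^ 2 * ∑ i ∈ R, ∑ j, v i j ≤
      ∑ σ, bw (fun _ : ι => q) σ * ∑ i ∈ R, ((if {i} ⊆ σ then 1 else 0) * m i -
        ∑ j ∈ univ.erase i, (if {i, j} ⊆ σ then 1 else 0) * v i j) := by
    simp only [mul_sum, mul_sub, ← mul_assoc]
    rw [sum_comm (s := univ), ← sum_sub_distrib]
    refine sum_le_sum fun i _ => ?_
    rw [sum_sub_distrib, ← sum_mul, sum_bw_ind, prod_singleton, sum_comm (s := univ)]
    refine sub_le_sub_left (le_trans (le_of_eq (sum_congr rfl fun j hj => ?_))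
      (sum_le_sum_of_subset_of_nonneg (erase_subset i _) fun j _ _ =>
        mul_nonneg (sq_nonneg q) (hv i j))) _
    rw [← sum_mul, sum_bw_ind, prod_pair (mem_erase.1 hj).1.symm, sq]
  have f2 : ∑ σ, bw (fun _ : ι => q) σ *
      ∑ t ∈ R.offDiag, (if {t.1, t.2} ⊆ σ then 1 else 0) * α₂ / 2 ≤ (q * R.card) ^ 2 * α₂ := by
    simp only [mul_sum, mul_div_assoc, ← mul_assoc]
    rw [sum_comm]
    refine (sum_le_card_nsmul _ _ (q ^ 2 * α₂) fun t ht => ?_).trans ?_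
    · rw [← sum_mul, sum_bw_ind, prod_pair (mem_offDiag.1 ht).2.2, ← sq]
      exact mul_le_mul_of_nonneg_left (by linarith) (sq_nonneg q)
    · have h2 : (R.offDiag.card : ℝ) ≤ R.card ^ 2 := by
        rw [offDiag_card, sq]
        exact_mod_cast Nat.sub_le _ _
      rw [nsmul_eq_mul, mul_pow, mul_right_comm, mul_comm]
      exact mul_le_mul_of_nonneg_left h2 (by positivity)
  have f3 := sum_bw_three hq0 R
  have f4 : ∑ σ, bw (fun _ : ι => q) σ * (-α₀ - β) = -α₀ - β := by rw [← sum_mul, sum_bw, one_mul]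
  simp only [mul_sub (bw _ _) (_ + _ - _), mul_sub (bw _ _) (_ + _), mul_add (bw _ _) (_ - β),
    mul_left_comm (bw _ _) 7, sum_sub_distrib (s := (univ : Finset (Finset ι))), sum_add_distrib,
    ← mul_sum _ _ (7 : ℝ), f4]
  linarith

/-- `norm_ee_add`, `GainA_sum`, `∑ i ∈ β, f i = ∑ i, (if {i} ⊆ β then 1 else 0) * f i`,
`sum_bw_ind`, `sum_bw`. -/
theorem bw_phase {ι : Type} [Fintype ι] [DecidableEq ι] {ρ : ℝ} (h0 : 0 ≤ ρ) (h1 : ρ ≤ 1)
    (z : ι → ZMod N) (y : ZMod N) :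
    ∑ β : Finset ι, bw (fun _ => ρ) β * ‖ee (∑ i ∈ β, z i + y) - 1‖ ≤
      ρ * ∑ i, ‖ee (z i) - 1‖ + ‖ee y - 1‖ := by
  have h : ∀ β : Finset ι, ‖ee (∑ i ∈ β, z i + y) - 1‖ ≤
      ∑ i, (if {i} ⊆ β then 1 else 0) * ‖ee (z i) - 1‖ + ‖ee y - 1‖ := fun β => by
    refine (norm_ee_add _ _).trans (add_le_add ((GainA_sum β z).trans_eq ?_) le_rfl)
    simp
  refine (sum_le_sum fun β _ => mul_le_mul_of_nonneg_left (h β)
    (bw_nonneg (fun _ => h0) (fun _ => h1) β)).trans_eq ?_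
  simp only [mul_add, sum_add_distrib, mul_sum, ← mul_assoc]
  rw [← sum_mul, sum_bw, one_mul, sum_comm]
  congr 1
  refine sum_congr rfl fun i _ => ?_
  rw [← sum_mul, sum_bw_ind, prod_singleton]

end Pool.Agent.Lib.MP_a01f70_lc.GA
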