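import Pool.Agent.Lib.MP_a01f70_lc.GA.Defs

/-! Algebraic integers with small conjugates. -/

set_option autoImplicit false
set_option linter.unusedSectionVars false

noncomputable section

namespace Pool.Agent.Lib.MP_a01f70_lc.GA

open Finset Polynomial BA
open scoped ComplexConjugate

theorem CyA_dvd {K : Type} [Field K] [CharZero K] {k : ℕ} (hk : 0 < k) (α : ℤ[X]) {ζ : K}
    (hζ : IsPrimitiveRoot ζ k) (h : aeval ζ α = 0) : cyclotomic k ℤ ∣ α := by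
  rw [cyclotomic_eq_minpoly hζ hk]
  exact minpoly.isIntegrallyClosed_dvd (hζ.isIntegral hk) h

theorem CyA_root {k : ℕ} (hk : 0 < k) {ζ : ℂ} (hζ : IsPrimitiveRoot ζ k) :
    aeval ζ (cyclotomic k ℤ) = 0 := by
  rw [cyclotomic_eq_minpoly hζ hk]
  exact minpoly.aeval ℤ ζ

theorem CyA_norm {k : ℕ} (hk : 0 < k) {ζ : ℂ} (hζ : IsPrimitiveRoot ζ k) : ‖ζ‖ = 1 :=
  Complex.norm_eq_one_of_pow_eq_one hζ.pow_eq_one hk.ne'

theorem CyA_map {K : Type} [Field K] (φ : K →+* ℂ) (x : K) (β : ℤ[X]) :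
    φ (aeval x β) = aeval (φ x) β := by
  have := Polynomial.aeval_algHom_apply (φ.toIntAlgHom) x β
  simpa using this.symm

theorem CyA_gen {K : Type} [Field K] [NumberField K] {k : ℕ} (hk : 0 < k) (β : ℤ[X])
    (h : ∀ ζ : ℂ, IsPrimitiveRoot ζ k → ‖aeval ζ β‖ < 1) {ζ₀ : K} (h0 : IsPrimitiveRoot ζ₀ k) :
    aeval ζ₀ β = 0 := by
  have hφ : ∀ φ : K →+* ℂ, ‖φ (aeval ζ₀ β)‖ < 1 := fun φ => by
    rw [CyA_map]
    exact h _ (h0.map_of_injective φ.injective)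
  have hi : IsIntegral ℤ (aeval ζ₀ β) := by
    have h1 : IsIntegral ℤ ζ₀ := h0.isIntegral hk
    have h2 : aeval ζ₀ β ∈ Algebra.adjoin ℤ {ζ₀} := Polynomial.aeval_mem_adjoin_singleton ℤ ζ₀
    exact adjoin_le_integralClosure h1 h2
  by_contra hne
  obtain ⟨j, hj, hj1⟩ := NumberField.Embeddings.pow_eq_one_of_norm_le_one K ℂ hne hi
    fun φ => (hφ φ).le
  let φ : K →+* ℂ := (IsAlgClosed.lift (R := ℚ) (S := K) (M := ℂ)).toRingHom
  have h3 : φ (aeval ζ₀ β) ^ j = 1 := by rw [← map_pow, hj1, map_one]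
  have h4 := Complex.norm_eq_one_of_pow_eq_one h3 hj.ne'
  exact (hφ φ).ne h4

/-- Put `K = CyclotomicField k ℚ`, `ζ₀ = IsCyclotomicExtension.zeta k ℚ K`, `x = aeval ζ₀ β`
(integral over `ℤ`). Every `φ : K →+* ℂ` sends `ζ₀` to a primitive root
(`IsPrimitiveRoot.map_of_injective`) and `φ x = aeval (φ ζ₀) β`, so `‖φ x‖ < 1`. If `x ≠ 0` then
`x ^ j = 1` (`NumberField.Embeddings.pow_eq_one_of_norm_le_one`), so `‖φ x‖ ^ j = 1`. Hence `x = 0`,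
`cyclotomic k ℤ = minpoly ℤ ζ₀` divides `β` (`minpoly.isIntegrallyClosed_dvd`,
`cyclotomic_eq_minpoly`), and it vanishes at `ζ` (`IsPrimitiveRoot.isRoot_cyclotomic`). -/
theorem small_zero {k : ℕ} (hk : 0 < k) (β : ℤ[X])
    (h : ∀ ζ : ℂ, IsPrimitiveRoot ζ k → ‖aeval ζ β‖ < 1) {ζ : ℂ} (hζ : IsPrimitiveRoot ζ k) :
    aeval ζ β = 0 := by
  have : NeZero k := ⟨hk.ne'⟩
  obtain ⟨ζ₀, h0⟩ : ∃ ζ₀ : CyclotomicField k ℚ, IsPrimitiveRoot ζ₀ k :=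
    (CyclotomicField.isCyclotomicExtension k ℚ).exists_isPrimitiveRoot (Set.mem_singleton k) hk.ne'
  have hx := CyA_gen hk β h h0
  obtain ⟨γ, hγ⟩ := CyA_dvd hk β h0 hx
  rw [hγ, map_mul, CyA_root hk hζ, zero_mul]

/-- `X - C T ∣ p - C (p.eval T)` (`X_sub_C_dvd_sub_C_eval`) for `p = α` and `p = Φ`, and
`α.eval T = Φ.eval T * w`: `α = (X - C T) * β + C w * Φ`. At a primitive root
`‖α ζ‖ = ‖ζ - T‖ ‖β ζ‖ ≥ (T - 1) ‖β ζ‖`; `small_zero`. -/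
theorem lemG {k : ℕ} (hk : 0 < k) {T : ℤ} (α : ℤ[X]) (hd : (cyclotomic k ℤ).eval T ∣ α.eval T)
    (h : ∀ ζ : ℂ, IsPrimitiveRoot ζ k → ‖aeval ζ α‖ < (T : ℝ) - 1) {ζ : ℂ}
    (hζ : IsPrimitiveRoot ζ k) : aeval ζ α = 0 := by
  obtain ⟨w, hw⟩ := hd
  obtain ⟨β₁, h1⟩ := X_sub_C_dvd_sub_C_eval (p := α) (a := T)
  obtain ⟨β₂, h2⟩ := X_sub_C_dvd_sub_C_eval (p := cyclotomic k ℤ) (a := T)
  have hα : α = (X - C T) * (β₁ - C w * β₂) + C w * cyclotomic k ℤ := by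
    have h3 : α = (X - C T) * β₁ + C ((cyclotomic k ℤ).eval T) * C w := by
      rw [← h1, ← C_mul, ← hw]; ring
    have h4 : C ((cyclotomic k ℤ).eval T) = cyclotomic k ℤ - (X - C T) * β₂ := by
      rw [← h2]; ring
    rw [h4] at h3
    rw [h3]; ring
  have key : ∀ ξ : ℂ, IsPrimitiveRoot ξ k →
      aeval ξ α = (ξ - (T : ℂ)) * aeval ξ (β₁ - C w * β₂) := fun ξ hξ => by
    conv_lhs => rw [hα]
    rw [map_add, map_mul, map_mul, CyA_root hk hξ, mul_zero, add_zero, map_sub, aeval_X, aeval_C]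
    simp
  have hz : aeval ζ (β₁ - C w * β₂) = 0 := by
    refine small_zero hk _ (fun ξ hξ => ?_) hζ
    have h5 := h ξ hξ
    rw [key ξ hξ, norm_mul] at h5
    have h6 : (T : ℝ) - 1 ≤ ‖ξ - (T : ℂ)‖ := by
      have h7 := norm_sub_norm_le (T : ℂ) ξ
      rw [CyA_norm hk hξ, Complex.norm_intCast, norm_sub_rev] at h7
      linarith [le_abs_self (T : ℝ)]
    by_contra hge
    have hge := not_lt.1 hge
    have h8 := norm_nonneg (ξ - (T : ℂ))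
    nlinarith
  rw [key ζ hζ, hz, mul_zero]

/-- The cyclotomic polynomial is the minimal polynomial over `ℤ`; `eval_dvd`. -/
theorem lemG_conv {k : ℕ} (hk : 0 < k) (α : ℤ[X]) {ζ : ℂ} (hζ : IsPrimitiveRoot ζ k)
    (h : aeval ζ α = 0) (T : ℤ) : (cyclotomic k ℤ).eval T ∣ α.eval T := by
  exact eval_dvd (CyA_dvd hk α hζ h)

/-- `‖ζ‖ = 1` (`IsPrimitiveRoot.norm'_eq_one` or `Complex.norm_eq_one_of_pow_eq_one`). -/
theorem norm_ES {ι : Type} {k : ℕ} (hk : 0 < k) (c : ι → ℤ) (r t : ι → ℕ) (A : Finset ι) {ζ : ℂ}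
    (hζ : IsPrimitiveRoot ζ k) {R : ℕ} (hR : ∀ i ∈ A, r i ≤ R) :
    ‖ES c r t A ζ‖ ≤ (∑ i ∈ A, |c i| : ℤ) * 2 ^ R := by
  unfold ES
  refine (norm_sum_le _ _).trans ?_
  push_cast
  rw [Finset.sum_mul]
  refine Finset.sum_le_sum fun i hi => ?_
  rw [norm_mul, norm_mul, norm_pow, norm_pow, CyA_norm hk hζ, one_pow, mul_one,
    Complex.norm_intCast, Complex.norm_two]
  exact mul_le_mul_of_nonneg_left (pow_le_pow_right₀ one_le_two (hR i hi)) (abs_nonneg _)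

/-- `ES c r t S ζ = -2 ^ R * aeval ζ β` with `β = ∑ i ∈ A \ S, C (c i * 2 ^ (r i - R)) * X ^ t i`;
`small_zero`. -/
theorem Van.low {ι : Type} [DecidableEq ι] {k : ℕ} (hk : 0 < k) {c : ι → ℤ} {r t : ι → ℕ}
    {A S : Finset ι} (h : Van k c r t A) (hS : S ⊆ A) {R : ℕ} (hR : ∀ i ∈ A \ S, R ≤ r i)
    (hs : ∀ ζ : ℂ, IsPrimitiveRoot ζ k → ‖ES c r t S ζ‖ < 2 ^ R) : Van k c r t S := by
  have key : ∀ ξ : ℂ, IsPrimitiveRoot ξ k → ES c r t S ξ =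
      -(2 ^ R * aeval ξ (∑ i ∈ A \ S, C (c i * 2 ^ (r i - R)) * X ^ t i : ℤ[X])) := fun ξ hξ => by
    have h1 := h ξ hξ
    unfold ES at h1 ⊢
    rw [← Finset.sum_sdiff hS] at h1
    rw [eq_neg_iff_add_eq_zero, add_comm, ← h1, map_sum, Finset.mul_sum, add_left_inj]
    refine Finset.sum_congr rfl fun i hi => ?_
    have h2 : (2 : ℂ) ^ r i = 2 ^ R * 2 ^ (r i - R) := by
      rw [← pow_add, Nat.add_sub_cancel' (hR i hi)]
    rw [h2]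
    rw [map_mul, aeval_C, map_pow, aeval_X, algebraMap_int_eq, eq_intCast]
    push_cast
    ring
  intro ζ hζ
  rw [key ζ hζ, small_zero hk _ (fun ξ hξ => ?_) hζ, mul_zero, neg_zero]
  have h3 := hs ξ hξ
  rw [key ξ hξ, norm_neg, norm_mul, norm_pow, Complex.norm_two] at h3
  have h4 : (0 : ℝ) < 2 ^ R := by positivity
  nlinarith

end Pool.Agent.Lib.MP_a01f70_lc.GA
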