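import Pool.Agent.Lib.MP_a01f70_lc.GA.CyA

/-! Separated groups of terms vanish separately; the cut. -/

set_option autoImplicit false
set_option linter.unusedSectionVars false

noncomputable section

namespace Pool.Agent.Lib.MP_a01f70_lc.GA

open Finset Polynomial BA
open scoped ComplexConjugate

variable {N n : ℕ} [NeZero N] [NeZero n]

theorem CyB_add {ι : Type} [DecidableEq ι] (c : ι → ℤ) (r t : ι → ℕ) {S A : Finset ι} (h : S ⊆ A)
    (ζ : ℂ) : ES c r t (A \ S) ζ + ES c r t S ζ = ES c r t A ζ := sum_sdiff h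

/-- Strong induction on `U` (for all `A ⊆ U`; the claim for `A` and for `U \ A` are equivalent).
Let `i₀` minimize `r` on `U`; by symmetry `i₀ ∈ A`. If `U \ A = ∅` there is nothing to prove. Else
let `R` be the least value of `r` on `U \ A` and `S = A.filter (r · < R)`, which contains `i₀` (as
`1 ≤ L` unless all `c i` vanish on `U`). On `S`, `r i + L ≤ R`; so `norm_ES` and `Van.low` give
`Van S`; remove `S` from `U` and `A`. -/
theorem Van.split {ι : Type} [DecidableEq ι] {k : ℕ} (hk : 0 < k) {c : ι → ℤ} {r t : ι → ℕ}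
    {L : ℕ} {U A : Finset ι} (h : Van k c r t U) (hA : A ⊆ U) (hc : ∑ i ∈ U, |c i| < 2 ^ L)
    (hs : ∀ i ∈ A, ∀ j ∈ U \ A, r i + L ≤ r j ∨ r j + L ≤ r i) : Van k c r t A := by
  rcases Nat.eq_zero_or_pos L with rfl | hL
  · refine fun ζ _ => sum_eq_zero fun i hi => ?_
    have h1 := single_le_sum (fun j (_ : j ∈ U) => abs_nonneg (c j)) (hA hi)
    have h2 : c i = 0 := abs_nonpos_iff.1 (by rw [pow_zero] at hc; omega)
    rw [h2, Int.cast_zero, zero_mul, zero_mul]
  induction U using Finset.strongInduction generalizing A with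
  | H U ih =>
  have key : ∀ A ⊆ U, (∀ i ∈ A, ∀ j ∈ U \ A, r i + L ≤ r j ∨ r j + L ≤ r i) →
      ∀ i₀ ∈ A, (∀ j ∈ U, r i₀ ≤ r j) → Van k c r t A := by
    intro A hA hs i₀ hi₀ hmin
    rcases (U \ A).eq_empty_or_nonempty with h0 | h0
    · rwa [hA.antisymm (sdiff_eq_empty_iff_subset.1 h0)]
    obtain ⟨j₀, hj₀, hj⟩ := exists_min_image _ r h0
    have hS : ∀ i ∈ A.filter (r · < r j₀), r i + L ≤ r j₀ := fun i hi => by
      have h1 := hs i (mem_filter.1 hi).1 j₀ hj₀
      have h2 := (mem_filter.1 hi).2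
      omega
    have hi : i₀ ∈ A.filter (r · < r j₀) := mem_filter.2 ⟨hi₀, by
      have h1 := hs i₀ hi₀ j₀ hj₀
      have h2 := hmin j₀ (mem_sdiff.1 hj₀).1
      omega⟩
    have hSA : A.filter (r · < r j₀) ⊆ A := filter_subset _ _
    have hv : Van k c r t (A.filter (r · < r j₀)) := by
      refine h.low hk (hSA.trans hA) (R := r j₀) (fun i hi => ?_) fun ζ hζ => ?_
      · by_cases hiA : i ∈ A
        · exact not_lt.1 fun h1 => (mem_sdiff.1 hi).2 (mem_filter.2 ⟨hiA, h1⟩)
        · exact hj i (mem_sdiff.2 ⟨(mem_sdiff.1 hi).1, hiA⟩)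
      · have h1 := hS i₀ hi
        refine (norm_ES hk c r t _ hζ (R := r j₀ - L) fun i hi =>
          Nat.le_sub_of_add_le (hS i hi)).trans_lt ?_
        have h2 := (sum_le_sum_of_subset_of_nonneg (hSA.trans hA)
          fun i _ _ => abs_nonneg (c i)).trans_lt hc
        have h3 : ((∑ i ∈ A.filter (r · < r j₀), |c i| : ℤ) : ℝ) < 2 ^ L := by exact_mod_cast h2
        rw [show (2 : ℝ) ^ r j₀ = 2 ^ L * 2 ^ (r j₀ - L) by
          rw [← pow_add, Nat.add_sub_cancel' (by omega)]]
        exact mul_lt_mul_of_pos_right h3 (by positivity)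
    have h1 := ih (U \ A.filter (r · < r j₀)) (sdiff_ssubset (hSA.trans hA) ⟨i₀, hi⟩)
      (A := A \ A.filter (r · < r j₀))
      (fun ζ hζ => by simpa only [hv ζ hζ, h ζ hζ, add_zero] using CyB_add c r t (hSA.trans hA) ζ)
      (sdiff_subset_sdiff hA Subset.rfl)
      ((sum_le_sum_of_subset_of_nonneg sdiff_subset fun i _ _ => abs_nonneg (c i)).trans_lt hc)
      fun i hi j hj => hs i (mem_sdiff.1 hi).1 j (by
        simp only [mem_sdiff] at hj ⊢
        tauto)
    intro ζ hζ
    rw [← CyB_add c r t hSA, h1 ζ hζ, hv ζ hζ, add_zero]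
  rcases U.eq_empty_or_nonempty with rfl | hU
  · rwa [subset_empty.1 hA]
  obtain ⟨i₀, hi₀, hmin⟩ := exists_min_image _ r hU
  by_cases hi : i₀ ∈ A
  · exact key A hA hs i₀ hi hmin
  have h1 := key (U \ A) sdiff_subset (fun i hi j hj => (hs j (by
    simp only [mem_sdiff] at hj
    tauto) i hi).symm) i₀ (mem_sdiff.2 ⟨hi₀, hi⟩) hmin
  intro ζ hζ
  simpa only [h1 ζ hζ, h ζ hζ, zero_add] using CyB_add c r t hA ζ

/-- For each `i` at most `L` values `p ∈ range m` have `m < (e i - p).val % m + L`: such a `p` is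
determined by the residue `(e i - p).val % m` (use `m ∣ n`, `ZMod.castHom`). Take `p` outside all
these sets, `r i = (e i - p).val % m`, `t i = (e i - p).val / m`. -/
theorem cut {m c L : ℕ} (hn : n = c * m) {ι : Type} [Fintype ι] (e : ι → ZMod n)
    (hL : Fintype.card ι * L < m) : ∃ (p : ZMod n) (r t : ι → ℕ),
      ∀ i, e i = p + ((r i + m * t i : ℕ) : ZMod n) ∧ r i + L ≤ m := by
  have hm : 0 < m := by omega
  have hd : m ∣ n := ⟨c, by rw [hn, mul_comm]⟩
  have h1 : ∀ i, ((range m).filter fun p : ℕ => m < (e i - p).val % m + L).card ≤ L := by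
    intro i
    refine (card_le_card_of_injOn (t := Ico (m - L) m) (fun p : ℕ => (e i - p).val % m)
      (fun p hp => ?_) fun p hp p' hp' he => ?_).trans (by rw [Nat.card_Ico]; omega)
    · have h2 := (mem_filter.1 (mem_coe.1 hp)).2
      exact mem_coe.2 (mem_Ico.2 ⟨by simp only; omega, Nat.mod_lt _ hm⟩)
    · have h2 := (ZMod.natCast_eq_natCast_iff' _ _ m).2 he
      rw [ZMod.natCast_val, ZMod.natCast_val, ← ZMod.castHom_apply (h := hd),
        ← ZMod.castHom_apply (h := hd), map_sub, map_sub, map_natCast, map_natCast,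
        sub_right_inj, ZMod.natCast_eq_natCast_iff',
        Nat.mod_eq_of_lt (mem_range.1 (mem_filter.1 (mem_coe.1 hp)).1),
        Nat.mod_eq_of_lt (mem_range.1 (mem_filter.1 (mem_coe.1 hp')).1)] at h2
      exact h2
  obtain ⟨p, hp, h2⟩ := exists_mem_notMem_of_card_lt_card (t := range m)
    (s := univ.biUnion fun i => (range m).filter fun p : ℕ => m < (e i - p).val % m + L)
    ((card_biUnion_le_card_mul _ _ _ fun i _ => h1 i).trans_lt (by rwa [card_range]))
  refine ⟨p, fun i => (e i - p).val % m, fun i => (e i - p).val / m, fun i => ⟨?_, ?_⟩⟩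
  · rw [Nat.mod_add_div, ZMod.natCast_zmod_val, add_sub_cancel]
  · exact not_lt.1 fun h3 => h2 (mem_biUnion.2 ⟨i, mem_univ _, mem_filter.2 ⟨hp, h3⟩⟩)

end Pool.Agent.Lib.MP_a01f70_lc.GA
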