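import Pool.Agent.Lib.MP_a01f70_lc.GA.CyB

/-! Transfer between the ideal and the roots of unity. -/

set_option autoImplicit false
set_option linter.unusedSectionVars false

noncomputable section

namespace Pool.Agent.Lib.MP_a01f70_lc.GA

open Finset Polynomial BA
open scoped ComplexConjugate

variable {N n : ℕ} [NeZero N] [NeZero n]

theorem CyC_pos {m c k : ℕ} (hn : n = c * m) (hk : k ∣ c) : 0 < k := by
  refine Nat.pos_of_dvd_of_pos hk (Nat.pos_of_ne_zero fun h => NeZero.ne n ?_)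
  rw [hn, h, zero_mul]

/-- `cyclotomic k ℤ ∣ X ^ k - 1 ∣ X ^ c - 1`, evaluate at `2 ^ m`: the value divides
`2 ^ n - 1 = N`. So `(x : ZMod N) = g * w` lifts to `g ∣ x` (`Ideal.mem_span_singleton`,
`ZMod.intCast_surjective`, `ZMod.intCast_eq_intCast_iff_dvd_sub`). -/
theorem mem_GG (hN : N + 1 = 2 ^ n) {m c k : ℕ} (hn : n = c * m) (hk : k ∣ c) (x : ℤ) :
    (x : ZMod N) ∈ GG N k m ↔ (cyclotomic k ℤ).eval (2 ^ m) ∣ x := by
  have h1 : (cyclotomic k ℤ).eval (2 ^ m) ∣ (N : ℤ) := by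
    obtain ⟨j, rfl⟩ := hk
    have h2 := eval_dvd (x := (2 : ℤ) ^ m) (cyclotomic.dvd_X_pow_sub_one k ℤ)
    have h3 : (N : ℤ) = ((2 ^ m) ^ k) ^ j - 1 := by
      have h4 : (N : ℤ) + 1 = 2 ^ n := by exact_mod_cast hN
      rw [← pow_mul, ← pow_mul, mul_comm m, ← hn, ← h4, add_sub_cancel_right]
    rw [h3]
    simp only [eval_sub, eval_pow, eval_X, eval_one] at h2
    exact h2.trans (sub_one_dvd_pow_sub_one _ j)
  rw [GG, Ideal.mem_span_singleton]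
  refine ⟨fun ⟨w, hw⟩ => ?_, fun h => Int.cast_dvd_cast _ _ h⟩
  obtain ⟨w, rfl⟩ := ZMod.intCast_surjective w
  rw [← Int.cast_mul, ZMod.intCast_eq_intCast_iff_dvd_sub] at hw
  simpa using (dvd_mul_right _ w).sub (h1.trans hw)

/-- `α = ∑ i ∈ A, C (a i * 2 ^ r i) * X ^ t i`, `aeval ζ α = ES a r t A ζ`, and the sum is
`pw p * (α.eval (2 ^ m) : ℤ)` (`pw_add`, `pw_nat`); `pw p` is a unit (`pw_neg_mul`). Forward:
`mem_GG`, `lemG` with `norm_ES` for `R = m - L`: an integer below `2 ^ (L - 1)` times `2 ^ (m - L)`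
is at most `2 ^ (m - 1) - 2 ^ (m - L) < 2 ^ m - 1`. Backward: `lemG_conv` at
`Complex.isPrimitiveRoot_exp`. -/
theorem transfer (hN : N + 1 = 2 ^ n) {m c k L : ℕ} (hn : n = c * m) (hk : k ∣ c) {ι : Type}
    (a : ι → ℤ) (e : ι → ZMod n) (A : Finset ι) (p : ZMod n) (r t : ι → ℕ)
    (he : ∀ i ∈ A, e i = p + ((r i + m * t i : ℕ) : ZMod n) ∧ r i + L ≤ m) (hL : 1 ≤ L)
    (hm : L ≤ m) (ha : ∑ i ∈ A, |a i| < 2 ^ (L - 1)) :
    ∑ i ∈ A, (a i : ZMod N) * pw N (e i) ∈ GG N k m ↔ Van k a r t A := by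
  have hk0 : 0 < k := CyC_pos hn hk
  let α : ℤ[X] := ∑ i ∈ A, C (a i * 2 ^ r i) * X ^ t i
  have h1 : ∀ ζ : ℂ, aeval ζ α = ES a r t A ζ := fun ζ => by
    simp [α, ES, map_sum, map_ofNat]
  have h2 : ∑ i ∈ A, (a i : ZMod N) * pw N (e i) = pw N p * ((α.eval (2 ^ m) : ℤ) : ZMod N) := by
    simp only [α, eval_finsetSum, eval_mul, eval_C, eval_pow, eval_X, Int.cast_sum, mul_sum]
    refine sum_congr rfl fun i hi => ?_
    rw [(he i hi).1, pw_add hN, pw_nat hN, pow_add, pow_mul]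
    push_cast
    ring
  rw [h2, Ideal.unit_mul_mem_iff_mem _ (IsUnit.of_mul_eq_one_right _ (pw_neg_mul hN p)),
    mem_GG hN hn hk]
  refine ⟨fun h ζ hζ => ?_, fun h => lemG_conv hk0 α (Complex.isPrimitiveRoot_exp k hk0.ne')
    ((h1 _).trans (h _ (Complex.isPrimitiveRoot_exp k hk0.ne'))) _⟩
  rw [← h1]
  refine lemG hk0 α h (fun ξ hξ => ?_) hζ
  rw [h1]
  refine (norm_ES hk0 a r t A hξ (R := m - L) fun i hi =>
    Nat.le_sub_of_add_le (he i hi).2).trans_lt ?_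
  have h3 : (∑ i ∈ A, |a i|) * 2 ^ (m - L) < 2 ^ m - 1 := by
    obtain ⟨u, rfl⟩ := Nat.exists_eq_add_of_le hm
    obtain ⟨v, rfl⟩ := Nat.exists_eq_add_of_le hL
    rw [Nat.add_sub_cancel_left] at ha ⊢
    have h4 : (1 : ℤ) ≤ 2 ^ u := one_le_pow₀ one_le_two
    have h5 : (1 : ℤ) ≤ 2 ^ v := one_le_pow₀ one_le_two
    rw [pow_add, pow_add, pow_one]
    nlinarith [mul_le_mul_of_nonneg_right (Int.add_one_le_of_lt ha) (zero_le_one.trans h4)]
  exact_mod_cast h3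

/-- `cut` with `L = 4`, `transfer` in both directions, `Van.split` with `L = 4`: if
`|r i - r j| < 4` then `Nr m 4 (e i - e j)` with `z = r i - r j`, `t = t i - t j`. -/
theorem split_GG (hN : N + 1 = 2 ^ n) {m c k : ℕ} (hn : n = c * m) (hk : k ∣ c) (hm : 24 < m)
    {ι : Type} [Fintype ι] (hι : Fintype.card ι ≤ 6) (a : ι → ℤ) (ha : ∀ i, |a i| ≤ 1)
    (e : ι → ZMod n) (A : Finset ι) (hA : ∀ i ∈ A, ∀ j ∉ A, ¬Nr m 4 (e i - e j))
    (h : ∑ i, (a i : ZMod N) * pw N (e i) ∈ GG N k m) :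
    ∑ i ∈ A, (a i : ZMod N) * pw N (e i) ∈ GG N k m := by
  classical
  obtain ⟨p, r, t, he⟩ := cut (L := 4) hn e (by omega)
  have hs : ∀ B : Finset ι, ∑ i ∈ B, |a i| < 2 ^ (4 - 1) := fun B => by
    have h1 := sum_le_card_nsmul B (fun i => |a i|) 1 fun i _ => ha i
    have h2 : (B.card : ℤ) ≤ 6 := by exact_mod_cast (card_le_univ B).trans hι
    rw [nsmul_eq_mul, mul_one] at h1
    norm_num
    omega
  rw [transfer hN hn hk a e _ p r t (fun i _ => he i) (by norm_num) (by omega) (hs _)] at h ⊢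
  refine h.split (L := 4) (CyC_pos hn hk) (subset_univ A) ((hs _).trans (by norm_num))
    fun i hi j hj => ?_
  by_contra hn'
  refine hA i hi j (mem_sdiff.1 hj).2 ⟨(r i : ℤ) - r j, (t i : ℤ) - t j, ?_, ?_⟩
  · rw [abs_lt]
    omega
  · rw [(he i).1, (he j).1]
    push_cast
    ring

end Pool.Agent.Lib.MP_a01f70_lc.GA
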