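import Pool.Agent.Lib.MP_a01f70_lc.GA.CyC

/-! One and two terms. -/

set_option autoImplicit false
set_option linter.unusedSectionVars false

noncomputable section

namespace Pool.Agent.Lib.MP_a01f70_lc.GA

open Finset Polynomial BA
open scoped ComplexConjugate

variable {N n : ℕ} [NeZero N] [NeZero n]

variable {m c k E : ℕ}

theorem cyD_two (hN : N + 1 = 2 ^ n) (hn : n = c * m) (hk : k ∣ c) (hm : 2 * (E + 2) < m)
    (a b : ℤ) (e f : ZMod n) (ha : |a| < 2 ^ E) (hb : |b| ≤ 2 ^ E)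
    (h : (a : ZMod N) * pw N e + (b : ZMod N) * pw N f ∈ GG N k m) :
    ∃ (ζ : ℂ) (r₀ r₁ t₀ t₁ : ℕ), ζ ^ k = 1 ∧ ‖ζ‖ = 1 ∧
      e - f = ((r₀ + m * t₀ : ℕ) : ZMod n) - ((r₁ + m * t₁ : ℕ) : ZMod n) ∧
      (a : ℂ) * 2 ^ r₀ * ζ ^ t₀ + (b : ℂ) * 2 ^ r₁ * ζ ^ t₁ = 0 := by
  have hk0 : k ≠ 0 := by
    rintro rfl
    rw [zero_dvd_iff.1 hk, zero_mul] at hn
    exact NeZero.ne n hn
  obtain ⟨p, r, t, he⟩ := cut (L := E + 2) hn ![e, f] (by simpa using hm)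
  have h1 := (transfer (L := E + 2) hN hn hk ![a, b] ![e, f] univ p r t (fun i _ => he i)
    (by omega) (by omega) (by
      rw [Fin.sum_univ_two, show E + 2 - 1 = E + 1 by omega, pow_succ]
      simp only [Matrix.cons_val_zero, Matrix.cons_val_one]
      linarith)).1 (by simpa [Fin.sum_univ_two] using h)
  have hζ := Complex.isPrimitiveRoot_exp k hk0
  refine ⟨_, r 0, r 1, t 0, t 1, hζ.pow_eq_one,
    Complex.norm_eq_one_of_pow_eq_one hζ.pow_eq_one hk0, ?_, ?_⟩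
  · have e0 := (he 0).1
    have e1 := (he 1).1
    simp only [Matrix.cons_val_zero, Matrix.cons_val_one] at e0 e1
    rw [e0, e1]
    ring
  · simpa [ES, Fin.sum_univ_two] using h1 _ hζ

theorem cyD_sp (s : Bool × ZMod n) :
    sp N s = (((if s.1 then 1 else -1 : ℤ)) : ZMod N) * pw N s.2 := by
  unfold sp
  split_ifs <;> simp

theorem cyD_abs (σ : Bool) : |(if σ then 1 else -1 : ℤ)| = 1 := by
  split_ifs <;> simp

theorem cyD_norm {ζ : ℂ} (hζ : ‖ζ‖ = 1) {a b : ℤ} {r₀ r₁ t₀ t₁ : ℕ}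
    (h : (a : ℂ) * 2 ^ r₀ * ζ ^ t₀ + (b : ℂ) * 2 ^ r₁ * ζ ^ t₁ = 0) :
    |a| * 2 ^ r₀ = |b| * 2 ^ r₁ := by
  have h1 := congrArg norm (eq_neg_of_add_eq_zero_left h)
  simp only [norm_neg, norm_mul, norm_pow, hζ, one_pow, mul_one, Complex.norm_intCast,
    Complex.norm_ofNat] at h1
  exact_mod_cast h1

/-- `transfer` with `ι = Unit`, `e = 0`, `p = 0`, `r = t = 0`, `L = E + 1`; evaluate at
`Complex.isPrimitiveRoot_exp` (`k ≠ 0` since `k ∣ c`, `n = c * m ≠ 0`). -/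
theorem cy_int (hN : N + 1 = 2 ^ n) (hn : n = c * m) (hk : k ∣ c) (hm : 2 * (E + 2) < m) (z : ℤ)
    (hz : |z| < 2 ^ E) (h : (z : ZMod N) ∈ GG N k m) : z = 0 := by
  obtain ⟨ζ, r₀, r₁, t₀, t₁, -, h1, -, h2⟩ := cyD_two hN hn hk hm z 0 0 0 hz (by positivity)
    (by simpa [pw_zero] using h)
  simpa using cyD_norm h1 h2

/-- `cut` for `ι = Fin 2`, `L = E + 2`, `e = ![0, s.2]`, coefficients `![a, ±1]`, `transfer`:
`a 2 ^ r₀ ζ ^ t₀ ± 2 ^ r₁ ζ ^ t₁ = 0`; norms give `|a| 2 ^ r₀ = 2 ^ r₁`, so `|a|` divides a power of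
two (`Nat.dvd_prime_pow`). -/
theorem cy_two (hN : N + 1 = 2 ^ n) (hn : n = c * m) (hk : k ∣ c) (hm : 2 * (E + 2) < m) (a : ℤ)
    (s : Bool × ZMod n) (ha : |a| < 2 ^ E) (h : (a : ZMod N) + sp N s ∈ GG N k m) :
    ∃ v : ℕ, |a| = 2 ^ v := by
  obtain ⟨ζ, r₀, r₁, t₀, t₁, -, h1, -, h2⟩ := cyD_two hN hn hk hm a (if s.1 then 1 else -1) 0 s.2
    ha (by rw [cyD_abs]; exact one_le_pow₀ one_le_two) (by rwa [pw_zero, mul_one, ← cyD_sp])
  have h3 := cyD_norm h1 h2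
  rw [cyD_abs, one_mul, ← Int.natCast_natAbs] at h3
  have h4 : a.natAbs ∣ 2 ^ r₁ := Dvd.intro (2 ^ r₀) (by exact_mod_cast h3)
  obtain ⟨v, -, hv⟩ := (Nat.dvd_prime_pow Nat.prime_two).1 h4
  exact ⟨v, by rw [← Int.natCast_natAbs, hv]; push_cast; rfl⟩

/-- `cut` for `ι = Fin 2`, `L = E + 2`, `e = ![s.2, s'.2]`, coefficients `± z`, `transfer`; cancel
`z`; norms give `r₀ = r₁`, so `s.2 - s'.2 = m (t₀ - t₁)`. If the signs differ then
`ζ ^ t₀ = -ζ ^ t₁`; raise to the odd power `k` (`Odd.of_dvd_nat`): `1 = -1`. -/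
theorem cy_pair (hN : N + 1 = 2 ^ n) (hn : n = c * m) (hc : Odd c) (hk : k ∣ c)
    (hm : 2 * (E + 2) < m) (z : ℤ) (s s' : Bool × ZMod n) (h0 : z ≠ 0) (hz : |z| < 2 ^ E)
    (h : (z : ZMod N) * (sp N s - sp N s') ∈ GG N k m) :
    s.1 = s'.1 ∧ (m : ZMod n) ∣ s.2 - s'.2 := by
  obtain ⟨ζ, r₀, r₁, t₀, t₁, h1, h2, h3, h4⟩ := cyD_two hN hn hk hm (z * if s.1 then 1 else -1)
    (-(z * if s'.1 then 1 else -1)) s.2 s'.2 (by rwa [abs_mul, cyD_abs, mul_one])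
    (by rw [abs_neg, abs_mul, cyD_abs, mul_one]; exact hz.le) (by
      rw [cyD_sp s, cyD_sp s'] at h
      convert h using 1
      rw [Int.cast_neg, Int.cast_mul, Int.cast_mul]
      ring)
  have h5 := cyD_norm h2 h4
  rw [abs_neg, abs_mul, abs_mul, cyD_abs, cyD_abs] at h5
  have h6 : r₀ = r₁ := pow_right_injective₀ (a := (2 : ℤ)) two_pos (by norm_num)
    (mul_left_cancel₀ (by simpa using h0) h5)
  subst h6
  refine ⟨?_, (t₀ : ZMod n) - t₁, by rw [h3]; push_cast; ring⟩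
  have h7 : ((if s.1 then 1 else -1 : ℤ) : ℂ) * ζ ^ t₀ =
      ((if s'.1 then 1 else -1 : ℤ) : ℂ) * ζ ^ t₁ := by
    have h8 : (z : ℂ) * 2 ^ r₀ ≠ 0 := mul_ne_zero (Int.cast_ne_zero.2 h0) (by simp)
    refine mul_left_cancel₀ h8 ?_
    rw [Int.cast_neg, Int.cast_mul, Int.cast_mul] at h4
    linear_combination h4
  have h9 := congrArg (· ^ k) h7
  have ho : Odd k := hc.of_dvd_nat hk
  simp only [mul_pow, ← pow_mul, mul_comm _ k] at h9
  simp only [pow_mul, h1, one_pow, mul_one] at h9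
  rcases hs : s.1 <;> rcases hs' : s'.1 <;> simp [hs, hs', ho.neg_one_pow] at h9 ⊢ <;>
    norm_num at h9

end Pool.Agent.Lib.MP_a01f70_lc.GA
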