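import Pool.Agent.Lib.MP_a01f70_lc.GA.CyC

/-! Four terms. -/

set_option autoImplicit false
set_option linter.unusedSectionVars false

noncomputable section

namespace Pool.Agent.Lib.MP_a01f70_lc.GA

open Finset Polynomial BA
open scoped ComplexConjugate

variable {N n : ℕ} [NeZero N] [NeZero n]

/-- Norms in the first identity give `|a - b| ≤ 1`. Squaring it and subtracting the second gives
`(a ^ 2 - a) x ^ 2 + (b ^ 2 - b) y ^ 2 + 2 a b x y = 0`, so `2 a b ≤ a ^ 2 - a + b ^ 2 - b`. -/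
theorem eq_two {a b : ℝ} (ha : 1 ≤ a) (hb : 1 ≤ b) {x y z : ℂ} (hx : ‖x‖ = 1) (hy : ‖y‖ = 1)
    (hz : ‖z‖ = 1) (h1 : z = a * x + b * y) (h2 : z ^ 2 = a * x ^ 2 + b * y ^ 2) : False := by
  have h3 : (2 * a * b : ℝ) * (x * y) = -((a ^ 2 - a : ℝ) * x ^ 2 + (b ^ 2 - b : ℝ) * y ^ 2) := by
    push_cast
    linear_combination h2 - (z + a * x + b * y) * h1
  have h4 := congrArg norm h3
  rw [norm_neg, norm_mul, norm_mul, hx, hy, Complex.norm_real,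
    Real.norm_of_nonneg (by positivity)] at h4
  have h5 := norm_add_le ((a ^ 2 - a : ℝ) * x ^ 2) ((b ^ 2 - b : ℝ) * y ^ 2)
  rw [← h4, norm_mul, norm_mul, norm_pow, norm_pow, hx, hy, Complex.norm_real, Complex.norm_real,
    Real.norm_of_nonneg (by nlinarith), Real.norm_of_nonneg (by nlinarith)] at h5
  have h6 := abs_norm_sub_norm_le ((a : ℂ) * x) (-(b * y))
  rw [sub_neg_eq_add, ← h1, hz, norm_neg, norm_mul, norm_mul, hx, hy, Complex.norm_real,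
    Complex.norm_real, Real.norm_of_nonneg (by linarith), Real.norm_of_nonneg (by linarith),
    ← sq_le_one_iff_abs_le_one] at h6
  nlinarith

/-- Squaring gives `x y = w (w + 2 z)`, so `‖w + 2 z‖ = 1`; with `‖w + 2 z‖ ^ 2 = 5 + 4 Re (w conj z)`
and `‖w + z‖ ^ 2 = 2 + 2 Re (w conj z)` one gets `w + z = 0`. -/
theorem eq_three {x y z w : ℂ} (hx : ‖x‖ = 1) (hy : ‖y‖ = 1) (hz : ‖z‖ = 1) (hw : ‖w‖ = 1)
    (h1 : x + y = 2 * w + z) (h2 : x ^ 2 + y ^ 2 = 2 * w ^ 2 + z ^ 2) : w = -z := by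
  have h3 : x * y = w * (w + 2 * z) := by linear_combination ((x + y + 2 * w + z) * h1 - h2) / 2
  have h4 := congrArg norm h3
  rw [norm_mul, norm_mul, hx, hy, hw, one_mul, one_mul] at h4
  have h5 : ∀ u : ℂ, ‖u‖ = 1 → u.re * u.re + u.im * u.im = 1 := fun u h => by
    rw [← Complex.normSq_apply, Complex.normSq_eq_norm_sq, h, one_pow]
  have a1 := h5 _ h4.symm
  have a2 := h5 _ hz
  have a3 := h5 _ hw
  simp only [Complex.add_re, Complex.add_im, Complex.mul_re, Complex.mul_im, Complex.re_ofNat,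
    Complex.im_ofNat, zero_mul, sub_zero, add_zero] at a1
  have a4 : (w.re + z.re) ^ 2 + (w.im + z.im) ^ 2 = 0 := by nlinarith
  apply Complex.ext <;> simp <;> nlinarith [sq_nonneg (w.re + z.re), sq_nonneg (w.im + z.im)]

theorem CyE_cases {a b c d : ℕ} (g2 : a ≠ c) (g3 : a ≠ d) (c0 : ¬(a < b ∧ a < c ∧ a < d))
    (c1 : ¬(b < a ∧ b < c ∧ b < d)) (c2 : ¬(c < a ∧ c < b ∧ c < d))
    (c3 : ¬(d < a ∧ d < b ∧ d < c)) (d1 : ¬(b = a ∧ a < c ∧ a < d))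
    (d2 : ¬(d = c ∧ c < a ∧ c < b)) (d3 : ¬(c = b ∧ b < a ∧ b < d))
    (d4 : ¬(d = b ∧ b < a ∧ b < c)) : c = b ∧ d = b ∧ b < a := by
  have h1 : b < a := by
    clear c1 d3 d4
    rcases lt_trichotomy c d with h | h | h <;> omega
  have h2 : c = b := by
    clear c0 d1
    rcases lt_trichotomy c d with h | h | h <;> omega
  clear c0 d1 c1 c2 d2 d4
  omega

/-- Suppose `r 0 ≠ r 2`, `r 0 ≠ r 3`; let `ρ` be the least level and `S` the set of indices at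
level `ρ`; `Van.low` with `R = ρ + 1` shows `Van S` as soon as `‖ES S ζ‖ < 2 ^ (ρ + 1)` for all
primitive `ζ`. Write `z i = ζ ^ t i`, of norm one and odd order, so `z i ≠ -z j`; `z i = z j` holds
for one primitive `ζ` iff for all (`IsPrimitiveRoot.pow_eq_one_iff_dvd`, or `pow_inj` modulo `k`).
`ζ ^ 2` is primitive too (`IsPrimitiveRoot.pow_of_coprime`), so the identity also holds with the
squares `z i ^ 2`.
`|S| = 1`: `‖ES S‖ = 2 ^ ρ`, not zero. `S = {1, 2}`: `‖z 1 - z 2‖ < 2`, so `z 1 = z 2`, cancel,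
`2 ^ r 0 = 2 ^ r 3`; same for `{1, 3}`. `S = {0, 1}`: if `z 0 ≠ z 1` then `‖z 0 + z 1‖ < 2`, so
`z 0 = -z 1`. Hence `z 0 = z 1 = z` and `2 z = a z 2 + b z 3`, `2 z ^ 2 = a z 2 ^ 2 + b z 3 ^ 2` with
`a, b ∈ {2, 4, ..}` (`eq_two` after division by two). `S = {2, 3}`: the same with `a = 2 ^ (r 0 - ρ)`, `b = 2 ^ (r 1 - ρ)`.
`S = {1, 2, 3}`: `z 2 + z 3 - z 1 = a z 0`, norm at most three, so `a = 2` (`eq_three`). -/
theorem van_four {k : ℕ} (hk : Odd k) (r t : Fin 4 → ℕ) (h : Van k ![1, 1, -1, -1] r t univ) :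
    r 0 = r 2 ∨ r 0 = r 3 := by
  have hk0 := hk.pos
  have n1 : ∀ ζ : ℂ, IsPrimitiveRoot ζ k → ∀ a : ℕ, ‖ζ ^ a‖ = 1 := fun ζ hζ a => by
    rw [norm_pow, hζ.norm'_eq_one hk0.ne', one_pow]
  have n2 : ∀ ζ : ℂ, IsPrimitiveRoot ζ k → ∀ a b : ℕ, ζ ^ a ≠ -ζ ^ b := fun ζ hζ a b e => by
    have := congrArg (· ^ k) e
    simp only [hk.neg_pow, pow_right_comm ζ _ k, hζ.pow_eq_one, one_pow] at this
    norm_num at this
  have n3 : ∀ ζ : ℂ, IsPrimitiveRoot ζ k → ∀ a b : ℕ, ζ ^ a = ζ ^ b ↔ (k : ℤ) ∣ a - b :=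
    fun ζ hζ a b => by
      rw [← hζ.zpow_eq_one_iff_dvd, zpow_sub₀ (hζ.ne_zero hk0.ne'), zpow_natCast, zpow_natCast,
        div_eq_one_iff_eq (pow_ne_zero _ (hζ.ne_zero hk0.ne'))]
  obtain ⟨c, hc⟩ : ∃ c : Fin 4 → ℤ, c = ![1, 1, -1, -1] := ⟨_, rfl⟩
  have hc' : ∀ i, (c i : ℂ) = 1 ∨ (c i : ℂ) = -1 := fun i => by fin_cases i <;> simp [hc]
  have hζ := Complex.isPrimitiveRoot_exp k hk0.ne'
  generalize Complex.exp _ = ζ at hζ
  have one : ∀ i, (∀ j, j ≠ i → r i < r j) → False := fun i hi => by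
    have a1 : ∀ ζ : ℂ, IsPrimitiveRoot ζ k → ‖ES c r t {i} ζ‖ = 2 ^ r i := fun ζ hζ => by
      rcases hc' i with e | e <;> simp [ES, e, hζ.norm'_eq_one hk0.ne']
    have := (hc ▸ h).low hk0 (subset_univ {i}) (R := r i + 1)
      (fun j hj => hi j (by simpa using hj))
      (fun ζ hζ => by rw [a1 ζ hζ]; exact pow_lt_pow_right₀ one_lt_two (Nat.lt_succ_self _)) ζ hζ
    have a2 := a1 ζ hζ
    rw [this, norm_zero] at a2
    exact absurd a2 (by positivity : (0 : ℝ) < _).ne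
  have two : ∀ i j, i ≠ j → r j = r i → (∀ l, l ≠ i → l ≠ j → r i < r l) →
      ∀ ζ : ℂ, IsPrimitiveRoot ζ k → ζ ^ t i = ζ ^ t j := fun i j hij e hi ζ hζ => by
    by_contra h0
    have a1 : ∀ ζ : ℂ, ES c r t {i, j} ζ = 2 ^ r i * (c i * ζ ^ t i + c j * ζ ^ t j) := fun ζ => by
      rw [ES, sum_pair hij, e]
      ring
    have a2 : ∀ ζ' : ℂ, IsPrimitiveRoot ζ' k → ∀ s : ℂ, s = 1 ∨ s = -1 →
        c i * ζ' ^ t i ≠ s * (c j * ζ' ^ t j) := fun ζ' hζ' s hs e' => by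
      have b1 : ζ' ^ t i ≠ ζ' ^ t j := fun b => h0 ((n3 ζ hζ _ _).2 ((n3 ζ' hζ' _ _).1 b))
      have b2 := n2 ζ' hζ' (t i) (t j)
      rcases hc' i with a | a <;> rcases hc' j with b | b <;> rcases hs with rfl | rfl <;>
        simp_all [neg_eq_iff_eq_neg]
    have := (hc ▸ h).low hk0 (subset_univ {i, j}) (R := r i + 1)
      (fun l hl => hi l (by simp at hl; exact hl.1) (by simp at hl; exact hl.2))
      (fun ζ hζ => by
        have b1 : ∀ l, ‖c l * ζ ^ t l‖ = 1 := fun l => by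
          rcases hc' l with e | e <;> simp [e, hζ.norm'_eq_one hk0.ne']
        have b2 := (norm_add_le _ _).lt_of_ne fun b => a2 ζ hζ 1 (.inl rfl)
          (by rw [one_mul]; exact eq_of_norm_eq_of_norm_add_eq ((b1 i).trans (b1 j).symm) b)
        rw [b1, b1] at b2
        rw [a1, norm_mul, norm_pow, Complex.norm_two, pow_succ]
        exact mul_lt_mul_of_pos_left (by linarith) (by positivity)) ζ hζ
    rw [a1, mul_eq_zero] at this
    exact a2 ζ hζ (-1) (.inr rfl) (by linear_combination this.resolve_left (pow_ne_zero _ two_ne_zero))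
  have H : ∀ ζ : ℂ, IsPrimitiveRoot ζ k → 2 ^ r 0 * ζ ^ t 0 + 2 ^ r 1 * ζ ^ t 1 =
      2 ^ r 2 * ζ ^ t 2 + 2 ^ r 3 * ζ ^ t 3 := fun ζ hζ => by
    have := h ζ hζ
    simp only [ES, Fin.sum_univ_four] at this
    simp at this
    linear_combination this
  have hζ2 := hζ.pow_of_coprime 2 (Nat.coprime_two_left.2 hk)
  have sq : ∀ a, (ζ ^ 2) ^ a = (ζ ^ a) ^ 2 := fun a => pow_right_comm _ _ _
  have canc : ∀ a b u v : ℕ, 2 ^ a * ζ ^ u = 2 ^ b * ζ ^ v → a = b := fun a b u v e => by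
    have := congrArg norm e
    rw [norm_mul, norm_mul, n1 ζ hζ, n1 ζ hζ, norm_pow, norm_pow, Complex.norm_two, mul_one,
      mul_one] at this
    exact pow_right_injective₀ two_pos (by norm_num) this
  have dbl : ∀ ρ a b u v w : ℕ, ρ < a → ρ < b → (∀ ζ : ℂ, IsPrimitiveRoot ζ k →
      2 ^ ρ * ζ ^ u + 2 ^ ρ * ζ ^ u = 2 ^ a * ζ ^ v + 2 ^ b * ζ ^ w) → False :=
    fun ρ a b u v w ha hb e => by
      obtain ⟨a, rfl⟩ := Nat.exists_eq_add_of_lt ha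
      obtain ⟨b, rfl⟩ := Nat.exists_eq_add_of_lt hb
      have e' : ∀ ζ : ℂ, IsPrimitiveRoot ζ k →
          ζ ^ u = (2 ^ a : ℝ) * ζ ^ v + (2 ^ b : ℝ) * ζ ^ w := fun ζ hζ =>
        mul_left_cancel₀ (pow_ne_zero (ρ + 1) two_ne_zero) (by
          push_cast
          linear_combination e ζ hζ)
      exact eq_two (one_le_pow₀ one_le_two) (one_le_pow₀ one_le_two) (n1 ζ hζ v) (n1 ζ hζ w)
        (n1 ζ hζ u) (e' ζ hζ) (by simpa only [sq] using e' _ hζ2)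
  by_contra hn
  push Not at hn
  obtain ⟨g2, g3⟩ := hn
  have all : ∀ p : Fin 4 → Prop, p 0 → p 1 → p 2 → p 3 → ∀ l, p l := fun p a b c d l => by
    fin_cases l <;> assumption
  by_cases c0 : r 0 < r 1 ∧ r 0 < r 2 ∧ r 0 < r 3
  · exact one 0 (all _ (by simp) (fun _ => c0.1) (fun _ => c0.2.1) fun _ => c0.2.2)
  by_cases c1 : r 1 < r 0 ∧ r 1 < r 2 ∧ r 1 < r 3
  · exact one 1 (all _ (fun _ => c1.1) (by simp) (fun _ => c1.2.1) fun _ => c1.2.2)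
  by_cases c2 : r 2 < r 0 ∧ r 2 < r 1 ∧ r 2 < r 3
  · exact one 2 (all _ (fun _ => c2.1) (fun _ => c2.2.1) (by simp) fun _ => c2.2.2)
  by_cases c3 : r 3 < r 0 ∧ r 3 < r 1 ∧ r 3 < r 2
  · exact one 3 (all _ (fun _ => c3.1) (fun _ => c3.2.1) (fun _ => c3.2.2) (by simp))
  by_cases d1 : r 1 = r 0 ∧ r 0 < r 2 ∧ r 0 < r 3
  · have := two 0 1 (by simp) d1.1 (all _ (by simp) (by simp) (fun _ _ => d1.2.1) fun _ _ => d1.2.2)
    exact dbl _ _ _ _ _ _ d1.2.1 d1.2.2 fun ζ hζ => by rw [← H ζ hζ, d1.1, ← this ζ hζ]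
  by_cases d2 : r 3 = r 2 ∧ r 2 < r 0 ∧ r 2 < r 1
  · have := two 2 3 (by simp) d2.1 (all _ (fun _ _ => d2.2.1) (fun _ _ => d2.2.2) (by simp) (by simp))
    exact dbl _ _ _ _ _ _ d2.2.1 d2.2.2 fun ζ hζ => by rw [H ζ hζ, d2.1, ← this ζ hζ]
  by_cases d3 : r 2 = r 1 ∧ r 1 < r 0 ∧ r 1 < r 3
  · have := two 1 2 (by simp) d3.1
      (all _ (fun _ _ => d3.2.1) (by simp) (by simp) fun _ _ => d3.2.2) ζ hζ
    exact g3 (canc _ _ (t 0) (t 3) (by linear_combination (norm := (rw [d3.1, this]; ring)) H ζ hζ))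
  by_cases d4 : r 3 = r 1 ∧ r 1 < r 0 ∧ r 1 < r 2
  · have := two 1 3 (by simp) d4.1
      (all _ (fun _ _ => d4.2.1) (by simp) (fun _ _ => d4.2.2) (by simp)) ζ hζ
    exact g2 (canc _ _ (t 0) (t 2) (by linear_combination (norm := (rw [d4.1, this]; ring)) H ζ hζ))
  obtain ⟨e2, e3, e4⟩ := CyE_cases g2 g3 c0 c1 c2 c3 d1 d2 d3 d4
  obtain ⟨a, e0⟩ := Nat.exists_eq_add_of_lt e4
  have e' : ∀ ζ : ℂ, IsPrimitiveRoot ζ k →
      ζ ^ t 2 + ζ ^ t 3 = 2 * 2 ^ a * ζ ^ t 0 + ζ ^ t 1 := fun ζ hζ =>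
    mul_left_cancel₀ (pow_ne_zero (r 1) two_ne_zero) (by
      have := H ζ hζ
      rw [e0, e2, e3] at this
      linear_combination -this)
  obtain rfl : a = 0 := by
    by_contra h0
    have b1 := (norm_sub_le (ζ ^ t 2 + ζ ^ t 3) (ζ ^ t 1)).trans
      (add_le_add (norm_add_le _ _) le_rfl)
    rw [e' ζ hζ, add_sub_cancel_right, norm_mul, norm_mul, n1 ζ hζ, n1 ζ hζ, n1 ζ hζ, n1 ζ hζ,
      norm_pow, Complex.norm_two] at b1
    linarith [le_self_pow₀ (one_le_two (α := ℝ)) h0]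
  exact n2 ζ hζ _ _ (eq_three (n1 ζ hζ _) (n1 ζ hζ _) (n1 ζ hζ _) (n1 ζ hζ _)
    (by simpa using e' ζ hζ) (by simpa [sq] using e' _ hζ2))

/-- `cut` for `ι = Fin 4`, `L = 4`, `e = ![a, b, a', b']`, `transfer`, `van_four`. -/
theorem cy_four (hN : N + 1 = 2 ^ n) {m c k : ℕ} (hn : n = c * m) (hc : Odd c) (hk : k ∣ c)
    (hm : 24 < m) (a b a' b' : ZMod n) (h : pw N a + pw N b - (pw N a' + pw N b') ∈ GG N k m) :
    (m : ZMod n) ∣ a - a' ∨ (m : ZMod n) ∣ a - b' := by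
  obtain ⟨p, r, t, he⟩ := cut (L := 4) hn ![a, b, a', b'] (by simp; omega)
  have := van_four (hc.of_dvd_nat hk) r t ((transfer hN hn hk ![1, 1, -1, -1] ![a, b, a', b'] univ p
    r t (fun i _ => he i) (by norm_num) (by omega) (by simp [Fin.sum_univ_four])).1 (by
      convert h using 1
      simp [Fin.sum_univ_four]
      ring))
  have h0 : a = _ := (he 0).1
  have h2 : a' = _ := (he 2).1
  have h3 : b' = _ := (he 3).1
  refine this.imp (fun e => ⟨t 0 - t 2, ?_⟩) fun e => ⟨t 0 - t 3, ?_⟩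
  · rw [h0, h2, e]
    push_cast
    ring
  · rw [h0, h3, e]
    push_cast
    ring

end Pool.Agent.Lib.MP_a01f70_lc.GA
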