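import Pool.Agent.Lib.MP_a01f70_lc.GA.CyD
import Pool.Agent.Lib.MP_a01f70_lc.GA.CyE

/-! The properties of the cyclotomic ideal. -/

set_option autoImplicit false
set_option linter.unusedSectionVars false

noncomputable section

namespace Pool.Agent.Lib.MP_a01f70_lc.GA

open Finset Polynomial BA
open scoped ComplexConjugate

variable {N n : ℕ} [NeZero N] [NeZero n]

variable {m c k E : ℕ}

/-- The sign as an integer. -/
def cyfSg (b : Bool) : ℤ := if b then 1 else -1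

theorem cyf_abs (b : Bool) : |cyfSg b| = 1 := by
  cases b <;> simp [cyfSg]

theorem cyf_sp (s : Bool × ZMod n) : sp N s = (cyfSg s.1 : ZMod N) * pw N s.2 := by
  obtain ⟨_ | _, i⟩ := s <;> simp [sp, cyfSg]

theorem cyf_unit (hN : N + 1 = 2 ^ n) {G : Ideal (ZMod N)} {x : ZMod N} {j : ZMod n}
    (h : x * pw N j ∈ G) : x ∈ G := by
  have h1 := G.mul_mem_left (pw N (-j)) h
  rwa [mul_left_comm, pw_neg_mul hN, mul_one] at h1

/-- `split_GG` for `ι = Fin 4`, positions `![s.2, t.2, s'.2, t'.2]`, coefficients `± 1`. Suppose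
`s'.2` is `8`-far from `s.2` and `t.2`. If `Nr m 4 (s'.2 - t'.2)` then `t'.2` is `4`-far from both
(`Nr.add`, `Nr.neg`), `A = {2, 3}` gives `-(sp s' + sp t') ∈ G`. Else `A = {2}` gives
`± pw s'.2 ∈ G`, a unit (`pw_neg_mul`), so `1 ∈ G`, against `cy_int` (`E = 1`). -/
theorem cy_near (hN : N + 1 = 2 ^ n) (hn : n = c * m) (hk : k ∣ c) (hm : 24 < m)
    (s t s' t' : Bool × ZMod n) (h : sp N s + sp N t - (sp N s' + sp N t') ∈ GG N k m)
    (h' : sp N s' + sp N t' ∉ GG N k m) : Nr m 8 (s'.2 - s.2) ∨ Nr m 8 (s'.2 - t.2) := by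
  by_contra hc
  obtain ⟨h1, h2⟩ := not_or.1 hc
  have ha : ∀ i, |(![cyfSg s.1, cyfSg t.1, -cyfSg s'.1, -cyfSg t'.1] : Fin 4 → ℤ) i| ≤ 1 := by
    intro i
    fin_cases i <;> simp [cyf_abs]
  have hs := fun A hA => split_GG hN hn hk hm (ι := Fin 4) (by simp) _ ha
    ![s.2, t.2, s'.2, t'.2] A hA (by
      convert h using 1
      simp only [cyf_sp]
      simp [Fin.sum_univ_four]
      ring)
  have g1 : ¬Nr m 4 (s'.2 - s.2) := fun g => h1 (g.mono (by norm_num))
  have g2 : ¬Nr m 4 (s'.2 - t.2) := fun g => h2 (g.mono (by norm_num))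
  by_cases h3 : Nr m 4 (s'.2 - t'.2)
  · have g3 : ¬Nr m 4 (t'.2 - s.2) := fun g => h1 (by simpa using h3.add g)
    have g4 : ¬Nr m 4 (t'.2 - t.2) := fun g => h2 (by simpa using h3.add g)
    have h4 := hs {2, 3} (by
      intro i hi j hj
      fin_cases i <;> fin_cases j <;> simp_all)
    refine h' ?_
    convert (GG N k m).neg_mem h4 using 1
    simp only [cyf_sp]
    simp
    ring
  · have h4 := hs {2} (by
      intro i hi j hj
      fin_cases i <;> fin_cases j <;> simp_all)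
    rw [sum_singleton] at h4
    have h5 := cy_int (E := 1) hN hn hk (by omega) _ (by simp [cyf_abs]) (cyf_unit hN h4)
    have h6 := cyf_abs s'.1
    simp at h5
    simp [h5] at h6

/-- Coefficients `a = ![1, 1, 1, -1, -1, -1]`. For `j : ZMod n` apply `split_GG` to
`A = univ.filter (e · = j)`: `(∑ i ∈ A, a i) * pw j ∈ G`, `pw j` is a unit, `|∑ i ∈ A, a i| ≤ 6`, so
`∑ i ∈ A, a i = 0` (`cy_int`, `E = 3`). Sum over `j` (`sum_fiberwise`). -/
theorem cy_six (hN : N + 1 = 2 ^ n) (hn : n = c * m) (hk : k ∣ c) (hm : 24 < m)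
    (e : Fin 6 → ZMod n) (he : ∀ i j, Nr m 4 (e i - e j) → e i = e j)
    (h : pw N (e 0) + pw N (e 1) + pw N (e 2) - (pw N (e 3) + pw N (e 4) + pw N (e 5)) ∈ GG N k m) :
    pw N (e 0) + pw N (e 1) + pw N (e 2) = pw N (e 3) + pw N (e 4) + pw N (e 5) := by
  have ha : ∀ i, |(![1, 1, 1, -1, -1, -1] : Fin 6 → ℤ) i| ≤ 1 := by
    intro i
    fin_cases i <;> simp
  generalize hA : (![1, 1, 1, -1, -1, -1] : Fin 6 → ℤ) = a at ha
  have h0 : ∑ i, (a i : ZMod N) * pw N (e i) =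
      pw N (e 0) + pw N (e 1) + pw N (e 2) - (pw N (e 3) + pw N (e 4) + pw N (e 5)) := by
    subst hA
    simp [Fin.sum_univ_six]
    ring
  rw [← sub_eq_zero, ← h0, ← sum_fiberwise univ e]
  refine sum_eq_zero fun j _ => ?_
  have h1 : ∑ i ∈ univ.filter (e · = j), (a i : ZMod N) * pw N (e i) =
      ((∑ i ∈ univ.filter (e · = j), a i : ℤ) : ZMod N) * pw N j := by
    push_cast
    rw [sum_mul]
    exact sum_congr rfl fun i hi => by rw [(mem_filter.1 hi).2]
  have h2 := split_GG hN hn hk hm (ι := Fin 6) (by simp) a ha e (univ.filter (e · = j))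
    (fun i hi i' hi' g => hi' (mem_filter.2 ⟨mem_univ _, (he _ _ g).symm.trans (mem_filter.1 hi).2⟩))
    (h0 ▸ h)
  rw [h1] at h2 ⊢
  have h3 : |∑ i ∈ univ.filter (e · = j), a i| < 2 ^ 3 := by
    refine (abs_sum_le_sum_abs _ _).trans_lt ((sum_le_card_nsmul _ _ 1 fun i _ => ha i).trans_lt ?_)
    have h4 : (univ.filter (e · = j)).card ≤ 6 := (card_filter_le _ _).trans (by simp)
    rw [nsmul_one]
    omega
  rw [cy_int (E := 3) hN hn hk (by omega) _ h3 (cyf_unit hN h2), Int.cast_zero, zero_mul]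

theorem cy (hN : N + 1 = 2 ^ n) (hn : n = c * m) (hc : Odd c) (hk : k ∣ c) (hm : 24 < m)
    (hE : 2 * (E + 2) < m) : Cy n m E (GG N k m) :=
  ⟨cy_int hN hn hk hE, cy_two hN hn hk hE, cy_pair hN hn hc hk hE, cy_four hN hn hc hk hm,
    cy_near hN hn hk hm, cy_six hN hn hk hm⟩

end Pool.Agent.Lib.MP_a01f70_lc.GA
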