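import Pool.Agent.Lib.MP_a01f70_lc.BA.Main

/-! Bounded relation outside a cyclotomic ideal: definitions. -/

set_option autoImplicit false
set_option linter.unusedSectionVars false

noncomputable section

namespace Pool.Agent.Lib.MP_a01f70_lc.GA

open Finset ZMod BA
open scoped ComplexConjugate

variable {N n : ℕ} [NeZero N] [NeZero n]

/-- `x` is at distance less than `L` from a multiple of `m`. -/
def Nr (m L : ℕ) (x : ZMod n) : Prop := ∃ z t : ℤ, |z| < L ∧ x = z + m * t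

/-- What is used about the ideal generated by a cyclotomic value. -/
structure Cy (n m E : ℕ) (G : Ideal (ZMod N)) : Prop where
  int : ∀ z : ℤ, |z| < 2 ^ E → (z : ZMod N) ∈ G → z = 0
  two : ∀ (a : ℤ) (s : Bool × ZMod n), |a| < 2 ^ E → (a : ZMod N) + sp N s ∈ G →
    ∃ v : ℕ, |a| = 2 ^ v
  pair : ∀ (z : ℤ) (s s' : Bool × ZMod n), z ≠ 0 → |z| < 2 ^ E →
    (z : ZMod N) * (sp N s - sp N s') ∈ G → s.1 = s'.1 ∧ (m : ZMod n) ∣ s.2 - s'.2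
  four : ∀ a b c d : ZMod n, pw N a + pw N b - (pw N c + pw N d) ∈ G →
    (m : ZMod n) ∣ a - c ∨ (m : ZMod n) ∣ a - d
  near : ∀ s t s' t' : Bool × ZMod n, sp N s + sp N t - (sp N s' + sp N t') ∈ G →
    sp N s' + sp N t' ∉ G → Nr m 8 (s'.2 - s.2) ∨ Nr m 8 (s'.2 - t.2)
  six : ∀ e : Fin 6 → ZMod n, (∀ i j, Nr m 4 (e i - e j) → e i = e j) →
    pw N (e 0) + pw N (e 1) + pw N (e 2) - (pw N (e 3) + pw N (e 4) + pw N (e 5)) ∈ G →
    pw N (e 0) + pw N (e 1) + pw N (e 2) = pw N (e 3) + pw N (e 4) + pw N (e 5)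

/-- The elements whose product with `d` has weight at most `θ`. -/
def II (d : ZMod N) (θ : ℕ) : Set (ZMod N) := {η | Wt θ (η * d)}

open Classical in
/-- The shifts that almost fix `d`. -/
def K1 (n m : ℕ) [NeZero n] (d : ZMod N) (θ : ℕ) : Finset (ZMod n) :=
  univ.filter fun δ => (m : ZMod n) ∣ δ ∧ Wt θ ((pw N δ - 1) * d)

/-- The arithmetic setting. -/
structure Ar (n m c : ℕ) [NeZero n] (G : Ideal (ZMod N)) (d : ZMod N) (u θ θ₁ B M : ℕ) :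
    Prop where
  hN : N + 1 = 2 ^ n
  hn : n = c * m
  odd : Odd c
  hm : 16 ≤ m
  cy : Cy n m (350 * B) G
  min : ∀ η, Wt 1400 η → Wt u (η * d) → η ∈ G
  hB : 1 ≤ B
  big : 700 * B * (c * (c * (2 * (22 + c))) + 2) * θ ≤ u
  hM : 2 * M < B ^ 350
  hX : 2 * 4 ^ ((22 + c) * c) < B ^ 350
  win : ∀ δ : ZMod n, (m : ZMod n) ∣ δ → Wt (2 * θ) ((pw N δ - 1) * d) → Wt θ₁ ((pw N δ - 1) * d)

open Classical in
/-- What the analysis uses about the exceptional frequencies. -/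
structure Sep2 (n : ℕ) [NeZero n] (I : Set (ZMod N)) (M C : ℕ) : Prop where
  int : ∀ z : ℤ, z ≠ 0 → |z| ≤ M → (z : ZMod N) ∉ I
  cnt1 : ∀ a : ℤ, a ≠ 0 → |a| ≤ M →
    (univ.filter fun s : Bool × ZMod n => (a : ZMod N) + sp N s ∈ I).card ≤ C
  cnt2 : ∀ a : ℤ, a ≠ 0 → |a| ≤ M → (univ.filter fun t : (Bool × ZMod n) × (Bool × ZMod n) =>
    (a : ZMod N) + (sp N t.1 + sp N t.2) ∈ I).card ≤ C
  col : ∃ κ : ZMod n → Fin C, ∀ e : Fin 6 → ZMod n, (∀ i j, κ (e i) = κ (e j)) →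
    pw N (e 0) + pw N (e 1) + pw N (e 2) - (pw N (e 3) + pw N (e 4) + pw N (e 5)) ∈ I →
    pw N (e 0) + pw N (e 1) + pw N (e 2) = pw N (e 3) + pw N (e 4) + pw N (e 5)

open Classical in
/-- The exceptional terms of first order. -/
def Bad2 (I : Set (ZMod N)) (M : ℕ) (K : Finset (ZMod n)) : Finset (ℤ × (Bool × ZMod n)) :=
  (Icc (-M : ℤ) M ×ˢ univ).filter fun t => t.1 ≠ 0 ∧ (t.1 : ZMod N) + sp N t.2 ∈ I ∧
    ¬(t.1 = 1 ∧ t.2.1 = false ∧ t.2.2 ∈ K) ∧ ¬(t.1 = -1 ∧ t.2.1 = true ∧ t.2.2 ∈ K)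

/-- The error of first order at the site `i`. -/
def er2 (c : ℤ → ℂ) (b : ZMod N) (I : Set (ZMod N)) (M : ℕ) (K : Finset (ZMod n)) (i : ZMod n) :
    ℝ :=
  ∑ t ∈ Bad2 I M K, ‖c t.1‖ * ‖ww b (i + t.2.2)‖

/-- The main term of first order at the site `i`. -/
def mn (c₁ : ℂ) (b : ZMod N) (K : Finset (ZMod n)) (x : ZMod n → ℝ) (i : ZMod n) : ℝ :=
  ∑ δ ∈ K, (‖c₁‖ ^ 2 * ‖ww b i‖ ^ 2 - 2 * ‖ww b (i + δ) - ww b i‖ - 2 * ‖ww b i‖ * x δ)

/-- The lower bound for the expected gain. -/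
def LB2 (μ τ M A ε q l V P r C κ E : ℝ) : ℝ :=
  -(μ + τ * (2 * M)) - 2 * M * ε +
    q * (l / 2 * (κ * ((V - 2 * ε) / 4 - (2 ^ 41 * μ + 48 / 2 ^ 20) * P - E)) -
      r * (τ * (2 * M) * (1 + l * P) + 4 * l ^ 6 * (C ^ 5 * (24 * V ^ 3 + τ * P ^ 6)))) -
    (q * r) ^ 2 * (2 * A * (C * (2 * l + l ^ 2) + τ * (1 + l * P) ^ 2) +
      32 * l ^ 6 * (C ^ 5 * (24 * V ^ 3 + τ * P ^ 6))) - 7 * (q * r) ^ 3

/-- An exponential sum in a root of unity. -/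
def ES {ι : Type} (c : ι → ℤ) (r t : ι → ℕ) (A : Finset ι) (ζ : ℂ) : ℂ :=
  ∑ i ∈ A, (c i : ℂ) * 2 ^ r i * ζ ^ t i

/-- The sum vanishes at the primitive roots of order `k`. -/
def Van {ι : Type} (k : ℕ) (c : ι → ℤ) (r t : ι → ℕ) (A : Finset ι) : Prop :=
  ∀ ζ : ℂ, IsPrimitiveRoot ζ k → ES c r t A ζ = 0

/-- The ideal generated by the value of the cyclotomic polynomial at `2 ^ m`. -/
def GG (N k m : ℕ) : Ideal (ZMod N) :=
  Ideal.span {(((Polynomial.cyclotomic k ℤ).eval (2 ^ m) : ℤ) : ZMod N)}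

theorem Nr.neg {m L : ℕ} {x : ZMod n} (h : Nr m L x) : Nr m L (-x) := by
  obtain ⟨z, t, h1, h2⟩ := h
  exact ⟨-z, -t, by rwa [abs_neg], by rw [h2]; push_cast; ring⟩

theorem Nr.add {m L L' : ℕ} {x y : ZMod n} (h : Nr m L x) (h' : Nr m L' y) :
    Nr m (L + L') (x + y) := by
  obtain ⟨z, t, h1, h2⟩ := h
  obtain ⟨z', t', h3, h4⟩ := h'
  refine ⟨z + z', t + t', (abs_add_le _ _).trans_lt ?_, by rw [h2, h4]; push_cast; ring⟩
  push_cast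
  linarith

theorem Nr.mono {m L L' : ℕ} {x : ZMod n} (h : Nr m L x) (hL : L ≤ L') : Nr m L' x := by
  obtain ⟨z, t, h1, h2⟩ := h
  exact ⟨z, t, h1.trans_le (by exact_mod_cast hL), h2⟩

theorem sp_mul (hN : N + 1 = 2 ^ n) (σ : Bool) (i j : ZMod n) :
    sp N (σ, i + j) = sp N (σ, i) * pw N j := by
  unfold sp
  split_ifs <;> simp [pw_add hN]

theorem pw_neg_mul (hN : N + 1 = 2 ^ n) (i : ZMod n) : pw N (-i) * pw N i = 1 := by
  rw [← pw_add hN, neg_add_cancel, pw_zero]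

theorem wt_pw_mul {T : ℕ} {x : ZMod N} (h : Wt T x) (i : ZMod n) : Wt T (pw N i * x) :=
  wt_shift _ h

theorem wt_sp_mul {T : ℕ} {x : ZMod N} (h : Wt T x) (s : Bool × ZMod n) : Wt T (sp N s * x) := by
  simpa using (wt_sp (N := N) s).mul h

end Pool.Agent.Lib.MP_a01f70_lc.GA
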