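import Pool.Agent.Lib.MP_a01f70_lc.GA.GainA
import Pool.Agent.Lib.MP_a01f70_lc.GA.Core

/-! The expected gain at one position. -/

set_option autoImplicit false
set_option linter.unusedSectionVars false

noncomputable section

namespace Pool.Agent.Lib.MP_a01f70_lc.GA

open Finset ZMod BA
open scoped ComplexConjugate

variable {N n : ℕ} [NeZero N] [NeZero n]

variable {Ω : Type} [Fintype Ω] {w : Ω → ℝ} {I : Set (ZMod N)} {τ μ : ℝ} {c : ℤ → ℂ} {M C : ℕ}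

/-- As `BA.gain` (file `BA/Gain.lean`) with `core'`: `R' = univ.filter (· + k ∈ R)`,
`m i = l / 2 * (mn (c 1) b K (fun δ => x₀ + u δ (i + k)) (i + k) - er2 ..) - (..)`,
`v i j = l * ∑ δ ∈ K, ‖ww b (i + k)‖ * u δ (j + k)`. For `i ∈ σ` use `gain1'` with
`x δ = x₀ + ∑ j ∈ σ, u δ (j + k)` and `add_sum_erase`. `∑_R' ∑ j, v i j ≤ l * card K * PP * U`;
`ord0'`, `gain2'`, `trunc`, `sum_mn`. -/
theorem gain' (hN : N + 1 = 2 ^ n) (hS : Sep2 n I M C) (hc : Mino c M μ)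
    (Y : Finset (ZMod n) → Ω → ZMod N) (h : ∀ σ, Good w (Y σ) I τ) (b : ZMod N) (k : ZMod n)
    (R K : Finset (ZMod n)) {ε q l x₀ U : ℝ} (hq0 : 0 ≤ q) (hq1 : q ≤ 1) (hl : 0 ≤ l)
    (hR : ∑ i ∈ Rᶜ, ‖ww b i‖ ≤ ε) (u : ZMod n → ZMod n → ℝ) (hx0 : 0 ≤ x₀)
    (hu0 : ∀ δ i, 0 ≤ u δ i) (hu : ∀ δ ∈ K, ∑ i, u δ i ≤ U)
    (hK : ∀ δ ∈ K, ∑ i, ‖ww b (i + δ) - ww b i‖ ≤ U)
    (hx : ∀ σ, ∀ δ ∈ K, ∑ ω, w ω * ‖ee ((1 - pw N δ) * Y σ ω) - 1‖ ≤ x₀ + ∑ j ∈ σ, u δ (j + k))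
    (hD : ∑ t ∈ Bad2 I M K, ‖c t.1‖ ≤ K.card * (2 ^ 41 * μ + 48 / 2 ^ 20)) :
    LB2 μ τ M (1 + Real.log M) ε q l (VV n b) (PP n b) R.card C K.card
        (6 * U + 2 * PP n b * x₀ + 2 * q * PP n b * U) ≤
      ∑ σ, bw (fun _ : ZMod n => q) σ * ∑ ω, w ω *
        ∑ W, bw (fun i => if i ∈ σ then cl (l * gg (c 1) b (i + k) (Y σ ω)) else 0) W *
          ph c M (Y σ ω + ∑ i ∈ W, pw N (i + k) * b) := by
  have hτ := (h ∅).tau
  have hV := VV_nonneg (n := n) b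
  have hP := PP_nonneg (n := n) b
  have hL := Real.log_natCast_nonneg M
  have key := core' w (h ∅).nn (h ∅).one Y (fun i => pw N (i + k) * b) (ph c M) hc.abs_ph
    (fun σ ω i => cl (l * gg (c 1) b (i + k) (Y σ ω))) (fun _ _ _ => cl_nonneg _)
    (fun _ _ _ => cl_le _) (univ.filter fun i => i + k ∈ R)
    (fun i => l / 2 * (mn (c 1) b K (fun δ => x₀ + u δ (i + k)) (i + k) - er2 c b I M K (i + k)) -
      (τ * (2 * M) * (1 + l * PP n b) + 4 * l ^ 6 * (C ^ 5 * (24 * VV n b ^ 3 + τ * PP n b ^ 6))))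
    (fun i j => l * ∑ δ ∈ K, ‖ww b (i + k)‖ * u δ (j + k))
    (fun i j => mul_nonneg hl (sum_nonneg fun δ _ => mul_nonneg (norm_nonneg _) (hu0 _ _)))
    hq0 hq1 (by positivity) (trunc hc b k R hR) (fun σ => ord0' (h σ) hS.int hc)
    (fun σ i _ hi => by
      refine le_trans (le_of_eq ?_) (gain1' hN (h σ) hS hc b (i + k) K _ (hx σ) hl)
      simp only [mn, ← add_sum_erase _ _ hi, mul_add (2 * ‖ww b (i + k)‖), sum_sub_distrib,
        sum_add_distrib, ← mul_sum]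
      rw [sum_comm]
      ring)
    fun σ i j => gain2' hN (h σ) hS hc b _ _ (i + k) (j + k) hl
  have e : ∀ f : ZMod n → ℝ, ∑ i ∈ univ.filter (fun i => i + k ∈ R), f (i + k) = ∑ i ∈ R, f i :=
    fun f => sum_nbij' (· + k) (· - k) (by simp) (by simp) (by simp) (by simp) (by simp)
  have ec : ((univ.filter fun i => i + k ∈ R).card : ℝ) = R.card := by simpa using e fun _ => 1
  refine le_trans ?_ key
  rw [sum_sub_distrib, ← mul_sum, sum_const, nsmul_eq_mul, ec,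
    e fun i => mn (c 1) b K (fun δ => x₀ + u δ i) i - er2 c b I M K i,
    e fun i => ∑ j, l * ∑ δ ∈ K, ‖ww b i‖ * u δ (j + k)]
  have h1 := mul_le_mul_of_nonneg_left (sum_mn hc b R K hR u hx0 hu0 hu hK hD)
    (mul_nonneg hq0 (div_nonneg hl zero_le_two))
  have h2 : ∑ i ∈ R, ∑ j, l * ∑ δ ∈ K, ‖ww b i‖ * u δ (j + k) ≤ l * (PP n b * (K.card * U)) := by
    simp only [← mul_sum]
    rw [← sum_mul, sum_comm, ← nsmul_eq_mul]
    refine mul_le_mul_of_nonneg_left (mul_le_mul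
      (sum_le_sum_of_subset_of_nonneg (subset_univ R) fun _ _ _ => norm_nonneg _)
      (sum_le_card_nsmul _ _ _ fun δ hδ => ?_)
      (sum_nonneg fun _ _ => sum_nonneg fun _ _ => hu0 _ _) hP) hl
    exact (Equiv.sum_comp (Equiv.addRight k) (u δ)).trans_le (hu δ hδ)
  have h3 := mul_le_mul_of_nonneg_left h2 (sq_nonneg q)
  unfold LB2
  linarith

end Pool.Agent.Lib.MP_a01f70_lc.GA
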