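import Pool.Agent.Lib.MP_a01f70_lc.GA.Defs

/-! The sixth moment. -/

set_option autoImplicit false
set_option linter.unusedSectionVars false

noncomputable section

namespace Pool.Agent.Lib.MP_a01f70_lc.GA

open Finset ZMod BA
open scoped ComplexConjugate

variable {N n : ℕ} [NeZero N] [NeZero n]

variable {Ω : Type} [Fintype Ω] {w : Ω → ℝ} {Y : Ω → ZMod N} {I : Set (ZMod N)} {τ μ : ℝ}
  {c : ℤ → ℂ} {M C : ℕ}

/-- `mom_sq` for the type of triples of elements of `A` (`{j // j ∈ A}` cubed), `mom_cube`,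
`card_three` (the map to triples in `ZMod n` is injective); compare `BA.mom6`. -/
theorem mom_col (hN : N + 1 = 2 ^ n) (h : Good w Y I τ) (A : Finset (ZMod n)) (o : ZMod n → ℂ)
    (hA : ∀ e : Fin 6 → ZMod n, (∀ i, e i ∈ A) →
      pw N (e 0) + pw N (e 1) + pw N (e 2) - (pw N (e 3) + pw N (e 4) + pw N (e 5)) ∈ I →
      pw N (e 0) + pw N (e 1) + pw N (e 2) = pw N (e 3) + pw N (e 4) + pw N (e 5)) :
    ∑ ω, w ω * ‖∑ j ∈ A, o j * ee (pw N j * Y ω)‖ ^ 6 ≤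
      24 * (∑ j ∈ A, ‖o j‖ ^ 2) ^ 3 + τ * (∑ j ∈ A, ‖o j‖) ^ 6 := by
  have h1 := mom_sq h (fun t : A × A × A => pw N t.1.1 + pw N t.2.1.1 + pw N t.2.2.1)
    (fun t => o t.1 * o t.2.1 * o t.2.2) (c := 24)
    (fun t t' ht => hA ![t.1, t.2.1, t.2.2, t'.1, t'.2.1, t'.2.2]
      (fun i => by fin_cases i <;> exact Subtype.prop _) ht)
    (fun x => le_trans (card_le_card_of_injOn
      (fun t : A × A × A => ((t.1, t.2.1, t.2.2) : ZMod n × ZMod n × ZMod n))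
      (fun t ht => mem_coe.2 (mem_filter.2 ⟨mem_univ _, (mem_filter.1 (mem_coe.1 ht)).2⟩))
      (fun t _ t' _ e => by
        simp only [Prod.mk.injEq] at e
        exact Prod.ext (Subtype.ext e.1) (Prod.ext (Subtype.ext e.2.1) (Subtype.ext e.2.2))))
      (card_three hN x))
  have h4 : (∑ j ∈ A, ‖o j‖ ^ 2) ^ 3 = ∑ t : A × A × A, ‖o t.1 * o t.2.1 * o t.2.2‖ ^ 2 := by
    rw [← sum_coe_sort A, mom_cube]
    simp only [norm_mul, mul_pow]
  have h5 : (∑ j ∈ A, ‖o j‖) ^ 6 = (∑ t : A × A × A, ‖o t.1 * o t.2.1 * o t.2.2‖) ^ 2 := by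
    rw [← sum_coe_sort A, show 6 = 3 * 2 from rfl, pow_mul, mom_cube]
    simp only [norm_mul]
  rw [h4, h5]
  refine le_trans (le_of_eq (sum_congr rfl fun ω _ => ?_)) (h1.trans_eq (by norm_num))
  rw [← sum_coe_sort A, show 6 = 3 * 2 from rfl, pow_mul, ← norm_pow, mom_cube]
  congr 3
  refine sum_congr rfl fun t _ => ?_
  rw [add_mul, add_mul, ee_add, ee_add]
  ring

theorem mom_pow_le {ι : Type} [Fintype ι] (v : ι → ℝ) (hv : ∀ x, 0 ≤ v x) (k : ℕ) :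
    ∑ x, v x ^ (k + 1) ≤ (∑ x, v x) ^ (k + 1) := by
  rw [pow_succ, mul_sum]
  refine sum_le_sum fun x _ => ?_
  rw [pow_succ]
  exact mul_le_mul_of_nonneg_right
    (pow_le_pow_left₀ (hv x) (single_le_sum (fun y _ => hv y) (mem_univ x)) k) (hv x)

/-- `|gg| ≤ ‖H‖ ≤ ∑ x : Fin C, ‖H x‖`, `H x` the sum over the colour class of `x`
(`sum_fiberwise`); `(∑ x, u x) ^ 6 ≤ C ^ 5 * ∑ x, u x ^ 6` (`pow_sum_le_card_mul_sum_pow`),
`mom_col`, and `∑ x, v x ^ k ≤ (∑ x, v x) ^ k` for `v ≥ 0`, `k ≠ 0` (`v x ^ k ≤ v x * S ^ (k - 1)`). -/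
theorem mom6' (hN : N + 1 = 2 ^ n) (h : Good w Y I τ) (hS : Sep2 n I M C) {c₁ : ℂ}
    (hc : ‖c₁‖ ≤ 1) (b : ZMod N) (i : ZMod n) :
    ∑ ω, w ω * gg c₁ b i (Y ω) ^ 6 ≤ C ^ 5 * (24 * VV n b ^ 3 + τ * PP n b ^ 6) := by
  obtain ⟨κ, hκ⟩ := hS.col
  obtain ⟨o, ho⟩ : ∃ o : ZMod n → ℂ, ∀ j, o j = c₁ * ww b (i + j) := ⟨_, fun _ => rfl⟩
  have h0 : ∀ j : ZMod n, ‖o j‖ ≤ ‖ww b (i + j)‖ := fun j => by
    rw [ho, norm_mul]
    exact mul_le_of_le_one_left (norm_nonneg _) hc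
  have h2 : ∑ x : Fin C, ∑ j ∈ univ.filter (fun j => κ j = x), ‖o j‖ ≤ PP n b := by
    rw [sum_fiberwise]
    exact (sum_le_sum fun j _ => h0 j).trans_eq
      (Equiv.sum_comp (Equiv.addLeft i) fun j => ‖ww b j‖)
  have h3 : ∑ x : Fin C, ∑ j ∈ univ.filter (fun j => κ j = x), ‖o j‖ ^ 2 ≤ VV n b := by
    rw [sum_fiberwise]
    exact (sum_le_sum fun j _ => pow_le_pow_left₀ (norm_nonneg _) (h0 j) 2).trans_eq
      (Equiv.sum_comp (Equiv.addLeft i) fun j => ‖ww b j‖ ^ 2)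
  have h4 := (mom_pow_le _ (fun x => sum_nonneg fun _ _ => sq_nonneg _) 2).trans
    (pow_le_pow_left₀ (sum_nonneg fun _ _ => sum_nonneg fun _ _ => sq_nonneg _) h3 3)
  have h5 := (mom_pow_le _ (fun x => sum_nonneg fun _ _ => norm_nonneg _) 5).trans
    (pow_le_pow_left₀ (sum_nonneg fun _ _ => sum_nonneg fun _ _ => norm_nonneg _) h2 6)
  have h6 : ∀ y : ZMod N, gg c₁ b i y ^ 6 ≤ C ^ 5 * ∑ x : Fin C,
      ‖∑ j ∈ univ.filter (fun j => κ j = x), o j * ee (pw N j * y)‖ ^ 6 := by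
    intro y
    have a1 := pow_le_pow_left₀ (abs_nonneg _)
      (Complex.abs_re_le_norm (∑ j : ZMod n, c₁ * ww b (i + j) * ee (pw N j * y))) 6
    rw [Even.pow_abs (by decide)] at a1
    refine a1.trans ?_
    simp only [← ho]
    rw [← sum_fiberwise univ κ]
    refine (pow_le_pow_left₀ (norm_nonneg _) (norm_sum_le _ _) 6).trans ?_
    have a2 := pow_sum_le_card_mul_sum_pow (s := (univ : Finset (Fin C)))
      (f := fun x => ‖∑ j ∈ univ.filter (fun j => κ j = x), o j * ee (pw N j * y)‖)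
      (fun _ _ => norm_nonneg _) 5
    rwa [card_univ, Fintype.card_fin] at a2
  refine (sum_le_sum fun ω _ => mul_le_mul_of_nonneg_left (h6 (Y ω)) (h.nn ω)).trans ?_
  simp only [mul_left_comm (w _), ← mul_sum]
  refine mul_le_mul_of_nonneg_left ?_ (by positivity)
  simp only [mul_sum]
  rw [sum_comm]
  refine (sum_le_sum fun x _ => mom_col hN h (univ.filter fun j => κ j = x) o fun e he =>
    hκ e fun k l => (mem_filter.1 (he k)).2.trans (mem_filter.1 (he l)).2.symm).trans ?_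
  rw [sum_add_distrib, ← mul_sum, ← mul_sum]
  exact add_le_add (mul_le_mul_of_nonneg_left h4 (by norm_num)) (mul_le_mul_of_nonneg_left h5 h.tau)

end Pool.Agent.Lib.MP_a01f70_lc.GA
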