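import Pool.Agent.Lib.MP_a01f70_lc.GA.Defs

/-! The term of second order. -/

set_option autoImplicit false
set_option linter.unusedSectionVars false

noncomputable section

namespace Pool.Agent.Lib.MP_a01f70_lc.GA

open Finset ZMod BA
open scoped ComplexConjugate

variable {N n : ℕ} [NeZero N] [NeZero n]

variable {Ω : Type} [Fintype Ω] {w : Ω → ℝ} {Y : Ω → ZMod N} {I : Set (ZMod N)} {τ μ : ℝ}
  {c : ℤ → ℂ} {M C : ℕ}

open Classical in
/-- Copy `BA.select` (file `BA/OrdB.lean`); the inner sum for fixed `a` is bounded by `hγ`. -/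
theorem select' (h : Good w Y I τ) {T : Type} [Fintype T] (f : ℤ → ℂ) (γ : T → ℂ)
    (κ : T → ZMod N) {Γ : ℝ} (hγ : ∀ a : ℤ, a ≠ 0 → |a| ≤ M →
      ∑ t ∈ univ.filter (fun t => (a : ZMod N) + κ t ∈ I), ‖γ t‖ ≤ Γ) :
    ‖∑ ω, (w ω : ℂ) * ((∑ t, γ t * ee (κ t * Y ω)) *
        ∑ a ∈ (Icc (-M : ℤ) M).erase 0, f a * ee ((a : ZMod N) * Y ω))‖ ≤
      (∑ a ∈ (Icc (-M : ℤ) M).erase 0, ‖f a‖) * (Γ + τ * ∑ t, ‖γ t‖) := by
  have h1 := h.test ((Icc (-M : ℤ) M).erase 0 ×ˢ (univ : Finset T)) ∅ (empty_subset _)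
    (fun p => f p.1 * γ p.2) (fun p => (p.1 : ZMod N) + κ p.2) (by simp)
  rw [sum_empty, sub_zero, @sdiff_empty _ (_) _, sum_filter, sum_product, sum_product] at h1
  have h2 : ∀ ω, (∑ t, γ t * ee (κ t * Y ω)) *
      ∑ a ∈ (Icc (-M : ℤ) M).erase 0, f a * ee ((a : ZMod N) * Y ω) =
      ∑ p ∈ (Icc (-M : ℤ) M).erase 0 ×ˢ (univ : Finset T),
        f p.1 * γ p.2 * ee (((p.1 : ZMod N) + κ p.2) * Y ω) := fun ω => by
    rw [mul_comm, sum_mul_sum, sum_product]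
    refine sum_congr rfl fun a _ => sum_congr rfl fun t _ => ?_
    rw [add_mul, ee_add]
    ring
  simp only [h2]
  refine h1.trans ?_
  rw [mul_add, sum_mul]
  refine add_le_add (sum_le_sum fun a ha => ?_) (le_of_eq ?_)
  · obtain ⟨ha0, ha⟩ := mem_erase.1 ha
    refine le_trans (le_of_eq ?_)
      (mul_le_mul_of_nonneg_left (hγ a ha0 (abs_le.2 (mem_Icc.1 ha))) (norm_nonneg _))
    rw [sum_filter, mul_sum]
    refine sum_congr rfl fun t _ => ?_
    split_ifs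
    · rw [norm_mul]
    · rw [mul_zero]
  · simp only [norm_mul]
    rw [← sum_mul_sum]
    ring

/-- Copy `BA.ord2`: `select'` with `Γ = 0` (`int`), `Γ = C` (`cnt1`, `cnt2`; all coefficients have
norm at most one). -/
theorem ord2' (h : Good w Y I τ) (hS : Sep2 n I M C) (hc : Mino c M μ) (b z z' : ZMod N)
    (i i' : ZMod n) {l : ℝ} (hl : 0 ≤ l) :
    |∑ ω, w ω * ((1 + l * gg (c 1) b i (Y ω)) * (1 + l * gg (c 1) b i' (Y ω)) *
        (ph c M (Y ω + z + z') - ph c M (Y ω + z) - ph c M (Y ω + z') + ph c M (Y ω)))| ≤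
      8 * (1 + Real.log M) * (C * (2 * l + l ^ 2) + τ * (1 + l * PP n b) ^ 2) := by
  classical
  have hc1 : ‖c 1‖ ≤ 1 := hc.norm_le one_ne_zero
  have hP := PP_nonneg (n := n) b
  have hτ := h.tau
  obtain ⟨f, hf⟩ : ∃ f : ℤ → ℂ, f = fun a =>
    c a * (ee ((a : ZMod N) * z) - 1) * (ee ((a : ZMod N) * z') - 1) := ⟨_, rfl⟩
  have hA : ∑ a ∈ (Icc (-M : ℤ) M).erase 0, ‖f a‖ ≤ 8 * (1 + Real.log M) := by
    have h1 : ∑ a ∈ (Icc (-M : ℤ) M).erase 0, ‖f a‖ ≤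
        ∑ a ∈ (Icc (-M : ℤ) M).erase 0, 4 * ‖c a‖ := sum_le_sum fun a _ => by
      rw [hf, norm_mul, norm_mul]
      calc _ ≤ ‖c a‖ * 2 * 2 := by gcongr <;> exact norm_ee_sub _
        _ = _ := by ring
    rw [← mul_sum] at h1
    linarith [hc.sum_norm]
  have hA0 : 0 ≤ ∑ a ∈ (Icc (-M : ℤ) M).erase 0, ‖f a‖ := sum_nonneg fun _ _ => norm_nonneg _
  have hg : ∀ j s, ‖gam (c 1) b j s‖ ≤ 1 := fun (j : ZMod n) s =>
    (norm_gam hc1 b j s).trans (by linarith [norm_ww b (j + s.2)])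
  have h0 := select' (M := M) h f (fun _ : Unit => (1 : ℂ)) (fun _ => 0) (Γ := 0)
    fun a a0 a1 => by simp [hS.int a a0 a1]
  have h1 : ∀ j : ZMod n, ‖∑ ω, (w ω : ℂ) * ((gg (c 1) b j (Y ω) : ℂ) *
      ∑ a ∈ (Icc (-M : ℤ) M).erase 0, f a * ee ((a : ZMod N) * Y ω))‖ ≤
      (∑ a ∈ (Icc (-M : ℤ) M).erase 0, ‖f a‖) * (C + τ * PP n b) := fun j => by
    simp only [gg_eq]
    refine (select' h f (gam (c 1) b j) (sp N) (Γ := C) fun a a0 a1 => ?_).trans ?_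
    · refine (sum_le_card_nsmul _ _ 1 fun t _ => hg j t).trans ?_
      rw [nsmul_eq_mul, mul_one]
      exact_mod_cast hS.cnt1 a a0 a1
    · gcongr
      exact sum_gam hc1 b j
  have h2 : ‖∑ ω, (w ω : ℂ) * ((gg (c 1) b i (Y ω) : ℂ) * (gg (c 1) b i' (Y ω) : ℂ) *
      ∑ a ∈ (Icc (-M : ℤ) M).erase 0, f a * ee ((a : ZMod N) * Y ω))‖ ≤
      (∑ a ∈ (Icc (-M : ℤ) M).erase 0, ‖f a‖) * (C + τ * (PP n b * PP n b)) := by
    have h3 : ∀ y, (gg (c 1) b i y : ℂ) * (gg (c 1) b i' y : ℂ) =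
        ∑ t : (Bool × ZMod n) × (Bool × ZMod n), gam (c 1) b i t.1 * gam (c 1) b i' t.2 *
          ee ((sp N t.1 + sp N t.2) * y) := fun y => by
      rw [gg_eq, gg_eq, sum_mul_sum, Fintype.sum_prod_type (α₁ := Bool × ZMod n)]
      refine sum_congr rfl fun s _ => sum_congr rfl fun t _ => ?_
      rw [add_mul, ee_add]
      ring
    simp only [h3]
    refine (select' h f (fun t : (Bool × ZMod n) × (Bool × ZMod n) =>
      gam (c 1) b i t.1 * gam (c 1) b i' t.2) (fun t => sp N t.1 + sp N t.2) (Γ := C)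
      fun a a0 a1 => ?_).trans ?_
    · refine (sum_le_card_nsmul _ _ 1 fun t _ => ?_).trans ?_
      · rw [norm_mul]
        exact mul_le_one₀ (hg _ _) (norm_nonneg _) (hg _ _)
      · rw [nsmul_eq_mul, mul_one]
        exact_mod_cast hS.cnt2 a a0 a1
    · gcongr
      simp only [norm_mul]
      rw [Fintype.sum_prod_type (α₁ := Bool × ZMod n)]
      dsimp only
      rw [← sum_mul_sum]
      exact mul_le_mul (sum_gam hc1 b i) (sum_gam hc1 b i')
        (sum_nonneg fun _ _ => norm_nonneg _) hP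
  simp only [univ_unique, sum_singleton, zero_mul, ee_zero, mul_one, one_mul, norm_one,
    zero_add] at h0
  have hD : ∀ ω, ((ph c M (Y ω + z + z') - ph c M (Y ω + z) - ph c M (Y ω + z') +
      ph c M (Y ω) : ℝ) : ℂ) = ∑ a ∈ (Icc (-M : ℤ) M).erase 0, f a * ee ((a : ZMod N) * Y ω) :=
    fun ω => by rw [hc.diff2, hf]
  have ha := h1 i
  have hb := h1 i'
  simp only [← hD] at h0 ha hb h2
  generalize (∑ a ∈ (Icc (-M : ℤ) M).erase 0, ‖f a‖) = A at h0 ha hb h2 hA hA0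
  obtain ⟨D, hD'⟩ : ∃ D : Ω → ℝ, ∀ ω, ph c M (Y ω + z + z') - ph c M (Y ω + z) -
    ph c M (Y ω + z') + ph c M (Y ω) = D ω := ⟨_, fun _ => rfl⟩
  simp only [hD'] at h0 ha hb h2 ⊢
  simp only [← Complex.ofReal_mul, ← Complex.ofReal_sum, Complex.norm_real, Real.norm_eq_abs]
    at h0 ha hb h2
  have h4 : ∑ ω, w ω * ((1 + l * gg (c 1) b i (Y ω)) * (1 + l * gg (c 1) b i' (Y ω)) * D ω) =
      ∑ ω, w ω * D ω + l * ∑ ω, w ω * (gg (c 1) b i (Y ω) * D ω) +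
        l * ∑ ω, w ω * (gg (c 1) b i' (Y ω) * D ω) +
        l ^ 2 * ∑ ω, w ω * (gg (c 1) b i (Y ω) * gg (c 1) b i' (Y ω) * D ω) := by
    simp only [mul_sum, ← sum_add_distrib]
    exact sum_congr rfl fun ω _ => by ring
  rw [h4]
  calc _ ≤ A * τ + l * (A * (C + τ * PP n b)) + l * (A * (C + τ * PP n b)) +
        l ^ 2 * (A * (C + τ * (PP n b * PP n b))) := by
        refine (abs_add_le _ _).trans (add_le_add ((abs_add_le _ _).trans (add_le_add
          ((abs_add_le _ _).trans (add_le_add h0 ?_)) ?_)) ?_)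
        · rw [abs_mul, abs_of_nonneg hl]
          exact mul_le_mul_of_nonneg_left ha hl
        · rw [abs_mul, abs_of_nonneg hl]
          exact mul_le_mul_of_nonneg_left hb hl
        · rw [abs_mul, abs_of_nonneg (sq_nonneg l)]
          exact mul_le_mul_of_nonneg_left h2 (sq_nonneg l)
    _ = A * (C * (2 * l + l ^ 2) + τ * (1 + l * PP n b) ^ 2) := by ring
    _ ≤ _ := mul_le_mul_of_nonneg_right hA (by positivity)

end Pool.Agent.Lib.MP_a01f70_lc.GA
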