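import Pool.Agent.Lib.MP_a01f70_lc.GA.OrdA
import Pool.Agent.Lib.MP_a01f70_lc.GA.OrdB
import Pool.Agent.Lib.MP_a01f70_lc.GA.Mom

/-! The clamped terms of first and second order. -/

set_option autoImplicit false
set_option linter.unusedSectionVars false

noncomputable section

namespace Pool.Agent.Lib.MP_a01f70_lc.GA

open Finset ZMod BA
open scoped ComplexConjugate

variable {N n : ℕ} [NeZero N] [NeZero n]

variable {Ω : Type} [Fintype Ω] {w : Ω → ℝ} {Y : Ω → ZMod N} {I : Set (ZMod N)} {τ μ : ℝ}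
  {c : ℤ → ℂ} {M C : ℕ}

/-- Copy `BA.gain1` (file `BA/GainA.lean`) with `ord1a'`, `ord1b'`, `mom6'`. -/
theorem gain1' (hN : N + 1 = 2 ^ n) (h : Good w Y I τ) (hS : Sep2 n I M C) (hc : Mino c M μ)
    (b : ZMod N) (i : ZMod n) (K : Finset (ZMod n)) (x : ZMod n → ℝ)
    (hx : ∀ δ ∈ K, ∑ ω, w ω * ‖ee ((1 - pw N δ) * Y ω) - 1‖ ≤ x δ) {l : ℝ} (hl : 0 ≤ l) :
    l / 2 * (mn (c 1) b K x i - er2 c b I M K i) - (τ * (2 * M) * (1 + l * PP n b) +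
        4 * l ^ 6 * (C ^ 5 * (24 * VV n b ^ 3 + τ * PP n b ^ 6))) ≤
      ∑ ω, w ω * (cl (l * gg (c 1) b i (Y ω)) *
        (ph c M (Y ω + pw N i * b) - ph c M (Y ω))) := by
  have h1 := (abs_le.1 (ord1a' h hS.int hc (pw N i * b))).1
  have h2 := mul_le_mul_of_nonneg_left (ord1b' h hc b i K x hx) (div_nonneg hl zero_le_two)
  have h3 := mul_le_mul_of_nonneg_left (mom6' hN h hS (hc.norm_le one_ne_zero) b i)
    (by positivity : 0 ≤ 4 * l ^ 6)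
  have h4 : ∑ ω, (1 / 2 * (w ω * (ph c M (Y ω + pw N i * b) - ph c M (Y ω))) +
      l / 2 * (w ω * (gg (c 1) b i (Y ω) * (ph c M (Y ω + pw N i * b) - ph c M (Y ω)))) -
      4 * l ^ 6 * (w ω * gg (c 1) b i (Y ω) ^ 6)) ≤ ∑ ω, w ω * (cl (l * gg (c 1) b i (Y ω)) *
        (ph c M (Y ω + pw N i * b) - ph c M (Y ω))) := sum_le_sum fun ω _ => by
    have a1 := abs_le.1 (hc.abs_ph (Y ω + pw N i * b))
    have a2 := abs_le.1 (hc.abs_ph (Y ω))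
    have a3 := GainA_mul (cl_sub (l * gg (c 1) b i (Y ω)))
      (D := ph c M (Y ω + pw N i * b) - ph c M (Y ω)) (K := 4)
      (abs_le.2 ⟨by linarith, by linarith⟩)
    have a4 := mul_le_mul_of_nonneg_left a3 (h.nn ω)
    linarith
  rw [sum_sub_distrib, sum_add_distrib, ← mul_sum, ← mul_sum, ← mul_sum] at h4
  linarith

/-- Copy `BA.gain2` with `ord2'`, `mom6'`. -/
theorem gain2' (hN : N + 1 = 2 ^ n) (h : Good w Y I τ) (hS : Sep2 n I M C) (hc : Mino c M μ)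
    (b z z' : ZMod N) (i i' : ZMod n) {l : ℝ} (hl : 0 ≤ l) :
    -(2 * (1 + Real.log M) * (C * (2 * l + l ^ 2) + τ * (1 + l * PP n b) ^ 2) +
        32 * l ^ 6 * (C ^ 5 * (24 * VV n b ^ 3 + τ * PP n b ^ 6))) ≤
      ∑ ω, w ω * (cl (l * gg (c 1) b i (Y ω)) * cl (l * gg (c 1) b i' (Y ω)) *
        (ph c M (Y ω + z + z') - ph c M (Y ω + z) - ph c M (Y ω + z') + ph c M (Y ω))) := by
  have h1 := (abs_le.1 (ord2' h hS hc b z z' i i' hl)).1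
  have h2 := mul_le_mul_of_nonneg_left (mom6' hN h hS (hc.norm_le one_ne_zero) b i)
    (by positivity : 0 ≤ 16 * l ^ 6)
  have h3 := mul_le_mul_of_nonneg_left (mom6' hN h hS (hc.norm_le one_ne_zero) b i')
    (by positivity : 0 ≤ 16 * l ^ 6)
  have h4 : ∑ ω, (1 / 4 * (w ω * ((1 + l * gg (c 1) b i (Y ω)) * (1 + l * gg (c 1) b i' (Y ω)) *
      (ph c M (Y ω + z + z') - ph c M (Y ω + z) - ph c M (Y ω + z') + ph c M (Y ω)))) -
      16 * l ^ 6 * (w ω * gg (c 1) b i (Y ω) ^ 6) - 16 * l ^ 6 * (w ω * gg (c 1) b i' (Y ω) ^ 6)) ≤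
      ∑ ω, w ω * (cl (l * gg (c 1) b i (Y ω)) * cl (l * gg (c 1) b i' (Y ω)) *
        (ph c M (Y ω + z + z') - ph c M (Y ω + z) - ph c M (Y ω + z') + ph c M (Y ω))) :=
    sum_le_sum fun ω _ => by
      have a0 := abs_le.1 (hc.abs_ph (Y ω + z + z'))
      have a1 := abs_le.1 (hc.abs_ph (Y ω + z))
      have a2 := abs_le.1 (hc.abs_ph (Y ω + z'))
      have a5 := abs_le.1 (hc.abs_ph (Y ω))
      have a3 := GainA_mul (cl_mul_sub (l * gg (c 1) b i (Y ω)) (l * gg (c 1) b i' (Y ω)))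
        (D := ph c M (Y ω + z + z') - ph c M (Y ω + z) - ph c M (Y ω + z') + ph c M (Y ω)) (K := 8)
        (abs_le.2 ⟨by linarith, by linarith⟩)
      have a4 := mul_le_mul_of_nonneg_left a3 (h.nn ω)
      linarith
  rw [sum_sub_distrib, sum_sub_distrib, ← mul_sum, ← mul_sum, ← mul_sum] at h4
  linarith

/-- As `BA.sum_er` and `BA.sum_main`. `∑ i ∈ R, mn` is a sum over `δ ∈ K` of
`‖c 1‖ ^ 2 ∑_R ‖ww i‖ ^ 2 - 2 ∑_R ‖ww (i + δ) - ww i‖ - 2 ∑_R ‖ww i‖ (x₀ + u δ i)`, at least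
`(VV - 2 ε) / 4 - 2 U - 2 PP x₀ - 4 U`. -/
theorem sum_mn (hc : Mino c M μ) (b : ZMod N) (R K : Finset (ZMod n)) {ε x₀ U D : ℝ}
    (hR : ∑ i ∈ Rᶜ, ‖ww b i‖ ≤ ε) (u : ZMod n → ZMod n → ℝ) (hx : 0 ≤ x₀)
    (hu0 : ∀ δ i, 0 ≤ u δ i) (hu : ∀ δ ∈ K, ∑ i, u δ i ≤ U)
    (hK : ∀ δ ∈ K, ∑ i, ‖ww b (i + δ) - ww b i‖ ≤ U)
    (hD : ∑ t ∈ Bad2 I M K, ‖c t.1‖ ≤ K.card * D) :
    K.card * ((VV n b - 2 * ε) / 4 - D * PP n b - (6 * U + 2 * PP n b * x₀)) ≤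
      ∑ i ∈ R, (mn (c 1) b K (fun δ => x₀ + u δ i) i - er2 c b I M K i) := by
  have h1 : 1 / 4 ≤ ‖c 1‖ ^ 2 := by nlinarith [hc.one]
  have h2 : VV n b - 2 * ε ≤ ∑ i ∈ R, ‖ww b i‖ ^ 2 := by
    have h3 : ∑ i ∈ Rᶜ, ‖ww b i‖ ^ 2 ≤ ∑ i ∈ Rᶜ, 2 * ‖ww b i‖ := sum_le_sum fun i _ => by
      nlinarith [norm_ww b i, norm_nonneg (ww b i)]
    rw [← mul_sum] at h3
    have h4 := sum_add_sum_compl R fun i => ‖ww b i‖ ^ 2
    unfold VV
    linarith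
  have sub : ∀ f : ZMod n → ℝ, (∀ i, 0 ≤ f i) → ∑ i ∈ R, f i ≤ ∑ i, f i := fun f hf =>
    sum_le_sum_of_subset_of_nonneg (subset_univ R) fun i _ _ => hf i
  have h5 : ∑ i ∈ R, er2 c b I M K i ≤ K.card * D * PP n b := by
    refine (sub _ fun i => sum_nonneg fun _ _ => by positivity).trans
      (le_trans (le_of_eq ?_) (mul_le_mul_of_nonneg_right hD (PP_nonneg b)))
    rw [sum_mul, sum_comm]
    refine sum_congr rfl fun t _ => ?_
    rw [← mul_sum, PP, ← Equiv.sum_comp (Equiv.addRight t.2.2) fun j => ‖ww b j‖]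
    rfl
  have h6 : 0 ≤ ∑ i ∈ R, ‖ww b i‖ ^ 2 := sum_nonneg fun _ _ => sq_nonneg _
  have h7 : K.card * ((VV n b - 2 * ε) / 4 - (6 * U + 2 * PP n b * x₀)) ≤
      ∑ i ∈ R, mn (c 1) b K (fun δ => x₀ + u δ i) i := by
    simp only [mn]
    rw [sum_comm, ← nsmul_eq_mul]
    refine card_nsmul_le_sum _ _ _ fun δ hδ => ?_
    have a1 := (sub _ fun i => norm_nonneg _).trans (hK δ hδ)
    have a2 := mul_le_mul_of_nonneg_right (sub _ fun i => norm_nonneg (ww b i)) hx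
    have a3 : ∑ i ∈ R, ‖ww b i‖ * u δ i ≤ 2 * U := by
      refine (sum_le_sum fun i _ => mul_le_mul_of_nonneg_right (norm_ww b i) (hu0 δ i)).trans ?_
      rw [← mul_sum]
      linarith [(sub _ (hu0 δ)).trans (hu δ hδ)]
    simp only [mul_add, mul_assoc, sum_sub_distrib, sum_add_distrib, ← mul_sum, ← sum_mul]
    unfold PP
    nlinarith
  rw [sum_sub_distrib]
  linarith

end Pool.Agent.Lib.MP_a01f70_lc.GA
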