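import Pool.Agent.Lib.MP_a01f70_lc.GA.Gain

/-! Comparison with the upper bound. -/

set_option autoImplicit false
set_option linter.unusedSectionVars false

noncomputable section

namespace Pool.Agent.Lib.MP_a01f70_lc.GA

open Finset ZMod BA
open scoped ComplexConjugate

variable {N n : ℕ} [NeZero N] [NeZero n]

/-- As `BA.LB_le` (file `BA/Main.lean`) with `gain'`: `a = P' - Q'`, `b = a d`,
`u δ i = ‖ww ((1 - pw δ) * d * Q') i‖`, `x₀ = 14 ρ θ₁`, `U = 14 * (1400 θ₁)` (`PP_le`, `Wt.mul`,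
`Wt 1400 Q'`). `hK`: `‖ww b (i + δ) - ww b i‖ = ‖ww ((pw δ - 1) * d * a) i‖` (`pw_add`, `ee_add`,
`norm_ee`). `hx`: `bw_phase` with `z i = pw (i + k) * ((1 - pw δ) * d)` (reindex by `i ↦ i + k`,
`PP_le`) and `GainA_sum` for the sum over `σ`. -/
theorem LB2_le (hN : N + 1 = 2 ^ n) {d θ θ₁ M C : ℕ} {c : ℤ → ℂ} {μ : ℝ} (hd : DD n d)
    (hc : Mino c M μ) (hS : Sep2 n (II (d : ZMod N) θ) M C) {a : ZMod N} (ha : Wt 1400 a)
    (R K : Finset (ZMod n)) (hK : ∀ δ ∈ K, Wt θ₁ ((pw N δ - 1) * (d : ZMod N)))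
    (hD : ∑ t ∈ Bad2 (II (d : ZMod N) θ) M K, ‖c t.1‖ ≤ K.card * (2 ^ 41 * μ + 48 / 2 ^ 20))
    {ρ q l ε : ℝ} (hρ0 : 0 ≤ ρ) (hρ1 : ρ ≤ 1 / 2) (hq0 : 0 ≤ q) (hq1 : q ≤ 1) (hl : 0 ≤ l)
    (hR : ∑ i ∈ Rᶜ, ‖ww (a * (d : ZMod N)) i‖ ≤ ε) :
    LB2 μ (Real.exp (-(ρ * θ / 4))) M (1 + Real.log M) ε q l (VV n (a * (d : ZMod N)))
      (PP n (a * (d : ZMod N))) R.card C K.card
      (6 * (19600 * θ₁) + 2 * PP n (a * (d : ZMod N)) * (14 * ρ * θ₁) +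
        2 * q * PP n (a * (d : ZMod N)) * (19600 * θ₁)) ≤ 2 * (ρ + 1400 * q) := by
  have ha' := ha
  obtain ⟨P, Q, hT, hPQ⟩ := ha
  obtain ⟨u, hu⟩ : ∃ u : ZMod N, u = (Q.map (2 ^ ·)).sum := ⟨_, rfl⟩
  have hup := upper hN hd hc P Q hT hρ0 (hρ1.trans (by norm_num)) hq0 hq1
    (fun σ β i => cl (l * gg (c 1) (a * (d : ZMod N)) i
      ((d : ZMod N) * ∑ i ∈ β, pw N i + (d : ZMod N) * ∑ i ∈ σ, pw N i * u)))
    (fun _ _ _ => cl_nonneg _) fun _ _ _ => cl_le _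
  rw [← hPQ, ← hu] at hup
  have hwu : Wt 1400 u := ⟨Q, 0, by simp; omega, by simp [hu]⟩
  have hneg : ∀ δ ∈ K, Wt θ₁ ((1 - pw N δ) * (d : ZMod N)) := fun δ hδ => by
    simpa only [← neg_mul, neg_sub] using (hK δ hδ).neg
  have cast : (14 : ℝ) * ((θ₁ * 1400 : ℕ) : ℝ) = 19600 * θ₁ := by
    push_cast
    ring
  have h1 : ∀ δ ∈ K, ∑ i : ZMod n, ‖ww ((1 - pw N δ) * (d : ZMod N) * u) i‖ ≤ 19600 * θ₁ :=
    fun δ hδ => (PP_le hN ((hneg δ hδ).mul hwu)).trans_eq cast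
  have h2 : ∀ δ ∈ K, ∑ i : ZMod n, ‖ww (a * (d : ZMod N)) (i + δ) - ww (a * (d : ZMod N)) i‖ ≤
      19600 * θ₁ := fun δ hδ => by
    refine le_trans (le_of_eq (sum_congr rfl fun i _ => ?_))
      ((PP_le hN ((hK δ hδ).mul ha')).trans_eq cast)
    rw [ww, ww, ww, sub_sub_sub_cancel_right, show pw N (i + δ) * (a * d) =
      pw N i * (a * d) + pw N i * ((pw N δ - 1) * d * a) by rw [pw_add hN]; ring, ee_add,
      ← mul_sub_one, norm_mul, norm_ee, one_mul]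
  have h3 : ∀ (k : ZMod n) (σ : Finset (ZMod n)), ∀ δ ∈ K, ∑ β, bw (fun _ : ZMod n => ρ) β *
      ‖ee ((1 - pw N δ) * (pw N k * ((d : ZMod N) * ∑ i ∈ β, pw N i +
        (d : ZMod N) * ∑ i ∈ σ, pw N i * u))) - 1‖ ≤
      14 * ρ * θ₁ + ∑ j ∈ σ, ‖ww ((1 - pw N δ) * (d : ZMod N) * u) (j + k)‖ := fun k σ δ hδ => by
    have e : ∀ β : Finset (ZMod n), (1 - pw N δ) * (pw N k * ((d : ZMod N) * ∑ i ∈ β, pw N i +
        (d : ZMod N) * ∑ i ∈ σ, pw N i * u)) = ∑ i ∈ β, pw N (i + k) * ((1 - pw N δ) * d) +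
          ∑ i ∈ σ, pw N (i + k) * ((1 - pw N δ) * d * u) := fun β => by
      simp only [pw_add hN, ← sum_mul]
      ring
    simp only [e]
    refine (bw_phase hρ0 (hρ1.trans (by norm_num)) _ _).trans (add_le_add ?_ (GainA_sum _ _))
    have := PP_le hN (hneg δ hδ)
    rw [PP, ← Equiv.sum_comp (Equiv.addRight k)] at this
    exact (mul_le_mul_of_nonneg_left this hρ0).trans_eq (by ring)
  have hg := fun k : ZMod n => gain' hN hS hc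
    (fun σ β => pw N k * ((d : ZMod N) * ∑ i ∈ β, pw N i + (d : ZMod N) * ∑ i ∈ σ, pw N i * u))
    (fun σ => good_bw hN hρ0 hρ1 _ _ k θ) (a * (d : ZMod N)) k R K hq0 hq1 hl hR
    (fun δ i => ‖ww ((1 - pw N δ) * (d : ZMod N) * u) i‖) (by positivity) (fun _ _ => norm_nonneg _) h1 h2
    (h3 k) hD
  simp only [gg_shift hN] at hg
  have h := (sum_le_sum fun k _ => hg k).trans hup
  rw [sum_const, card_univ, ZMod.card, nsmul_eq_mul] at h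
  have hn0 : (0 : ℝ) < n := Nat.cast_pos.2 (NeZero.pos n)
  simpa using le_of_mul_le_mul_left h hn0

end Pool.Agent.Lib.MP_a01f70_lc.GA
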