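import Pool.Agent.Lib.MP_a01f70_lc.GA.Defs

/-! The choice of the parameters. -/

set_option autoImplicit false
set_option linter.unusedSectionVars false

noncomputable section

namespace Pool.Agent.Lib.MP_a01f70_lc.GA

open Finset ZMod BA
open scoped ComplexConjugate

/-- The normalized error outside the bracket. -/
def ParA (X t m a e v p ρ C : ℝ) : ℝ :=
  3 + 2 * t * m * X ^ 1036 + 2 * m * e * X ^ 536 +
    ρ * (2 * t * m * (X ^ 1075 + p * X ^ 1030) +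
      4 * (C ^ 5 * (24 * v ^ 3 * X ^ 13 + t * p ^ 6 * X ^ 1153))) +
    ρ ^ 2 * (2 * a * (C * (2 * X ^ 36 + X ^ 111) + t * (X ^ 45 + p) ^ 2 * X ^ 1371) +
      32 * (C ^ 5 * (24 * v ^ 3 * X ^ 52 + t * p ^ 6 * X ^ 1192))) + 7 * ρ ^ 3 * X + 2800 * X ^ 44

/-- The normalized error inside the bracket. -/
def ParB (X e p : ℝ) : ℝ := e * X ^ 1119 / 2 + 2 ^ 41 * p * X ^ 115

theorem ParA_mono {x t m a e v p ρ C : ℝ} (x0 : 0 ≤ x) (x1 : x ≤ 1) (t0 : 0 ≤ t) (t1 : t ≤ 1)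
    (m0 : 0 ≤ m) (m1 : m ≤ 33) (a0 : 0 ≤ a) (a1 : a ≤ 400) (e0 : 0 ≤ e) (e1 : e ≤ 1) (v0 : 0 ≤ v)
    (v1 : v ≤ 56) (p0 : 0 ≤ p) (p1 : p ≤ 28) (r0 : 0 ≤ ρ) (r1 : ρ ≤ 2) (hC : 0 ≤ C) :
    ParA x t m a e v p ρ C ≤ ParA 1 1 33 400 1 56 28 2 C := by
  unfold ParA
  gcongr

theorem ParB_mono {x e p : ℝ} (x0 : 0 ≤ x) (x1 : x ≤ 1) (e1 : e ≤ 1) (p1 : p ≤ 28) :
    ParB x e p ≤ ParB 1 1 28 := by
  unfold ParB
  gcongr

theorem ParA_eq {x : ℝ} (hx : x ≠ 0) (τ M A ε V P r C κ E : ℝ) :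
    LB2 (x ^ 116) τ M A ε (x ^ 160) (x ^ 75) V P r C κ E - 2 * (x ^ 116 + 1400 * x ^ 160) =
      x ^ 115 * (κ * (V * x ^ 120 / 4 - 48 / 2 ^ 20 * (P * x ^ 120) - E * x ^ 120 -
        x * ParB x (ε / x ^ 1000) (P * x ^ 120)) / 2 - x * ParA x (τ / x ^ 1500)
        (M * x ^ 348) (A * x) (ε / x ^ 1000) (V * x ^ 120) (P * x ^ 120) (r * x ^ 121) C) := by
  obtain ⟨t, rfl⟩ : ∃ t, τ = t * x ^ 1500 :=
    ⟨τ / x ^ 1500, (div_mul_cancel₀ _ (pow_ne_zero _ hx)).symm⟩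
  obtain ⟨e, rfl⟩ : ∃ e, ε = e * x ^ 1000 :=
    ⟨ε / x ^ 1000, (div_mul_cancel₀ _ (pow_ne_zero _ hx)).symm⟩
  rw [mul_div_cancel_right₀ _ (pow_ne_zero _ hx), mul_div_cancel_right₀ _ (pow_ne_zero _ hx)]
  unfold LB2 ParA ParB
  ring

/-- The main term beats all errors for small `x`. -/
theorem num' (C : ℝ) (hC : 0 ≤ C) : ∃ x₀ : ℝ, 0 < x₀ ∧ ∀ x ρ τ M A ε V P r κ E : ℝ, 0 < x →
    x ≤ x₀ → ρ ≤ x ^ 116 → 0 ≤ τ → τ ≤ x ^ 1500 → 0 ≤ M → M * x ^ 348 ≤ 33 → 0 ≤ A →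
    A * x ≤ 400 → 0 ≤ ε → ε ≤ x ^ 1000 → 1 / 2 ≤ V * x ^ 120 → V ≤ 2 * P → P * x ^ 120 ≤ 28 →
    0 ≤ r → r * x ^ 121 ≤ 2 → 1 ≤ κ → E * x ^ 120 ≤ 1 / 20 →
    2 * (ρ + 1400 * x ^ 160) < LB2 (x ^ 116) τ M A ε (x ^ 160) (x ^ 75) V P r C κ E := by
  obtain ⟨K, hK⟩ : ∃ K, K = ParA 1 1 33 400 1 56 28 2 C := ⟨_, rfl⟩
  obtain ⟨K', hK'⟩ : ∃ K, K = ParB 1 1 28 := ⟨_, rfl⟩
  refine ⟨min 1 (1 / (100 * (|K| + |K'| + 1))), by positivity,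
    fun x ρ τ M A ε V P r κ E hx hx0 hρ t0 t1 m0 m1 a0 a1 e0 e1 v0 v1 p1 r0 r1 hκ hE => ?_⟩
  have hx1 : x ≤ 1 := hx0.trans (min_le_left _ _)
  have hp := fun k : ℕ => pow_pos hx k
  have v2 : V * x ^ 120 ≤ 2 * (P * x ^ 120) := by
    rw [← mul_assoc]
    exact mul_le_mul_of_nonneg_right v1 (hp _).le
  have hG := ParA_mono hx.le hx1 (div_nonneg t0 (hp _).le) ((div_le_one (hp _)).2 t1)
    (mul_nonneg m0 (hp _).le) m1 (mul_nonneg a0 hx.le) a1 (div_nonneg e0 (hp _).le)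
    ((div_le_one (hp _)).2 e1) (v := V * x ^ 120) (by linarith) (by linarith) (by linarith) p1
    (mul_nonneg r0 (hp _).le) r1 hC
  have hG' := ParB_mono hx.le hx1 ((div_le_one (hp _)).2 e1) p1
  have h1 : x * (|K| + |K'| + 1) ≤ 1 / 100 := by
    have h2 := hx0.trans (min_le_right _ _)
    rw [le_div_iff₀ (by positivity)] at h2
    linarith
  have h2 := mul_le_mul_of_nonneg_left (hG.trans (hK.ge.trans (le_abs_self K))) hx.le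
  have h3 := mul_le_mul_of_nonneg_left (hG'.trans (hK'.ge.trans (le_abs_self K'))) hx.le
  have h4 := mul_nonneg hx.le (abs_nonneg K)
  have h5 := mul_nonneg hx.le (abs_nonneg K')
  refine lt_of_le_of_lt (b := 2 * (x ^ 116 + 1400 * x ^ 160)) (by linarith) ?_
  rw [← sub_pos, ParA_eq hx.ne']
  have h6 : 1 / 16 ≤ V * x ^ 120 / 4 - 48 / 2 ^ 20 * (P * x ^ 120) - E * x ^ 120 -
      x * ParB x (ε / x ^ 1000) (P * x ^ 120) := by linarith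
  have h7 := mul_le_mul hκ h6 (by norm_num) (by linarith)
  exact mul_pos (hp _) (by linarith)

theorem large' (k k' : ℕ) : ∃ y₀ : ℕ, ∀ y : ℕ, y₀ ≤ y →
    (y + 1) ^ k ≤ 2 * y ^ k ∧ (y : ℝ) ^ k' ≤ Real.exp (y / 4) := by
  have h1 : Filter.Tendsto (fun y : ℕ => (1 + 1 / (y : ℝ)) ^ k) Filter.atTop
      (nhds ((1 + 0) ^ k)) := (tendsto_one_div_atTop_nhds_zero_nat.const_add 1).pow k
  have h2 := tendsto_natCast_atTop_atTop.eventually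
    (isLittleO_pow_exp_pos_mul_atTop k' (b := 1 / 4) (by norm_num)).eventuallyLE
  obtain ⟨y₀, h⟩ := Filter.eventually_atTop.1 (((h1.eventually (gt_mem_nhds (a := 2)
    (by norm_num))).and h2).and (Filter.eventually_gt_atTop 0))
  refine ⟨y₀, fun y hy => ?_⟩
  obtain ⟨⟨h3, h4⟩, h5⟩ := h y hy
  have h6 : (0 : ℝ) < y := Nat.cast_pos.2 h5
  constructor
  · rw [one_add_div h6.ne', div_pow, div_lt_iff₀ (pow_pos h6 k)] at h3
    exact_mod_cast h3.le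
  · rw [Real.norm_of_nonneg (pow_pos h6 _).le, Real.norm_of_nonneg (Real.exp_pos _).le] at h4
    rwa [div_eq_inv_mul, ← one_div]

theorem exists_root' {k : ℕ} (hk : k ≠ 0) (s : ℕ) : ∃ y : ℕ, y ^ k ≤ s ∧ s < (y + 1) ^ k := by
  exact ⟨Nat.nthRoot k s, Nat.pow_nthRoot_le (Or.inl hk), Nat.lt_pow_nthRoot_add_one hk s⟩

/-- Otherwise the cardinality grows at each step. -/
theorem exists_stop {α : Type} (f : ℕ → Finset α) (hf : ∀ t, f t ⊆ f (t + 1)) {c : ℕ}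
    (hc : ∀ t, (f t).card ≤ c) : ∃ t ≤ c, f (t + 1) ⊆ f t := by
  by_contra h
  have h1 : ∀ t ≤ c + 1, t ≤ (f t).card := by
    intro t ht
    induction t with
    | zero => exact Nat.zero_le _
    | succ t ih =>
      exact (ih (by omega)).trans_lt (card_lt_card ⟨hf t, fun e => h ⟨t, by omega, e⟩⟩)
  exact absurd ((h1 _ le_rfl).trans (hc _)) (by omega)

end Pool.Agent.Lib.MP_a01f70_lc.GA
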