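import Pool.Agent.Lib.MP_a01f70_lc.GA.LBle
import Pool.Agent.Lib.MP_a01f70_lc.GA.Par
import Pool.Agent.Lib.MP_a01f70_lc.GA.ArC
import Pool.Agent.Lib.MP_a01f70_lc.GA.ArD

/-! The contradiction in the arithmetic setting. -/

set_option autoImplicit false
set_option linter.unusedSectionVars false

noncomputable section

namespace Pool.Agent.Lib.MP_a01f70_lc.GA

open Finset ZMod BA
open scoped ComplexConjugate

variable {N n : ℕ} [NeZero N] [NeZero n]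

theorem Least_E {x t P u : ℝ} (hx0 : 0 < x) (hx : x ≤ 1 / 10 ^ 5) (ht0 : 0 ≤ t)
    (ht : t * x ^ 118 ≤ 1) (hP0 : 0 ≤ P) (hP : P * x ^ 120 ≤ 28) (hu0 : 0 ≤ u)
    (hu : u * t ≤ 1 / 10 ^ 5) :
    (6 * (19600 * t) + 2 * P * (14 * u * t) + 2 * x ^ 160 * P * (19600 * t)) * x ^ 120 ≤ 1 / 20 := by
  have h2 : x ^ 2 ≤ (1 / 10 ^ 5) ^ 2 := pow_le_pow_left₀ hx0.le hx 2
  have h42 : x ^ 42 ≤ x ^ 2 := pow_le_pow_of_le_one hx0.le (by linarith) (by norm_num)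
  have a0 : 0 ≤ t * x ^ 118 := by positivity
  have p0 : 0 ≤ P * x ^ 120 := by positivity
  have h3 : t * x ^ 118 * x ^ 2 ≤ 1 * (1 / 10 ^ 5) ^ 2 :=
    mul_le_mul ht h2 (by positivity) zero_le_one
  have h4 : P * x ^ 120 * (u * t) ≤ 28 * (1 / 10 ^ 5) :=
    mul_le_mul hP hu (mul_nonneg hu0 ht0) (by norm_num)
  have h5 : t * x ^ 118 * x ^ 42 ≤ 1 * (1 / 10 ^ 5) ^ 2 :=
    mul_le_mul ht (h42.trans h2) (by positivity) zero_le_one
  have h6 : P * x ^ 120 * (t * x ^ 118 * x ^ 42) ≤ 28 * (1 * (1 / 10 ^ 5) ^ 2) :=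
    mul_le_mul hP h5 (by positivity) (by norm_num)
  have e : (6 * (19600 * t) + 2 * P * (14 * u * t) + 2 * x ^ 160 * P * (19600 * t)) * x ^ 120 =
      117600 * (t * x ^ 118 * x ^ 2) + 28 * (P * x ^ 120 * (u * t)) +
        39200 * (P * x ^ 120 * (t * x ^ 118 * x ^ 42)) := by ring
  rw [e]
  norm_num at h3 h4 h6 ⊢
  linarith

/-- As the second half of `BA.least` (file `BA/Main.lean`): `x = 1 / B`, `ρ = 1 / (θ₁ y)`,
`q = x ^ 160`, `l = x ^ 75`, `R` from `rel hN B`, `K = K1 n m d θ₁` (contains `0`), `LB2_le` with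
`Ar.sep2`, `Ar.sum_bad`, against `num' (4097 c ^ 2)`. `ρ θ / 4 = y / 4`; `le_VV` (`a ∉ G`, `min`);
`E x ^ 120 ≤ 117600 x ^ 2 + 784 / y + 56 * 19600 x ^ 42 ≤ 1 / 20`. `B₀` is at least the constant of
`BA.large`, `1 / x₀` and `10 ^ 5`. -/
theorem contra (c : ℕ) : ∃ B₀ : ℕ, ∀ (N n : ℕ) [NeZero N] [NeZero n] (m d s θ₁ B M y : ℕ)
    (G : Ideal (ZMod N)) (a : ZMod N) (c' : ℤ → ℂ), DD n d →
    Ar n m c G (d : ZMod N) s (θ₁ * y ^ 2) θ₁ B M → Mino c' M ((1 / B) ^ 116) →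
    M ≤ 33 * B ^ 348 → B₀ ≤ B → 10 ^ 5 ≤ y → (B : ℝ) ^ 1500 ≤ Real.exp (y / 4) → B ^ 116 ≤ θ₁ →
    θ₁ ≤ B ^ 118 → B ^ 120 ≤ s → s + 1 ≤ 2 * B ^ 120 → a ∉ G → Wt 1400 a →
    Wt (s + 1) (a * d) → False := by
  classical
  obtain ⟨x₀, hx₀, hnum⟩ := num' ((4097 * (c * c) : ℕ) : ℝ) (Nat.cast_nonneg _)
  obtain ⟨B₀, hB₀⟩ := large
  obtain ⟨B₁, hB₁⟩ := exists_nat_gt (1 / x₀)
  refine ⟨B₀ + B₁ + 10 ^ 5, fun N n _ _ m d s θ₁ B M y G a c' hd h hc hMB hB hy l3 t1 t2 hB1 hB2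
    haG ha hs => ?_⟩
  have hN := h.hN
  obtain ⟨l1, l2, -, -⟩ := hB₀ B (by omega)
  have hB0 : (10 : ℝ) ^ 5 ≤ B := by exact_mod_cast (by omega : 10 ^ 5 ≤ B)
  have hy0 : (10 : ℝ) ^ 5 ≤ y := by exact_mod_cast hy
  have hBp : (0 : ℝ) < B := by linarith
  have hyp : (0 : ℝ) < y := by linarith
  obtain ⟨x, hx⟩ : ∃ x : ℝ, x = 1 / B := ⟨_, rfl⟩
  rw [← hx] at hc
  have hx0 : 0 < x := hx ▸ one_div_pos.2 hBp
  have hxB : ∀ k : ℕ, (B : ℝ) ^ k * x ^ k = 1 := fun k => by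
    rw [← mul_pow, hx, mul_one_div_cancel hBp.ne', one_pow]
  have hxs : x ≤ 1 / 10 ^ 5 := by rw [hx]; exact one_div_le_one_div_of_le (by norm_num) hB0
  have hx1 : x ≤ 1 := hxs.trans (by norm_num)
  have hxx : x ≤ x₀ := by
    have h1 : (B₁ : ℝ) ≤ B := by exact_mod_cast (by omega : B₁ ≤ B)
    rw [hx, one_div_le hBp hx₀]
    linarith
  have t1' : (B : ℝ) ^ 116 ≤ θ₁ := by exact_mod_cast t1
  have t2' : (θ₁ : ℝ) ≤ B ^ 118 := by exact_mod_cast t2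
  have tp : (0 : ℝ) < θ₁ := (pow_pos hBp _).trans_le t1'
  obtain ⟨ρ, hρ⟩ : ∃ ρ : ℝ, ρ = 1 / (θ₁ * y) := ⟨_, rfl⟩
  have hρ0 : 0 < ρ := hρ ▸ one_div_pos.2 (mul_pos tp hyp)
  have hρt : ρ * θ₁ = 1 / y := by rw [hρ]; field_simp
  have hρx : ρ ≤ x ^ 116 := by
    rw [hρ, hx, one_div_pow]
    exact one_div_le_one_div_of_le (pow_pos hBp _)
      (t1'.trans (le_mul_of_one_le_right tp.le (by linarith)))
  have hρ1 : ρ ≤ 1 / 2 :=
    hρx.trans ((pow_le_of_le_one hx0.le hx1 (by norm_num)).trans (hxs.trans (by norm_num)))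
  obtain ⟨R, hR1, hR2⟩ := rel hN B hs
  have hsB : ((s + 1 : ℕ) : ℝ) ≤ 2 * B ^ 120 := by exact_mod_cast hB2
  have hV := le_VV hN fun hw => haG (h.min a ha hw)
  have hP := PP_le hN hs
  have hP' : PP n (a * (d : ZMod N)) * x ^ 120 ≤ 28 := by
    have h2 := mul_le_mul_of_nonneg_right (by linarith : PP n (a * (d : ZMod N)) ≤ 28 * B ^ 120)
      (pow_pos hx0 120).le
    rwa [mul_assoc, hxB, mul_one] at h2
  have key := LB2_le hN hd hc h.sep2 ha R (K1 n m (d : ZMod N) θ₁)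
    (fun δ hδ => (mem_filter.1 hδ).2.2) (h.sum_bad hc) hρ0.le hρ1 (pow_pos hx0 160).le
    (pow_le_one₀ hx0.le hx1) (pow_pos hx0 75).le hR2
  refine absurd key (not_le.2 (hnum x _ _ _ _ _ _ _ _ _ _ hx0 hxx hρx (Real.exp_pos _).le ?_
    (Nat.cast_nonneg _) ?_ ?_ ?_ (le_trans (sum_nonneg fun _ _ => norm_nonneg _) hR2) ?_ ?_
    (VV_le _) hP' (Nat.cast_nonneg _) ?_ ?_ ?_))
  · have h1 : ρ * ((θ₁ * y ^ 2 : ℕ) : ℝ) = y := by
      push_cast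
      rw [← mul_assoc, hρt]
      field_simp
    rw [h1, Real.exp_neg, hx, one_div, inv_pow]
    exact inv_anti₀ (pow_pos hBp _) l3
  · have h1 : (M : ℝ) ≤ 33 * B ^ 348 := by exact_mod_cast hMB
    have h2 := mul_le_mul_of_nonneg_right h1 (pow_pos hx0 348).le
    rwa [mul_assoc, hxB, mul_one] at h2
  · have := Real.log_natCast_nonneg M
    linarith
  · have h1 := mul_le_mul_of_nonneg_right (log_le hc.pos (by omega) hMB) hx0.le
    have h2 := hxB 1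
    simp only [pow_one] at h2
    linarith
  · rw [div_le_iff₀ (pow_pos two_pos B)]
    have h1 : (28 : ℝ) ≤ B ^ 380 := (by linarith : (28 : ℝ) ≤ B).trans
      (le_self_pow₀ (by linarith) (by norm_num))
    calc (14 : ℝ) * ((s + 1 : ℕ) : ℝ) ≤ 28 * B ^ 120 := by linarith
      _ ≤ B ^ 380 * B ^ 120 := mul_le_mul_of_nonneg_right h1 (pow_pos hBp _).le
      _ = x ^ 1000 * B ^ 1500 := by linear_combination (-(B : ℝ) ^ 500) * hxB 1000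
      _ ≤ x ^ 1000 * 2 ^ B := mul_le_mul_of_nonneg_left l2 (pow_pos hx0 _).le
  · have h1 : (B : ℝ) ^ 120 ≤ s := by exact_mod_cast hB1
    have h2 := mul_le_mul_of_nonneg_right (h1.trans hV) (pow_pos hx0 120).le
    rw [hxB] at h2
    linarith
  · have h1 : (R.card : ℝ) ≤ ((s + 1 : ℕ) : ℝ) * B := by exact_mod_cast hR1
    have h2 : (R.card : ℝ) ≤ 2 * B ^ 121 := by
      refine h1.trans ((mul_le_mul_of_nonneg_right hsB hBp.le).trans_eq ?_)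
      ring
    have h3 := mul_le_mul_of_nonneg_right h2 (pow_pos hx0 121).le
    rwa [mul_assoc, hxB, mul_one] at h3
  · have h0 : (0 : ZMod n) ∈ K1 n m (d : ZMod N) θ₁ :=
      mem_filter.2 ⟨mem_univ _, dvd_zero _, by rw [pw_zero, sub_self, zero_mul]; exact wt_zero _⟩
    exact_mod_cast card_pos.2 ⟨_, h0⟩
  · refine Least_E hx0 hxs tp.le ?_ (PP_nonneg _) hP' hρ0.le ?_
    · have h2 := mul_le_mul_of_nonneg_right t2' (pow_pos hx0 118).le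
      rwa [hxB] at h2
    · rw [hρt]
      exact one_div_le_one_div_of_le (by norm_num) hy0

end Pool.Agent.Lib.MP_a01f70_lc.GA
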