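import Pool.Agent.Lib.MP_a01f70_lc.GA.Defs

/-! The upper bound with a multiplier and a correction. -/

set_option autoImplicit false
set_option linter.unusedSectionVars false

noncomputable section

namespace Pool.Agent.Lib.MP_a01f70_lc.GA

open Finset ZMod BA
open scoped ComplexConjugate

variable {N n : ℕ} [NeZero N] [NeZero n]

/-- The random multiplier: background, prepaid part, correction. -/
def XX (d u : ZMod N) (m : ℕ) (z : Finset (ZMod n) → ℕ) (σ β : Finset (ZMod n)) : ZMod N :=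
  d * m * ∑ i ∈ β, pw N i + d * (∑ i ∈ σ, pw N i * u + z σ)

/-- `z = m - x.val % m`. -/
theorem exists_corr {m : ℕ} (hm : 0 < m) (x : ZMod N) :
    ∃ z : ℕ, z ≤ m ∧ ∃ x' : ZMod N, x + z = m * x' := by
  refine ⟨m - x.val % m, Nat.sub_le _ _, ((x.val / m + 1 : ℕ) : ZMod N), ?_⟩
  have h1 := Nat.mod_lt x.val hm
  have h2 : x.val + (m - x.val % m) = m * (x.val / m + 1) := by
    have := Nat.div_add_mod x.val m
    rw [mul_add, mul_one]
    omega
  rw [← Nat.cast_mul, ← h2, Nat.cast_add, natCast_zmod_val]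

theorem MUp_pt (hN : N + 1 = 2 ^ n) {μ : ℝ} {c : ℤ → ℂ} {M d T m : ℕ} (hd : DD n d)
    (hc : Mino c M μ) (P Q : Multiset ℕ) (hT : P.card + Q.card ≤ T) (z : Finset (ZMod n) → ℕ)
    (β : Finset (ZMod n)) {σ W : Finset (ZMod n)} (hz : z σ ≤ m) (hW : W ⊆ σ) :
    ∑ k : ZMod n, ph c M (pw N k * XX (d : ZMod N) (Q.map (2 ^ ·)).sum m z σ β +
      ∑ i ∈ W, pw N (i + k) * (((P.map (2 ^ ·)).sum - (Q.map (2 ^ ·)).sum) * d)) ≤
      2 * (m * β.card + T * σ.card + m) := by
  obtain ⟨R, h1, h2⟩ := upper_sum (T := m) (f := fun i => (m : ZMod N) * pw N i) β fun i =>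
    ⟨Multiset.replicate m i.val, by simp, by simp [pw]⟩
  obtain ⟨R', h3, h4⟩ := upper_sum (T := T)
    (f := fun i => pw N i * ((if i ∈ W then P else Q).map (2 ^ ·)).sum) σ fun i =>
      ⟨_, by rw [Multiset.card_map]; split_ifs <;> omega, upper_mul i _⟩
  have h5 : ∑ i ∈ σ, pw N i * (Q.map (2 ^ ·)).sum +
      ∑ i ∈ W, pw N i * ((P.map (2 ^ ·)).sum - (Q.map (2 ^ ·)).sum) = (R'.map (2 ^ ·)).sum := by
    rw [← h4, ← sum_ite_mem_eq, ← sum_ite_mem_eq σ, ← sum_ite_mem_eq W, ← sum_add_distrib]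
    refine sum_congr rfl fun i _ => ?_
    by_cases h : i ∈ W
    · simp only [h, hW h, if_true]
      ring
    · simp only [h, if_false, add_zero]
  have h6 : ((Multiset.replicate (z σ) 0).map ((2 : ZMod N) ^ ·)).sum = z σ := by simp
  refine le_trans (sum_le_sum fun k _ => (hc.ph_le _).trans_eq ?_)
    ((link hN hd (R + R' + Multiset.replicate (z σ) 0)).trans ?_)
  · rw [Multiset.map_add, Multiset.sum_add, Multiset.map_add, Multiset.sum_add, ← h2, ← h5, h6,
      ← mul_sum, XX]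
    congr 2
    simp only [pw_add hN]
    rw [← sum_mul W, ← sum_mul W, ← sum_mul W]
    ring
  · rw [Multiset.card_add, Multiset.card_add, Multiset.card_replicate]
    exact_mod_cast (by omega : 2 * (R.card + R'.card + z σ) ≤ 2 * (m * β.card + T * σ.card + m))

/-- Copy `BA.upper_pt` and `BA.upper` (file `BA/Upper.lean`). The multiset of exponents has three
parts: `upper_sum` with `f i = m * pw i` (`Multiset.replicate m i.val`), the part of `σ` as before,
and `Multiset.replicate (z σ) 0`; so the pointwise bound is `2 * (m * β.card + T * σ.card + m)`. -/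
theorem upper' (hN : N + 1 = 2 ^ n) {μ : ℝ} {c : ℤ → ℂ} {M d T m : ℕ} (hd : DD n d)
    (hc : Mino c M μ) (P Q : Multiset ℕ) (hT : P.card + Q.card ≤ T) (z : Finset (ZMod n) → ℕ)
    (hz : ∀ σ, z σ ≤ m) {ρ q : ℝ} (hρ0 : 0 ≤ ρ) (hρ1 : ρ ≤ 1) (hq0 : 0 ≤ q) (hq1 : q ≤ 1)
    (p : Finset (ZMod n) → Finset (ZMod n) → ZMod n → ℝ) (h0 : ∀ σ β i, 0 ≤ p σ β i)
    (h1 : ∀ σ β i, p σ β i ≤ 1) :
    ∑ k : ZMod n, ∑ σ, bw (fun _ : ZMod n => q) σ * ∑ β, bw (fun _ : ZMod n => ρ) β *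
      ∑ W, bw (fun i => if i ∈ σ then p σ β i else 0) W *
        ph c M (pw N k * XX (d : ZMod N) (Q.map (2 ^ ·)).sum m z σ β +
          ∑ i ∈ W, pw N (i + k) * (((P.map (2 ^ ·)).sum - (Q.map (2 ^ ·)).sum) * d)) ≤
      n * (2 * (m * ρ + T * q)) + 2 * m := by
  have key : ∀ (t a b : ℝ), ∑ σ, bw (fun _ : ZMod n => t) σ * (a + b * σ.card) = a + b * (n * t) :=
    fun t a b => by
      simp only [mul_add, sum_add_distrib, mul_left_comm _ b]
      rw [← sum_mul, ← mul_sum, sum_bw, sum_bw_card, one_mul, sum_const, card_univ, ZMod.card,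
        nsmul_eq_mul]
  rw [sum_comm, show (n : ℝ) * (2 * (m * ρ + T * q)) + 2 * m =
    2 * m + 2 * m * (n * ρ) + 2 * T * (n * q) by ring, ← key q]
  refine sum_le_sum fun σ _ => ?_
  rw [← mul_sum]
  refine mul_le_mul_of_nonneg_left ?_ (bw_nonneg (fun _ => hq0) (fun _ => hq1) σ)
  rw [sum_comm, add_right_comm (2 * (m : ℝ)), ← key ρ]
  refine sum_le_sum fun β _ => ?_
  rw [← mul_sum]
  refine mul_le_mul_of_nonneg_left ?_ (bw_nonneg (fun _ => hρ0) (fun _ => hρ1) β)
  rw [sum_comm, ← one_mul (2 * (m : ℝ) + 2 * (T : ℝ) * σ.card + 2 * m * β.card),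
    ← sum_bw fun i => if i ∈ σ then p σ β i else 0, sum_mul]
  refine sum_le_sum fun W _ => ?_
  rw [← mul_sum]
  by_cases hW : W ⊆ σ
  · refine mul_le_mul_of_nonneg_left ((MUp_pt hN hd hc P Q hT z β (hz σ) hW).trans_eq (by ring))
      (bw_nonneg (fun i => ?_) (fun i => ?_) W)
    · split_ifs
      exacts [h0 _ _ _, le_rfl]
    · split_ifs
      exacts [h1 _ _ _, zero_le_one]
  · rw [bw_eq_zero _ hW, zero_mul, zero_mul]

/-- Copy `BA.exists_mino` (file `BA/Mino.lean`); `c' 1 = 2 * c 1`. -/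
theorem exists_mino' {μ : ℝ} (h0 : 0 < μ) (h1 : μ ≤ 1 / 16) :
    ∃ (M : ℕ) (c : ℤ → ℂ), M * μ ^ 3 ≤ 33 ∧ Mino c M μ ∧ ‖c 1 - 2 * Complex.I / Real.pi‖ ≤ μ := by
  obtain ⟨M, c, K, hM, hM1, hK, k0, k1, k2, c0, cj, dec, c1, ev⟩ := exists_fej h0 h1
  have hpi := Real.pi_gt_three
  have e : ∀ x, phR (fun a => 2 * c a - if a = 0 then ((1 + μ / 2 : ℝ) : ℂ) else 0) M x =
      2 * K x - 1 - μ / 2 := fun x => by
    have e1 : ∀ a : ℤ, Complex.exp (2 * Real.pi * Complex.I * a * x) = ex (a * x) := fun a => by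
      rw [ex]
      push_cast
      ring_nf
    have e2 : ex 0 = 1 := by simp [ex]
    simp only [phR, e1]
    simp only [sub_mul, sum_sub_distrib, mul_assoc, ← mul_sum, ← hK, ite_mul, zero_mul]
    rw [sum_ite_eq', if_pos (by simp)]
    simp [e2]
    ring
  refine ⟨M, fun a => 2 * c a - if a = 0 then ((1 + μ / 2 : ℝ) : ℂ) else 0, hM, ⟨hM1, fun a => ?_,
    fun a ha => ?_, fun a ha => ?_, ?_, fun x => ?_, fun x => ?_, fun x a b => ?_⟩, ?_⟩
  · simp only [cj, neg_eq_zero, map_sub, map_mul, map_ofNat]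
    split_ifs
    · rw [Complex.conj_ofReal]
    · rw [map_zero]
  · have h2 : (0 : ℝ) < |(a : ℝ)| := abs_pos.2 (Int.cast_ne_zero.2 ha)
    simp only [if_neg ha, sub_zero, norm_mul, Complex.norm_ofNat]
    refine (mul_le_mul_of_nonneg_left (dec a ha) zero_le_two).trans ?_
    rw [mul_one_div, div_le_div_iff₀ (by positivity) h2]
    nlinarith
  · by_cases h : a = 0
    · have e3 : 2 * c a - ((1 + μ / 2 : ℝ) : ℂ) = ((-μ : ℝ) : ℂ) := by
        rw [h, c0]
        push_cast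
        ring
      simp only [if_pos h, e3, Complex.norm_real, Real.norm_eq_abs, abs_neg, abs_of_pos h0, le_refl]
    · simp only [if_neg h, sub_zero, norm_mul, Complex.norm_ofNat]
      linarith [ev a h ha]
  · have h2 := norm_sub_norm_le (Complex.I / Real.pi) (c 1)
    rw [norm_sub_rev, norm_div, Complex.norm_I, Complex.norm_real, Real.norm_eq_abs,
      abs_of_pos Real.pi_pos] at h2
    have h3 : (5 / 16 : ℝ) ≤ 1 / Real.pi := by
      rw [le_div_iff₀ Real.pi_pos]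
      linarith [Real.pi_lt_d2]
    simp only [one_ne_zero, if_false, sub_zero, norm_mul, Complex.norm_ofNat]
    linarith
  · rw [e, abs_le]
    constructor <;> linarith [k0 x, k1 x]
  · rw [e]
    linarith [k1 x]
  · rw [e]
    linarith [k2 x a b]
  · simp only [one_ne_zero, if_false, sub_zero]
    rw [mul_div_assoc, ← mul_sub, norm_mul, Complex.norm_ofNat]
    linarith

end Pool.Agent.Lib.MP_a01f70_lc.GA
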