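import Pool.Agent.Lib.MP_a01f70_lc.GA.Core
import Pool.Agent.Lib.MP_a01f70_lc.GA.MUp

/-! Summation over the positions; the phase of a near frequency. -/

set_option autoImplicit false
set_option linter.unusedSectionVars false

noncomputable section

namespace Pool.Agent.Lib.MP_a01f70_lc.GA

open Finset ZMod BA
open scoped ComplexConjugate

variable {N n : ℕ} [NeZero N] [NeZero n]

/-- `η * d * (m * y) = ξ * (m * y)`, so the argument is
`ξ u + (∑ j ∈ β, pw (j - i) * (m ξ) + (∑ j ∈ σ.erase i, pw (j - i) * (ξ u) + z σ * (pw (-i) ξ)))`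
(`add_sum_erase`, `pw_add`, `pw_neg_mul`), and `‖ee (a + r) - ee a‖ = ‖ee r - 1‖`. `bw_phase`,
`test_ee` (multiples by `m` and `z σ ≤ m`), reindex `j ↦ j - i`, `PP_le`, `norm_ee_add`,
`GainA_sum`. -/
theorem phase (hN : N + 1 = 2 ^ n) {ρ : ℝ} (h0 : 0 ≤ ρ) (h1 : ρ ≤ 1) {η ξ d u : ZMod N}
    {m s : ℕ} (hm : (m : ZMod N) * (η * d - ξ) = 0) (hs : Wt s ξ) (z : Finset (ZMod n) → ℕ)
    {σ : Finset (ZMod n)} (hz : z σ ≤ m) (hx : ∃ x', ∑ j ∈ σ, pw N j * u + z σ = m * x')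
    {i : ZMod n} (hi : i ∈ σ) :
    ∑ β, bw (fun _ : ZMod n => ρ) β * ‖ee (η * (pw N (-i) * XX d u m z σ β)) - ee (ξ * u)‖ ≤
      14 * s * m * ρ + m * ‖ww ξ (-i)‖ + ∑ j ∈ σ.erase i, ‖ww (ξ * u) (j - i)‖ := by
  obtain ⟨x', hx⟩ := hx
  have e : ∀ β : Finset (ZMod n), η * (pw N (-i) * XX d u m z σ β) =
      ξ * u + (∑ j ∈ β, pw N (j - i) * (m * ξ) +
        (∑ j ∈ σ.erase i, pw N (j - i) * (ξ * u) + z σ * (pw N (-i) * ξ))) := fun β => by
    have h2 : ∑ j ∈ σ.erase i, pw N (j - i) * (ξ * u) =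
        pw N (-i) * ξ * ∑ j ∈ σ, pw N j * u - ξ * u := by
      rw [← add_sum_erase _ _ hi, mul_add, mul_sum]
      have h3 : pw N (-i) * ξ * (pw N i * u) = ξ * u := by
        linear_combination ξ * u * pw_neg_mul hN i
      rw [h3, add_sub_cancel_left]
      refine sum_congr rfl fun j _ => ?_
      rw [sub_eq_add_neg, pw_add hN]
      ring
    have h4 : ∑ j ∈ β, pw N (j - i) * (m * ξ) = pw N (-i) * (m * ξ) * ∑ j ∈ β, pw N j := by
      rw [mul_sum]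
      refine sum_congr rfl fun j _ => ?_
      rw [sub_eq_add_neg, pw_add hN]
      ring
    rw [h2, h4, XX, hx]
    linear_combination pw N (-i) * (∑ j ∈ β, pw N j + x') * hm - pw N (-i) * ξ * hx
  have e2 : ∀ a r : ZMod N, ‖ee (a + r) - ee a‖ = ‖ee r - 1‖ := fun a r => by
    rw [ee_add, ← mul_sub_one, norm_mul, norm_ee, one_mul]
  simp only [e, e2]
  refine (bw_phase h0 h1 _ _).trans ?_
  have b1 : ∑ j : ZMod n, ‖ee (pw N (j - i) * ((m : ZMod N) * ξ)) - 1‖ ≤ m * (14 * s) := by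
    refine le_trans ?_ (mul_le_mul_of_nonneg_left (PP_le hN hs) (Nat.cast_nonneg m))
    rw [PP, ← Equiv.sum_comp (Equiv.subRight i) fun j => ‖ww ξ j‖, mul_sum]
    refine sum_le_sum fun j _ => ?_
    rw [mul_left_comm]
    simpa [ww] using test_ee m (pw N (j - i) * ξ)
  have b2 : ‖ee ((z σ : ZMod N) * (pw N (-i) * ξ)) - 1‖ ≤ m * ‖ww ξ (-i)‖ := by
    refine le_trans ?_ (mul_le_mul_of_nonneg_right (Nat.cast_le.2 hz) (norm_nonneg _))
    simpa [ww] using test_ee (z σ) (pw N (-i) * ξ)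
  have b3 := (norm_ee_add _ _).trans
    (add_le_add (GainA_sum (σ.erase i) fun j => pw N (j - i) * (ξ * u)) b2)
  have b4 := mul_le_mul_of_nonneg_left b1 h0
  unfold ww at *
  linarith

/-- For each `k` apply `core'` with `R = univ.filter (· + k ∈ Γ.image g)` (cardinality `Γ.card`),
`m i = ∑ γ ∈ Γ.filter (g · = i + k), mm γ i`, `v i j = ∑ γ ∈ Γ.filter (g · = i + k), vv γ i j`
(the filter is a singleton for `i ∈ R`), `α₂ = 8` (`Mino.abs_ph`), `trunc`. Sum over `k`: for fixed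
`γ`, `i` exactly one `k` has `g γ = i + k`. -/
theorem core_sum {Ω : Type} [Fintype Ω] {w : Ω → ℝ} (hw : ∀ ω, 0 ≤ w ω) (hw1 : ∑ ω, w ω = 1)
    {μ : ℝ} {c : ℤ → ℂ} {M : ℕ} (hc : Mino c M μ) (X : Finset (ZMod n) → Ω → ZMod N) (b : ZMod N)
    (p : Finset (ZMod n) → Ω → ZMod n → ℝ) (h0 : ∀ σ ω i, 0 ≤ p σ ω i) (h1 : ∀ σ ω i, p σ ω i ≤ 1)
    {Λ : Type} (Γ : Finset Λ) (g : Λ → ZMod n) (hg : Set.InjOn g Γ) {ε q α₀ : ℝ}
    (hR : ∑ j ∈ (Γ.image g)ᶜ, ‖ww b j‖ ≤ ε) (hq0 : 0 ≤ q) (hq1 : q ≤ 1) (mm : Λ → ZMod n → ℝ)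
    (vv : Λ → ZMod n → ZMod n → ℝ) (hv : ∀ γ i j, 0 ≤ vv γ i j)
    (g0 : ∀ (k : ZMod n) σ, -α₀ ≤ ∑ ω, w ω * ph c M (pw N k * X σ ω))
    (g1 : ∀ σ, ∀ γ ∈ Γ, ∀ i ∈ σ, mm γ i - ∑ j ∈ σ.erase i, vv γ i j ≤ ∑ ω, w ω * (p σ ω i *
      (ph c M (pw N (g γ - i) * X σ ω + pw N (g γ) * b) - ph c M (pw N (g γ - i) * X σ ω)))) :
    n * (-α₀ - 2 * M * ε - 8 * (q * Γ.card) ^ 2 - 7 * (q * Γ.card) ^ 3) +
        q * ∑ γ ∈ Γ, ∑ i, mm γ i - q ^ 2 * ∑ γ ∈ Γ, ∑ i, ∑ j, vv γ i j ≤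
      ∑ k : ZMod n, ∑ σ, bw (fun _ : ZMod n => q) σ * ∑ ω, w ω *
        ∑ W, bw (fun i => if i ∈ σ then p σ ω i else 0) W *
          ph c M (pw N k * X σ ω + ∑ i ∈ W, pw N (i + k) * b) := by
  classical
  have hf : ∀ k i : ZMod n, i + k ∈ Γ.image g → ∃ γ ∈ Γ, g γ = i + k ∧
      Γ.filter (fun γ => g γ = i + k) = {γ} := fun k i hi => by
    obtain ⟨γ, h2, h3⟩ := mem_image.1 hi
    refine ⟨γ, h2, h3, eq_singleton_iff_unique_mem.2 ⟨mem_filter.2 ⟨h2, h3⟩, fun γ' h4 => ?_⟩⟩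
    exact hg (mem_filter.1 h4).1 h2 ((mem_filter.1 h4).2.trans h3.symm)
  have key := fun k : ZMod n => core' w hw hw1 (fun σ ω => pw N k * X σ ω)
    (fun i => pw N (i + k) * b) (ph c M) hc.abs_ph p h0 h1
    (univ.filter fun i => i + k ∈ Γ.image g) (α₂ := 8)
    (fun i => ∑ γ ∈ Γ.filter (fun γ => g γ = i + k), mm γ i)
    (fun i j => ∑ γ ∈ Γ.filter (fun γ => g γ = i + k), vv γ i j)
    (fun i j => sum_nonneg fun γ _ => hv γ i j) hq0 hq1 (by norm_num) (trunc hc b k _ hR) (g0 k)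
    (fun σ i hi hi' => by
      obtain ⟨γ, h2, h3, h4⟩ := hf k i (mem_filter.1 hi).2
      have h5 := g1 σ γ h2 i hi'
      rw [h3, add_sub_cancel_left] at h5
      simpa only [h4, sum_singleton] using h5)
    fun σ i j => by
      rw [← one_mul (-8 : ℝ), ← hw1, sum_mul]
      refine sum_le_sum fun ω _ => mul_le_mul_of_nonneg_left ?_ (hw ω)
      have a0 := abs_le.1 (hc.abs_ph (pw N k * X σ ω + pw N (i + k) * b + pw N (j + k) * b))
      have a1 := abs_le.1 (hc.abs_ph (pw N k * X σ ω + pw N (i + k) * b))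
      have a2 := abs_le.1 (hc.abs_ph (pw N k * X σ ω + pw N (j + k) * b))
      have a3 := abs_le.1 (hc.abs_ph (pw N k * X σ ω))
      have a4 := mul_nonneg (h0 σ ω i) (h0 σ ω j)
      have a5 := mul_le_one₀ (h1 σ ω i) (h0 σ ω j) (h1 σ ω j)
      nlinarith
  have ec : ∀ k : ZMod n, (univ.filter fun i => i + k ∈ Γ.image g).card = Γ.card := fun k => by
    rw [← card_image_of_injOn hg]
    exact card_nbij' (· + k) (· - k) (by simp [Set.MapsTo]) (by simp [Set.MapsTo])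
      (by simp [Set.LeftInvOn]) (by simp [Set.RightInvOn, Set.LeftInvOn])
  have es : ∀ F : Λ → ZMod n → ℝ, ∑ k : ZMod n, ∑ i ∈ univ.filter (fun i => i + k ∈ Γ.image g),
      ∑ γ ∈ Γ.filter (fun γ => g γ = i + k), F γ i = ∑ γ ∈ Γ, ∑ i, F γ i := fun F => by
    have e1 : ∀ k : ZMod n, ∑ i ∈ univ.filter (fun i => i + k ∈ Γ.image g),
        ∑ γ ∈ Γ.filter (fun γ => g γ = i + k), F γ i =
        ∑ i, ∑ γ ∈ Γ, if g γ - i = k then F γ i else 0 := fun k => by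
      rw [sum_filter]
      refine sum_congr rfl fun i _ => ?_
      simp only [sub_eq_iff_eq_add', ← sum_filter]
      split_ifs with h
      · rfl
      · rw [filter_false_of_mem fun γ h2 (h3 : g γ = i + k) => h (h3 ▸ mem_image_of_mem g h2),
          sum_empty]
    simp only [e1]
    rw [sum_comm, sum_comm (s := Γ)]
    refine sum_congr rfl fun i _ => ?_
    rw [sum_comm]
    simp
  refine le_trans (le_of_eq ?_) (sum_le_sum fun k _ => key k)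
  simp only [ec, sum_sub_distrib, sum_add_distrib, ← mul_sum, sum_const, card_univ, ZMod.card,
    nsmul_eq_mul, es, sum_comm (s := (univ : Finset (ZMod n))) (t := Γ.filter _)]
  ring

end Pool.Agent.Lib.MP_a01f70_lc.GA
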