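import Pool.Agent.Lib.MP_a01f70_lc.GA.MOne
import Pool.Agent.Lib.MP_a01f70_lc.GA.MSum

/-! The mean field inequality at a finite level. -/

set_option autoImplicit false
set_option linter.unusedSectionVars false

noncomputable section

namespace Pool.Agent.Lib.MP_a01f70_lc.GA

open Finset ZMod BA
open scoped ComplexConjugate

variable {N n : ℕ} [NeZero N] [NeZero n]

/-- `z σ` from `exists_corr`, `X = XX d u m z`, `w = bw ρ`, `I = II (d * m) θ`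
(`good_bw hN hρ0 hρ1 (d * m) _ k θ`), `p σ β i = (1 + (∑ φ ∈ S, G φ * ee (f φ * (pw (-i) * X σ β))).re) / 2`.
`core_sum` with `α₀ = μ + τ (2 M)` (`ord0'`),
`mm γ i = (∑ t ∈ Z γ, ..).re / 2 - ∑ t ∈ Z γ, ‖G‖ ‖c‖ (14 s m ρ + m ‖ww (ξ γ t) (-i)‖) - τ (2 M) (1 + ∑ ‖G‖)`,
`vv γ i j = ∑ t ∈ Z γ, ‖G‖ ‖c‖ ‖ww (ξ γ t * u) (j - i)‖`; `g1` is `one_site` with `e = pw (g γ)`,
`Y = pw (-i) * X σ`, `z = pw (g γ) * b` and `phase` (`pw (g γ - i) = pw (g γ) * pw (-i)`; for `hI`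
remove the unit `pw (g γ)` with `wt_pw_mul`, `pw_neg_mul`). `∑ i, ‖ww ξ (-i)‖ ≤ 14 s`,
`∑ j, ‖ww (ξ u) (j - i)‖ ≤ 14 s T` (`PP_le`, `Wt.mul`). Compare with `upper'`, divide by `n`. -/
theorem level (hN : N + 1 = 2 ^ n) {d θ m s T M : ℕ} {μ : ℝ} {c : ℤ → ℂ} (hd : DD n d)
    (hc : Mino c M μ) (P Q : Multiset ℕ) (hT : P.card + Q.card ≤ T) (hm : 0 < m) {u b : ZMod N}
    (hu : u = (Q.map (2 ^ ·)).sum) (hb : b = ((P.map (2 ^ ·)).sum - u) * d) {Φ Λ : Type}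
    (S : Finset Φ) (f : Φ → ZMod N) (G : Φ → ℂ) (hG : ∀ y, ‖∑ φ ∈ S, G φ * ee (f φ * y)‖ ≤ 1)
    (Γ : Finset Λ) (g : Λ → ZMod n) (hg : Set.InjOn g Γ) {ε : ℝ}
    (hR : ∑ j ∈ (Γ.image g)ᶜ, ‖ww b j‖ ≤ ε) (Z : Λ → Finset (Φ × ℤ))
    (hZ : ∀ γ ∈ Γ, Z γ ⊆ S ×ˢ (Icc (-M : ℤ) M).erase 0) (ξ : Λ → Φ × ℤ → ZMod N)
    (hnear : ∀ γ ∈ Γ, ∀ t ∈ Z γ, Wt s (ξ γ t) ∧
      (m : ZMod N) * ((f t.1 + (t.2 : ZMod N) * pw N (g γ)) * d - ξ γ t) = 0)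
    (hfar : ∀ γ ∈ Γ, ∀ t ∈ S ×ˢ (Icc (-M : ℤ) M).erase 0, t ∉ Z γ →
      ¬Wt θ ((f t.1 + (t.2 : ZMod N) * pw N (g γ)) * (d * m)))
    (hint : ∀ a : ℤ, a ≠ 0 → |a| ≤ M → ¬Wt θ ((a : ZMod N) * (d * m))) {ρ q W : ℝ} (hρ0 : 0 ≤ ρ)
    (hρ1 : ρ ≤ 1 / 2) (hq0 : 0 ≤ q) (hq1 : q ≤ 1)
    (hW : ∑ γ ∈ Γ, ∑ t ∈ Z γ, ‖G t.1‖ * ‖c t.2‖ ≤ W) :
    q / 2 * (∑ γ ∈ Γ, ∑ t ∈ Z γ,
        G t.1 * c t.2 * (ee ((t.2 : ZMod N) * (pw N (g γ) * b)) - 1) * ee (ξ γ t * u)).re ≤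
      (2 + 14 * s * q * W) * (m * ρ + T * q + m / n) + μ + 2 * M * ε + 8 * (q * Γ.card) ^ 2 +
        7 * (q * Γ.card) ^ 3 +
        Real.exp (-(ρ * θ / 4)) * (2 * M) * (1 + q * Γ.card * (1 + ∑ φ ∈ S, ‖G φ‖)) := by
  choose z hz hx using fun σ : Finset (ZMod n) => exists_corr hm (∑ j ∈ σ, pw N j * u)
  obtain ⟨τ, hτ⟩ : ∃ τ, τ = Real.exp (-(ρ * θ / 4)) := ⟨_, rfl⟩
  have hρ : ρ ≤ 1 := hρ1.trans (by norm_num)
  have hgood : ∀ (k : ZMod n) σ, Good (bw fun _ : ZMod n => ρ)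
      (fun β => pw N k * XX (d : ZMod N) u m z σ β) {η | Wt θ (η * (d * m))} τ := fun k σ =>
    hτ ▸ good_bw hN hρ0 hρ1 _ _ k θ
  obtain ⟨p, hp⟩ : ∃ p : Finset (ZMod n) → Finset (ZMod n) → ZMod n → ℝ, p = fun σ β i =>
    (1 + (∑ φ ∈ S, G φ * ee (f φ * (pw N (-i) * XX (d : ZMod N) u m z σ β))).re) / 2 := ⟨_, rfl⟩
  have p01 : ∀ σ β i, 0 ≤ p σ β i ∧ p σ β i ≤ 1 := fun σ β i => by
    have := abs_le.1 ((Complex.abs_re_le_norm _).trans (hG (pw N (-i) * XX (d : ZMod N) u m z σ β)))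
    rw [hp]
    constructor <;> linarith [this.1, this.2]
  have hu' := upper' hN hd hc P Q hT z hz hρ0 hρ hq0 hq1 p (fun σ β i => (p01 σ β i).1)
    fun σ β i => (p01 σ β i).2
  rw [← hu, ← hb] at hu'
  have key := core_sum (hgood 0 ∅).nn (hgood 0 ∅).one hc (XX (d : ZMod N) u m z) b p
    (fun σ β i => (p01 σ β i).1) (fun σ β i => (p01 σ β i).2) Γ g hg hR hq0 hq1
    (fun γ i => (∑ t ∈ Z γ, G t.1 * c t.2 * (ee ((t.2 : ZMod N) * (pw N (g γ) * b)) - 1) *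
      ee (ξ γ t * u)).re / 2 - ∑ t ∈ Z γ, ‖G t.1‖ * ‖c t.2‖ * (14 * s * m * ρ + m * ‖ww (ξ γ t) (-i)‖) -
        τ * (2 * M) * (1 + ∑ φ ∈ S, ‖G φ‖))
    (fun γ i j => ∑ t ∈ Z γ, ‖G t.1‖ * ‖c t.2‖ * ‖ww (ξ γ t * u) (j - i)‖)
    (fun γ i j => sum_nonneg fun _ _ => by positivity) (fun k σ => ord0' (hgood k σ) hint hc)
    fun σ γ hγ i hi => by
      have h1 := one_site (hgood (-i) σ) hc (pw N (g γ)) (pw N (g γ) * b) (fun a a0 a1 h2 => by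
        refine hint a a0 a1 ?_
        have h3 := wt_pw_mul h2 (-g γ)
        rwa [show pw N (-g γ) * ((a : ZMod N) * pw N (g γ) * (d * m)) = a * (d * m) by
          linear_combination (a : ZMod N) * (d * m) * pw_neg_mul hN (g γ)] at h3) S f G (Z γ)
        (hZ γ hγ) (hfar γ hγ) (fun t => ee (ξ γ t * u)) _ fun t ht =>
          phase hN hρ0 hρ (hnear γ hγ t ht).2 (hnear γ hγ t ht).1 z (hz σ) (hx σ) hi
      rw [hp, sub_eq_add_neg (g γ), pw_add hN, sum_comm]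
      simp only [mul_add (‖G _‖ * _) (_ + _), sum_add_distrib, mul_sum (σ.erase i), mul_assoc (pw N _)]
        at h1 ⊢
      linarith
  have hs0 : (0 : ℝ) ≤ 14 * s := by positivity
  have hn0 : (0 : ℝ) < n := Nat.cast_pos.2 (NeZero.pos n)
  have b1 : ∑ γ ∈ Γ, ∑ i : ZMod n, ∑ t ∈ Z γ,
      ‖G t.1‖ * ‖c t.2‖ * (14 * s * m * ρ + m * ‖ww (ξ γ t) (-i)‖) ≤
      W * (n * (14 * s * m * ρ) + m * (14 * s)) := by
    refine le_trans ?_ (mul_le_mul_of_nonneg_right hW (by positivity))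
    rw [sum_mul]
    refine sum_le_sum fun γ hγ => ?_
    rw [sum_comm, sum_mul]
    refine sum_le_sum fun t ht => ?_
    rw [← mul_sum, sum_add_distrib, sum_const, card_univ, ZMod.card, nsmul_eq_mul, ← mul_sum]
    have := PP_le hN (hnear γ hγ t ht).1
    rw [PP, ← Equiv.sum_comp (Equiv.neg (ZMod n))] at this
    gcongr
    exact this
  have b2 : ∑ γ ∈ Γ, ∑ i : ZMod n, ∑ j : ZMod n, ∑ t ∈ Z γ,
      ‖G t.1‖ * ‖c t.2‖ * ‖ww (ξ γ t * u) (j - i)‖ ≤ W * (n * (14 * s * T)) := by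
    refine le_trans ?_ (mul_le_mul_of_nonneg_right hW (by positivity))
    rw [sum_mul]
    refine sum_le_sum fun γ hγ => ?_
    refine (sum_le_card_nsmul _ _ ((∑ t ∈ Z γ, ‖G t.1‖ * ‖c t.2‖) * (14 * s * T))
      fun i _ => ?_).trans_eq (by rw [card_univ, ZMod.card, nsmul_eq_mul]; ring)
    rw [sum_comm, sum_mul]
    refine sum_le_sum fun t ht => ?_
    have h1 : Wt T u := ⟨Q, 0, by simp; omega, by simp [hu]⟩
    have := PP_le hN ((hnear γ hγ t ht).1.mul h1)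
    rw [PP, ← Equiv.sum_comp (Equiv.subRight i), Nat.cast_mul, ← mul_assoc] at this
    rw [← mul_sum]
    exact mul_le_mul_of_nonneg_left this (by positivity)
  have h2 := key.trans hu'
  simp only [sum_sub_distrib, sum_const, card_univ, ZMod.card, nsmul_eq_mul, ← mul_sum,
    ← sum_div] at h2
  rw [← Complex.re_sum] at h2
  have b3 := mul_le_mul_of_nonneg_left b1 hq0
  have b4 := mul_le_mul_of_nonneg_left b2 (sq_nonneg q)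
  rw [← hτ]
  refine le_of_mul_le_mul_left ?_ hn0
  have e1 : (n : ℝ) * (m / n) = m := mul_div_cancel₀ _ hn0.ne'
  linear_combination h2 + b3 + b4 - (2 + 14 * s * q * W) * e1

end Pool.Agent.Lib.MP_a01f70_lc.GA
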