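import Pool.Agent.Lib.MP_a01f70_lc.GA.OrdA

/-! The term of first order at one site. -/

set_option autoImplicit false
set_option linter.unusedSectionVars false

noncomputable section

namespace Pool.Agent.Lib.MP_a01f70_lc.GA

open Finset ZMod BA
open scoped ComplexConjugate

variable {N n : ℕ} [NeZero N] [NeZero n]

variable {Ω : Type} [Fintype Ω] {w : Ω → ℝ} {Y : Ω → ZMod N} {I : Set (ZMod N)} {τ μ : ℝ}
  {c : ℤ → ℂ} {M : ℕ}

theorem good_mul (h : Good w Y I τ) (e : ZMod N) :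
    Good w (fun ω => e * Y ω) {η | η * e ∈ I} τ := by
  exact ⟨h.nn, h.one, h.tau, fun η hη => by simpa only [mul_assoc] using h.far (η * e) hη⟩

/-- `Δ = ph (e y + z) - ph (e y)` is real; the product is `Δ / 2 + (G y * Δ).re / 2`. First part:
`ord1a'` with `good_mul`. Second part: `Mino.diff`, `G y * Δ = ∑ t ∈ S ×ˢ A, γ t * ee (η t * y)` with
`γ t = G t.1 * c t.2 * (ee (t.2 * z) - 1)`, `η t = f t.1 + t.2 * e`, `‖γ t‖ ≤ 2 ‖G t.1‖ ‖c t.2‖`.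
Split into `Z` (use `hx`) and the complement (`Good.far`, `Mino.sum_norm'`). -/
theorem one_site (h : Good w Y I τ) (hc : Mino c M μ) (e z : ZMod N)
    (hI : ∀ a : ℤ, a ≠ 0 → |a| ≤ M → (a : ZMod N) * e ∉ I) {Φ : Type} (S : Finset Φ)
    (f : Φ → ZMod N) (G : Φ → ℂ) (Z : Finset (Φ × ℤ)) (hZ : Z ⊆ S ×ˢ (Icc (-M : ℤ) M).erase 0)
    (hfar : ∀ t ∈ S ×ˢ (Icc (-M : ℤ) M).erase 0, t ∉ Z → f t.1 + (t.2 : ZMod N) * e ∉ I)
    (π : Φ × ℤ → ℂ) (x : Φ × ℤ → ℝ)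
    (hx : ∀ t ∈ Z, ∑ ω, w ω * ‖ee ((f t.1 + (t.2 : ZMod N) * e) * Y ω) - π t‖ ≤ x t) :
    (∑ t ∈ Z, G t.1 * c t.2 * (ee ((t.2 : ZMod N) * z) - 1) * π t).re / 2 -
        ∑ t ∈ Z, ‖G t.1‖ * ‖c t.2‖ * x t - τ * (2 * M) * (1 + ∑ φ ∈ S, ‖G φ‖) ≤
      ∑ ω, w ω * ((1 + (∑ φ ∈ S, G φ * ee (f φ * Y ω)).re) / 2 *
        (ph c M (e * Y ω + z) - ph c M (e * Y ω))) := by
  classical
  have h1 := (abs_le.1 (ord1a' (good_mul h e) hI hc z)).1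
  obtain ⟨γ, hγ⟩ : ∃ γ : Φ × ℤ → ℂ, γ = fun t => G t.1 * c t.2 * (ee ((t.2 : ZMod N) * z) - 1) :=
    ⟨_, rfl⟩
  obtain ⟨η, hη⟩ : ∃ η : Φ × ℤ → ZMod N, η = fun t => f t.1 + (t.2 : ZMod N) * e := ⟨_, rfl⟩
  have hn : ∀ t, ‖γ t‖ ≤ 2 * (‖G t.1‖ * ‖c t.2‖) := fun t => by
    rw [hγ, norm_mul, norm_mul, mul_comm 2]
    exact mul_le_mul_of_nonneg_left (norm_ee_sub _) (by positivity)
  have e1 : ∀ y, (∑ φ ∈ S, G φ * ee (f φ * y)).re * (ph c M (e * y + z) - ph c M (e * y)) =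
      (∑ t ∈ S ×ˢ (Icc (-M : ℤ) M).erase 0, γ t * ee (η t * y)).re := fun y => by
    rw [← Complex.re_mul_ofReal, hc.diff, sum_mul_sum, sum_product]
    congr 1
    refine sum_congr rfl fun φ _ => sum_congr rfl fun a _ => ?_
    simp only [hγ, hη, add_mul, ee_add, mul_assoc (a : ZMod N)]
    ring
  have e2 : ∑ ω, (w ω : ℂ) * ∑ t ∈ S ×ˢ (Icc (-M : ℤ) M).erase 0, γ t * ee (η t * Y ω) -
      ∑ t ∈ Z, γ t * π t = ∑ t ∈ Z, γ t * ∑ ω, (w ω : ℂ) * (ee (η t * Y ω) - π t) +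
        ∑ t ∈ (S ×ˢ (Icc (-M : ℤ) M).erase 0) \ Z, γ t * ∑ ω, (w ω : ℂ) * ee (η t * Y ω) := by
    have e3 : ∑ ω, (w ω : ℂ) = 1 := by exact_mod_cast h.one
    simp only [mul_sub, sum_sub_distrib, ← sum_mul, e3, one_mul]
    rw [sub_add_eq_add_sub, add_comm, sum_sdiff hZ]
    simp only [mul_sum, mul_left_comm (γ _)]
    rw [sum_comm]
  have b1 : ‖∑ t ∈ Z, γ t * ∑ ω, (w ω : ℂ) * (ee (η t * Y ω) - π t)‖ ≤
      2 * ∑ t ∈ Z, ‖G t.1‖ * ‖c t.2‖ * x t := by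
    rw [mul_sum]
    refine norm_sum_le_of_le _ fun t ht => ?_
    rw [norm_mul, ← mul_assoc]
    refine mul_le_mul (hn t) (le_trans (norm_sum_le_of_le _ fun ω _ => ?_) (hx t ht))
      (norm_nonneg _) (by positivity)
    rw [norm_mul, Complex.norm_real, Real.norm_of_nonneg (h.nn ω), hη]
  have b2 : ‖∑ t ∈ (S ×ˢ (Icc (-M : ℤ) M).erase 0) \ Z, γ t * ∑ ω, (w ω : ℂ) * ee (η t * Y ω)‖ ≤
      2 * ((∑ φ ∈ S, ‖G φ‖) * (2 * M)) * τ := by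
    refine (norm_sum_le_of_le (n := fun t => 2 * (‖G t.1‖ * ‖c t.2‖) * τ) _ fun t ht => ?_).trans ?_
    · rw [norm_mul]
      refine mul_le_mul (hn t) (h.far _ ?_) (norm_nonneg _) (by positivity)
      rw [hη]
      exact hfar t (mem_sdiff.1 ht).1 (mem_sdiff.1 ht).2
    · rw [← sum_mul, ← mul_sum]
      refine mul_le_mul_of_nonneg_right (mul_le_mul_of_nonneg_left ?_ zero_le_two) h.tau
      refine (sum_le_sum_of_subset_of_nonneg sdiff_subset fun _ _ _ => by positivity).trans ?_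
      rw [sum_product' (f := fun φ a => ‖G φ‖ * ‖c a‖), ← sum_mul_sum]
      exact mul_le_mul_of_nonneg_left hc.sum_norm' (sum_nonneg fun _ _ => norm_nonneg _)
  have b3 := (abs_le.1 ((Complex.abs_re_le_norm _).trans
    (e2.symm ▸ (norm_add_le _ _).trans (add_le_add b1 b2)))).1
  rw [Complex.sub_re, Complex.re_sum] at b3
  simp only [Complex.re_ofReal_mul, ← e1] at b3
  have e4 : ∑ ω, w ω * ((1 + (∑ φ ∈ S, G φ * ee (f φ * Y ω)).re) / 2 *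
      (ph c M (e * Y ω + z) - ph c M (e * Y ω))) =
      (∑ ω, w ω * (ph c M (e * Y ω + z) - ph c M (e * Y ω))) / 2 +
        (∑ ω, w ω * ((∑ φ ∈ S, G φ * ee (f φ * Y ω)).re *
          (ph c M (e * Y ω + z) - ph c M (e * Y ω)))) / 2 := by
    rw [sum_div, sum_div, ← sum_add_distrib]
    exact sum_congr rfl fun ω _ => by ring
  simp only [hγ] at b3
  rw [e4]
  linarith

end Pool.Agent.Lib.MP_a01f70_lc.GA
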