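import Pool.Agent.Lib.MP_a01f70_lc.GA.Least
import Pool.Agent.Lib.MP_a01f70_lc.GA.CyF

/-! The bounded relation outside the cyclotomic ideal. -/

set_option autoImplicit false
set_option linter.unusedSectionVars false

noncomputable section

namespace Pool.Agent.Lib.MP_a01f70_lc.GA

open Finset ZMod BA
open scoped ComplexConjugate

variable {N n : ℕ} [NeZero N] [NeZero n]

/-- `e = 2 c + 2`, `y` from `exists_root'` with `k = 120 e`, `B = y ^ e`, `large' (120 e) (1500 e)`.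
`exists_stop` for `f t = K1 n m d (B ^ 116 * y ^ (3 t))` (`card_dvd` with `x = 0`) gives `t ≤ c`;
`θ₁ = B ^ 116 * y ^ (3 t)`, `θ₁ y ^ 3 ≤ B ^ 118`, `2 θ₁ y ^ 2 ≤ θ₁ y ^ 3`. `M`, `c'` from
`exists_mino` (as in `BA.least`). `B ^ 120 ≤ s < c m` gives `2 (350 B + 2) < m`, so `cy` applies.
All fields of `Ar` hold for `B ≥ y` above a constant that depends on `c`; `contra`. -/
theorem least' (c : ℕ) : ∃ S₀ : ℕ, ∀ (N n : ℕ) [NeZero N] [NeZero n] (m k d s : ℕ) (a : ZMod N),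
    N + 1 = 2 ^ n → n = c * m → Odd c → k ∣ c → DD n d → a ∉ GG N k m → Wt 1400 a →
    Wt (s + 1) (a * d) → s < n → (∀ η : ZMod N, Wt 1400 η → Wt s (η * d) → η ∈ GG N k m) →
    s < S₀ := by
  classical
  obtain ⟨B₀, hB₀⟩ := contra c
  obtain ⟨e, he⟩ : ∃ e, e = 2 * c + 2 := ⟨_, rfl⟩
  obtain ⟨y₀, hy₀⟩ := large' (e * 120) (e * 1500)
  obtain ⟨X, hX⟩ : ∃ X, X = c * (c * (2 * (22 + c))) + 2 := ⟨_, rfl⟩
  obtain ⟨Y, hY⟩ : ∃ Y, Y = 4 ^ ((22 + c) * c) := ⟨_, rfl⟩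
  refine ⟨(B₀ + y₀ + 10 ^ 5 + 700 * X + 2 * Y + 704 * c) ^ (e * 120),
    fun N n _ _ m k d s a hN hn hc hk hd ha0 ha hs hsn hmin => ?_⟩
  by_contra hlt
  obtain ⟨y, hy1, hy2⟩ := exists_root' (k := e * 120) (by omega) s
  have hy : B₀ + y₀ + 10 ^ 5 + 700 * X + 2 * Y + 704 * c ≤ y :=
    Nat.lt_succ_iff.1 (lt_of_pow_lt_pow_left₀ _ (Nat.zero_le _) ((not_lt.1 hlt).trans_lt hy2))
  obtain ⟨l1, l2⟩ := hy₀ y (by omega)
  obtain ⟨B, hB⟩ : ∃ B, B = y ^ e := ⟨_, rfl⟩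
  have hyB : y ≤ B := hB ▸ Nat.le_self_pow (by omega) y
  rw [pow_mul, ← hB] at hy1
  rw [pow_mul y, ← hB] at l1
  have l3 : (B : ℝ) ^ 1500 ≤ Real.exp (y / 4) := by
    rwa [hB, Nat.cast_pow, ← pow_mul]
  have hy0 : 0 < y := by omega
  have hB0 : 0 < B := by omega
  obtain ⟨t, ht, hst⟩ := exists_stop (fun t => K1 n m (d : ZMod N) (B ^ 116 * y ^ (3 * t)))
    (fun t δ hδ => by
      simp only [K1, mem_filter, mem_univ, true_and] at hδ ⊢
      exact ⟨hδ.1, hδ.2.mono (Nat.mul_le_mul_left _ (Nat.pow_le_pow_right hy0 (by omega)))⟩)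
    (c := c) fun t => (card_le_card fun δ hδ => by
      simp only [K1, mem_filter, mem_univ, true_and, sub_zero] at hδ ⊢
      exact hδ.1).trans (card_dvd hn 0)
  obtain ⟨θ₁, hθ⟩ : ∃ θ₁, θ₁ = B ^ 116 * y ^ (3 * t) := ⟨_, rfl⟩
  have t1 : θ₁ * y ^ 3 = B ^ 116 * y ^ (3 * (t + 1)) := by rw [hθ]; ring
  have t2 : θ₁ * y ^ 3 ≤ B ^ 118 := by
    rw [t1, show B ^ 118 = B ^ 116 * B ^ 2 by ring]
    refine Nat.mul_le_mul_left _ ?_
    rw [hB, ← pow_mul]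
    exact Nat.pow_le_pow_right hy0 (by omega)
  have t3 : 2 * (θ₁ * y ^ 2) ≤ θ₁ * y ^ 3 := by
    rw [show θ₁ * y ^ 3 = y * (θ₁ * y ^ 2) by ring]
    exact Nat.mul_le_mul_right _ (by omega)
  have t4 : θ₁ ≤ θ₁ * y ^ 3 := Nat.le_mul_of_pos_right _ (pow_pos hy0 3)
  have hBr : (16 : ℝ) ≤ B := by exact_mod_cast (by omega : 16 ≤ B)
  have hBp : (0 : ℝ) < B := by linarith
  have hx0 : (0 : ℝ) < 1 / B := one_div_pos.2 hBp
  have hxs : (1 : ℝ) / B ≤ 1 / 16 := one_div_le_one_div_of_le (by norm_num) hBr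
  obtain ⟨M, c', hM, hc'⟩ := exists_mino (pow_pos hx0 116)
    ((pow_le_of_le_one hx0.le (hxs.trans (by norm_num)) (by norm_num)).trans hxs)
  have hMB : M ≤ 33 * B ^ 348 := by
    rw [← pow_mul, one_div_pow, mul_one_div, div_le_iff₀ (pow_pos hBp _)] at hM
    exact_mod_cast hM
  have e4 : 2 * M < B ^ 350 := by
    have h2 : 66 < B * B := lt_of_lt_of_le (by omega) (Nat.le_mul_of_pos_right B hB0)
    calc 2 * M ≤ 2 * (33 * B ^ 348) := Nat.mul_le_mul_left 2 hMB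
      _ = 66 * B ^ 348 := by ring
      _ < B * B * B ^ 348 := Nat.mul_lt_mul_of_pos_right h2 (pow_pos hB0 348)
      _ = B ^ 350 := by ring
  have hm : 2 * (350 * B + 2) < m := by
    by_contra hm
    have h1 : c * m ≤ c * (704 * B) := Nat.mul_le_mul_left _ (by omega)
    have h2 : 704 * c * B ≤ B * B := Nat.mul_le_mul_right _ (by omega)
    have h3 : B ^ 2 ≤ B ^ 120 := Nat.pow_le_pow_right hB0 (by norm_num)
    rw [sq] at h3
    rw [show c * (704 * B) = 704 * c * B by ring] at h1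
    exact absurd (h1.trans (h2.trans (h3.trans hy1))) (by omega)
  have big : 700 * B * X * (θ₁ * y ^ 2) ≤ s := by
    refine le_trans ?_ hy1
    rw [show B ^ 120 = B * B * B ^ 118 by ring, show 700 * B * X = 700 * X * B by ring]
    exact Nat.mul_le_mul (Nat.mul_le_mul_right _ (by omega))
      ((Nat.le_mul_of_pos_left _ two_pos).trans (t3.trans t2))
  refine hB₀ N n m d s θ₁ B M y (GG N k m) a c' hd
    ⟨hN, hn, hc, by omega, cy hN hn hc hk (by omega) hm, hmin, hB0, hX ▸ big, e4, ?_,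
      fun δ h1 h2 => ?_⟩ hc' hMB (by omega) (by omega) l3
    (hθ ▸ Nat.le_mul_of_pos_right _ (pow_pos hy0 _)) (t4.trans t2) hy1
    ((Nat.succ_le_of_lt hy2).trans l1) ha0 ha hs
  · rw [← hY]
    exact lt_of_lt_of_le (by omega) (Nat.le_self_pow (by norm_num) B)
  · have h3 := @hst δ
    simp only [K1, mem_filter, mem_univ, true_and] at h3
    exact hθ ▸ (h3 ⟨h1, h2.mono (t3.trans_eq t1)⟩).2

/-- `mem_GG` with `x = 1`: the value is not a unit, since it is greater than one: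
`Polynomial.sub_one_pow_totient_lt_natAbs_cyclotomic_eval` for `1 < k`, `cyclotomic_one` else. -/
theorem one_not_mem (hN : N + 1 = 2 ^ n) {m c k : ℕ} (hn : n = c * m) (hk : k ∣ c) (hm : 2 ≤ m) :
    (1 : ZMod N) ∉ GG N k m := by
  intro h
  have h1 := (mem_GG hN hn hk 1).1 (by simpa using h)
  have h2 := Int.natAbs_dvd_natAbs.2 h1
  rw [Int.natAbs_one, Nat.dvd_one] at h2
  have h4 : 4 ≤ 2 ^ m := by simpa using Nat.pow_le_pow_right (by norm_num : 0 < 2) hm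
  have hk0 : k ≠ 0 := by
    rintro rfl
    exact NeZero.ne n (by rw [hn, Nat.eq_zero_of_zero_dvd hk, zero_mul])
  rw [show (2 : ℤ) ^ m = ((2 ^ m : ℕ) : ℤ) by simp] at h2
  rcases Nat.lt_or_ge 1 k with h5 | h5
  · have h6 := Polynomial.sub_one_pow_totient_lt_natAbs_cyclotomic_eval (q := 2 ^ m) h5 (by omega)
    have h7 : 0 < (2 ^ m - 1) ^ k.totient := pow_pos (by omega) _
    omega
  · obtain rfl : k = 1 := by omega
    simp only [Polynomial.cyclotomic_one, Polynomial.eval_sub, Polynomial.eval_X,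
      Polynomial.eval_one] at h2
    omega

/-- As `BA.bounded`. -/
theorem bounded2 : ∃ k₀ : ℕ, ∀ c : ℕ, ∃ S₀ : ℕ, ∀ n m k d : ℕ, Odd n → n = c * m → 2 ≤ m →
    k ∣ c → DD n d → ∃ η : ZMod (2 ^ n - 1),
      ¬((((Polynomial.cyclotomic k ℤ).eval (2 ^ m) : ℤ) : ZMod (2 ^ n - 1)) ∣ η) ∧ Wt k₀ η ∧
        Wt S₀ (η * d) := by
  classical
  refine ⟨1400, fun c => ?_⟩
  obtain ⟨S₀, hS₀⟩ := least' c
  refine ⟨S₀, fun n m k d ho hn hm hk hd => ?_⟩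
  have hn0 : n ≠ 0 := ho.pos.ne'
  have h4 : 2 ≤ 2 ^ n := Nat.one_lt_two_pow hn0
  obtain ⟨N, hN⟩ : ∃ N, N = 2 ^ n - 1 := ⟨_, rfl⟩
  rw [← hN]
  have hN1 : N + 1 = 2 ^ n := by omega
  have : NeZero N := ⟨by omega⟩
  have : NeZero n := ⟨hn0⟩
  have hex : ∃ η : ZMod N, η ∉ GG N k m ∧ Wt 1400 η ∧ Wt n (η * d) :=
    ⟨1, one_not_mem hN1 hn hk hm, by simpa using (wt_pow (R := ZMod N) 0).mono (by norm_num),
      wt_all hN1 _⟩
  have hex' : ∃ T, ∃ η : ZMod N, η ∉ GG N k m ∧ Wt 1400 η ∧ Wt T (η * d) := ⟨n, hex⟩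
  obtain ⟨a, ha0, ha, hs⟩ := Nat.find_spec hex'
  refine ⟨a, fun h => ha0 (Ideal.mem_span_singleton.2 h), ha, hs.mono ?_⟩
  rcases h : Nat.find hex' with _ | s
  · exact Nat.zero_le _
  · have h1 := Nat.find_min' hex' hex
    exact hS₀ N n m k d s a hN1 hn (Odd.of_dvd_nat ho ⟨m, hn⟩) hk hd ha0 ha (h ▸ hs) (by omega)
      fun η h1 h2 => by_contra fun h0 =>
        Nat.find_min hex' (by omega : s < Nat.find hex') ⟨η, h0, h1, h2⟩

end Pool.Agent.Lib.MP_a01f70_lc.GA
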