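import Pool.Agent.Lib.MP_a01f70_lc.GA.Defs

/-! The terms of order zero and one. -/

set_option autoImplicit false
set_option linter.unusedSectionVars false

noncomputable section

namespace Pool.Agent.Lib.MP_a01f70_lc.GA

open Finset ZMod BA
open scoped ComplexConjugate

variable {N n : ℕ} [NeZero N] [NeZero n]

variable {Ω : Type} [Fintype Ω] {w : Ω → ℝ} {Y : Ω → ZMod N} {I : Set (ZMod N)} {τ μ : ℝ}
  {c : ℤ → ℂ} {M C : ℕ}

/-- Copy `BA.ord0` (file `BA/Test.lean`); `hI` replaces `Sep.int`. -/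
theorem ord0' (h : Good w Y I τ) (hI : ∀ z : ℤ, z ≠ 0 → |z| ≤ M → (z : ZMod N) ∉ I)
    (hc : Mino c M μ) : -(μ + τ * (2 * M)) ≤ ∑ ω, w ω * ph c M (Y ω) := by
  classical
  have h1 := h.test ((Icc (-M : ℤ) M).erase 0) ∅ (empty_subset _) c (fun a => (a : ZMod N))
    (by simp)
  rw [sum_empty, sub_zero, filter_false_of_mem, sum_empty, zero_add] at h1
  · have h2 := (abs_le.1 ((Complex.abs_re_le_norm _).trans
      (h1.trans (mul_le_mul_of_nonneg_left hc.sum_norm' h.tau)))).1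
    have h3 := (abs_le.1 ((Complex.abs_re_le_norm _).trans (hc.even 0 Even.zero))).1
    have h4 : ∀ ω, ph c M (Y ω) = (c 0).re +
        (∑ a ∈ (Icc (-M : ℤ) M).erase 0, c a * ee ((a : ZMod N) * Y ω)).re := fun ω => by
      rw [ph, ← add_sum_erase (a := 0) _ _ (by simp), Complex.add_re, Int.cast_zero, zero_mul,
        ee_zero, mul_one]
    rw [Complex.re_sum] at h2
    simp only [Complex.re_ofReal_mul] at h2
    simp only [h4, mul_add, sum_add_distrib, ← sum_mul, h.one]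
    linarith
  · intro a ha
    simp only [mem_sdiff, mem_erase, mem_Icc] at ha
    exact hI a ha.1.1 (abs_le.2 ha.1.2)

/-- Copy `BA.ord1a` (file `BA/OrdA.lean`). -/
theorem ord1a' (h : Good w Y I τ) (hI : ∀ z : ℤ, z ≠ 0 → |z| ≤ M → (z : ZMod N) ∉ I)
    (hc : Mino c M μ) (z : ZMod N) :
    |∑ ω, w ω * (ph c M (Y ω + z) - ph c M (Y ω))| ≤ τ * (4 * M) := by
  have t := OrdA_test h ((Icc (-M : ℤ) M).erase 0) ∅ (empty_subset _)
    (fun a => c a * (ee ((a : ZMod N) * z) - 1)) (fun a => (a : ZMod N)) (by simp) (B := 0) ?_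
  · rw [sum_empty, sub_zero, zero_add] at t
    simp only [← hc.diff] at t
    rw [← Real.norm_eq_abs, ← Complex.norm_real]
    push_cast at t ⊢
    refine t.trans (mul_le_mul_of_nonneg_left ?_ h.tau)
    have := hc.sum_norm'
    refine (sum_le_sum fun a _ => OrdA_norm c a z).trans ?_
    rw [← sum_mul]
    linarith
  · refine fun F hF => le_of_eq (sum_eq_zero fun a ha => ?_)
    obtain ⟨h1, -, h2⟩ := hF a ha
    obtain ⟨h3, h4⟩ := mem_erase.1 h1
    exact absurd h2 (hI a h3 (abs_le.2 (mem_Icc.1 h4)))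

theorem OrdA_pt {c₁ x y E : ℂ} (hc : ‖c₁‖ ≤ 1) (hx : ‖x‖ ≤ 2) (hy : ‖y‖ ≤ 2) :
    ‖c₁‖ ^ 2 * ‖x‖ ^ 2 - 2 * ‖y - x‖ - 2 * ‖x‖ * ‖E - 1‖ ≤
      (c₁ * x * (conj (c₁ * y) / 2) * E + conj (c₁ * x * (conj (c₁ * y) / 2) * E)).re := by
  have e : c₁ * x * (conj (c₁ * y) / 2) * E = (((‖c₁‖ ^ 2 * ‖x‖ ^ 2 : ℝ) : ℂ) +
      c₁ * conj c₁ * (x * conj (y - x) + x * conj y * (E - 1))) / 2 := by
    push_cast
    rw [← Complex.mul_conj' c₁, ← Complex.mul_conj' x, map_mul, map_sub]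
    ring
  have b : ‖c₁ * conj c₁ * (x * conj (y - x) + x * conj y * (E - 1))‖ ≤
      1 * 1 * (2 * ‖y - x‖ + ‖x‖ * 2 * ‖E - 1‖) := by
    rw [norm_mul, norm_mul, Complex.norm_conj]
    gcongr
    refine (norm_add_le _ _).trans ?_
    simp only [norm_mul, Complex.norm_conj]
    gcongr
  have := (abs_le.1 ((Complex.abs_re_le_norm _).trans b)).1
  rw [Complex.add_re, Complex.conj_re, e, Complex.div_ofNat_re, Complex.add_re, Complex.ofReal_re]
  linarith

/-- As `BA.ord1b`, but split the index set `S = (Icc (-M) M).erase 0 ×ˢ univ` into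
`Z = K.image (1, (false, ·)) ∪ K.image (-1, (true, ·))` and `S \ Z`. On `S \ Z` use `OrdA_test`
with the empty set (`F ⊆ Bad2 I M K`). On `Z` the two terms of `δ` are conjugate, their sum at `y`
is `‖c 1‖ ^ 2 * (ww i * conj (ww (i + δ)) * ee ((1 - pw δ) * y)).re`, and
`ww i * conj (ww (i + δ)) * E = ‖ww i‖ ^ 2 + ww i * conj (ww (i + δ) - ww i) +
ww i * conj (ww (i + δ)) * (E - 1)`; `norm_ww`, `‖c 1‖ ≤ 1`. -/
theorem ord1b' (h : Good w Y I τ) (hc : Mino c M μ) (b : ZMod N) (i : ZMod n)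
    (K : Finset (ZMod n)) (x : ZMod n → ℝ)
    (hx : ∀ δ ∈ K, ∑ ω, w ω * ‖ee ((1 - pw N δ) * Y ω) - 1‖ ≤ x δ) :
    mn (c 1) b K x i - er2 c b I M K i - τ * (4 * M * PP n b) ≤
      ∑ ω, w ω * (gg (c 1) b i (Y ω) * (ph c M (Y ω + pw N i * b) - ph c M (Y ω))) := by
  classical
  have hM := hc.pos
  have h1 : ‖c 1‖ ≤ 1 := hc.norm_le one_ne_zero
  set γ : ℤ × (Bool × ZMod n) → ℂ := fun t =>
    c t.1 * (ee ((t.1 : ZMod N) * (pw N i * b)) - 1) * gam (c 1) b i t.2 with hγ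
  have hn : ∀ t, ‖γ t‖ ≤ ‖c t.1‖ * 2 * ‖gam (c 1) b i t.2‖ := fun t => by
    rw [hγ, norm_mul]
    exact mul_le_mul_of_nonneg_right (OrdA_norm c _ _) (norm_nonneg _)
  obtain ⟨Z, hZ⟩ : ∃ Z : Finset (ℤ × (Bool × ZMod n)), Z = (K.image fun δ => (1, (false, δ))) ∪
    K.image fun δ => (-1, (true, δ)) := ⟨_, rfl⟩
  obtain ⟨S, hS⟩ : ∃ S, S = (Icc (-M : ℤ) M).erase 0 ×ˢ (univ : Finset (Bool × ZMod n)) := ⟨_, rfl⟩
  have hZS : Z ⊆ S := fun t ht => by
    simp only [hZ, mem_union, mem_image] at ht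
    rcases ht with ⟨δ, -, rfl⟩ | ⟨δ, -, rfl⟩ <;>
      simp only [hS, mem_product, mem_erase, mem_Icc, mem_univ, and_true] <;> omega
  have t := OrdA_test h (S \ Z) ∅ (empty_subset _) γ (fun t => (t.1 : ZMod N) + sp N t.2) (by simp)
    (B := er2 c b I M K i) fun F hF => by
      refine (sum_le_sum_of_subset_of_nonneg (t := Bad2 I M K) (fun t ht => ?_)
        fun _ _ _ => norm_nonneg _).trans (sum_le_sum fun t _ => (hn t).trans ?_)
      · obtain ⟨a3, -, a2⟩ := hF t ht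
        obtain ⟨a3, a4⟩ := mem_sdiff.1 a3
        obtain ⟨a5, a6⟩ := mem_erase.1 (mem_product.1 (hS ▸ a3)).1
        obtain ⟨a, σ, δ⟩ := t
        simp only [Bad2, mem_filter]
        refine ⟨mem_product.2 ⟨a6, mem_univ _⟩, a5, a2, ?_, ?_⟩ <;> rintro ⟨rfl, rfl, a7⟩
        · exact a4 (hZ ▸ mem_union_left _ (mem_image_of_mem _ a7))
        · exact a4 (hZ ▸ mem_union_right _ (mem_image_of_mem _ a7))
      · have := norm_gam h1 b i t.2
        nlinarith [norm_nonneg (c t.1)]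
  have e1 : ∀ y : ZMod N, ∑ t ∈ S, γ t * ee (((t.1 : ZMod N) + sp N t.2) * y) =
      ((gg (c 1) b i y * (ph c M (y + pw N i * b) - ph c M y) : ℝ) : ℂ) := fun y => by
    rw [hS, Complex.ofReal_mul, hc.diff, gg_eq, mul_comm (∑ s, _), sum_mul_sum, sum_product]
    refine sum_congr rfl fun a _ => sum_congr rfl fun s _ => ?_
    rw [add_mul, ee_add, hγ]
    ring
  have e2 : ∀ y : ZMod N, mn (c 1) b K (fun δ => ‖ee ((1 - pw N δ) * y) - 1‖) i ≤
      (∑ t ∈ Z, γ t * ee (((t.1 : ZMod N) + sp N t.2) * y)).re := fun y => by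
    rw [hZ, sum_union (disjoint_left.2 fun t a1 a2 => by
      obtain ⟨δ, -, rfl⟩ := mem_image.1 a1
      simp at a2), sum_image (by simp [Set.InjOn]), sum_image (by simp [Set.InjOn]),
      ← sum_add_distrib, Complex.re_sum]
    refine sum_le_sum fun δ _ => (OrdA_pt h1 (norm_ww b i) (norm_ww b (i + δ))).trans_eq ?_
    have a3 : ee (-(pw N i * b)) - 1 = conj (ww b i) := by rw [ee_neg, ww, map_sub, map_one]
    have a4 : ee (pw N i * b) - 1 = ww b i := rfl
    have a5 : ee ((-1 + pw N δ) * y) = conj (ee ((1 + -pw N δ) * y)) := by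
      rw [← ee_neg]
      congr 1
      ring
    simp only [hγ, gam, sp, Int.cast_one, Int.cast_neg, one_mul, neg_mul, a3, a4, a5, hc.cj,
      map_mul, map_div₀, Complex.conj_conj, map_ofNat, Bool.false_eq_true, if_false, if_true,
      sub_eq_add_neg (1 : ZMod N)]
  have b1 := (abs_le.1 ((Complex.abs_re_le_norm _).trans t)).1
  have b2 : ∑ t ∈ S \ Z, ‖γ t‖ ≤ 4 * M * PP n b := by
    refine (sum_le_sum_of_subset_of_nonneg sdiff_subset fun _ _ _ => norm_nonneg _).trans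
      ((sum_le_sum fun t _ => hn t).trans ?_)
    rw [hS, sum_product' (f := fun a s => ‖c a‖ * 2 * ‖gam (c 1) b i s‖), ← sum_mul_sum, ← sum_mul]
    have := hc.sum_norm'
    refine mul_le_mul (by linarith) (sum_gam h1 b i) (sum_nonneg fun _ _ => norm_nonneg _) ?_
    positivity
  have b3 := mul_le_mul_of_nonneg_left b2 h.tau
  have b4 : mn (c 1) b K x i ≤
      ∑ ω, w ω * mn (c 1) b K (fun δ => ‖ee ((1 - pw N δ) * Y ω) - 1‖) i := by
    simp only [mn, mul_sum]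
    rw [sum_comm]
    refine sum_le_sum fun δ hδ => ?_
    have := mul_le_mul_of_nonneg_left (hx δ hδ) (by positivity : 0 ≤ 2 * ‖ww b i‖)
    simp only [mul_sub, sum_sub_distrib, ← sum_mul, h.one, mul_left_comm (w _) (2 * ‖ww b i‖),
      ← mul_sum]
    linarith
  have b5 := b4.trans (sum_le_sum fun ω _ => mul_le_mul_of_nonneg_left (e2 (Y ω)) (h.nn ω))
  simp only [sum_empty, sub_zero, sum_sdiff_eq_sub hZS, e1, Complex.re_sum, Complex.re_ofReal_mul,
    Complex.sub_re, Complex.ofReal_re, mul_sub (w _) (gg _ _ _ _ * _), sum_sub_distrib] at b1 b5 b3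
  linarith

end Pool.Agent.Lib.MP_a01f70_lc.GA
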